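import Pool.Agent.H39.QF.Rat
import Pool.Agent.H39.UP.Rb

/-!
[H1 QG RATS]  P186 (MP_bcc40c_pr, Q2, part G)  Sharp upper bound for the ratio of the numbers of triangulations.  REAL ANALYSIS.

PROOF.  Copy of QF/Rat (helper39) with the other inequality.  `rb_up` (UP/Rb): `bc (n+1) (v n + 1) ≤ C bc n (v n)` (region `ω/2 .. (1+ω)/2`, `ω = 6 dl h ∈ (0,1)` by dl_range).  For `t` with `t + 1 ≤ i ≤ (log n)^2`: `N = n + 1 - t`, `V = v n + 1 - t`, `N ≥ n/2`, `V/N` is close to `v n / n` (difference `≤ 4 (log n)^2/n`), so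
to `ω`; parity `V = N mod 2`; rho (UN/Rho): `|bc (N-1) (V-1)/bc N V - lamw (V/N)| ≤ e`, `lamw` continuous at `ω` (lamw_cont), `lamw ω = lam h` (thw_dl): `bc (N-1) (V-1) ≤ l1 bc N V` (if `bc N V = 0` then the quotient is `0` in Lean and `lamw (V/N) ≤ e`, impossible for small `e`: `lamw (V/N) ≥ lam h - e > e`; choose `e ≤ lam h/4`).
Induction on `i`: `bc (n+1-i) (v n + 1 - i) ≤ l1^i bc (n+1) (v n + 1) ≤ C l1^i bc n (v n)` (`v n ≥ (log n)^2` for large `n`, so the subtractions are honest).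
bc_posS: `0 < bc n (v n)` for large `n`: the same argument (rho at `N = n`, quotient `> 0`).
-/

set_option autoImplicit false

namespace QG1

open HG39 UN39 Filter Topology

theorem bc_posS {h : ℝ} (h0 : 0 < h) (h1 : h < 1 / 4) {v : ℕ → ℕ}
    (hv : Tendsto (fun n => (v n : ℝ) / n) atTop (𝓝 (6 * dl h)))
    (hp : ∀ᶠ n in atTop, v n % 2 = n % 2) : ∃ n0 : ℕ, ∀ n, n0 ≤ n → 0 < bc n (v n) := by
  obtain ⟨hw0, hw1⟩ := dl_range h0 h1
  set ω : ℝ := 6 * dl h with hω
  have e1 : ∀ᶠ n : ℕ in atTop, ω / 2 < (v n : ℝ) / n := hv.eventually (lt_mem_nhds (by linarith))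
  have e2 : ∀ᶠ n : ℕ in atTop, (v n : ℝ) / n < 1 := hv.eventually (gt_mem_nhds hw1)
  have hev : ∀ᶠ n : ℕ in atTop, 0 < bc n (v n) := by
    filter_upwards [eventually_ge_atTop 1, hp, e1, e2] with n a1 a2 a3 a4
    have hn : (0 : ℝ) < n := by exact_mod_cast a1
    refine bc_pos a1 ?_ ?_ a2
    · rw [lt_div_iff₀ hn] at a3
      have : (0 : ℝ) < v n := lt_trans (by positivity) a3
      exact_mod_cast this
    · rw [div_lt_one hn] at a4
      have : v n < n := by exact_mod_cast a4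
      omega
  exact eventually_atTop.1 hev

theorem rats {h : ℝ} (h0 : 0 < h) (h1 : h < 1 / 4) {v : ℕ → ℕ}
    (hv : Tendsto (fun n => (v n : ℝ) / n) atTop (𝓝 (6 * dl h)))
    (hp : ∀ᶠ n in atTop, v n % 2 = n % 2) {l1 : ℝ} (hl : UN39.lam h < l1) :
    ∃ C : ℝ, 0 < C ∧ ∃ n0 : ℕ, ∀ n, n0 ≤ n → ∀ i : ℕ, (i : ℝ) ≤ Real.log n ^ 2 →
      bc (n + 1 - i) (v n + 1 - i) ≤ C * l1 ^ i * bc n (v n) := by
  obtain ⟨hw0, hw1⟩ := dl_range h0 h1
  set ω : ℝ := 6 * dl h with hω
  have hlam : lamw ω = lam h := by rw [lamw, hω, thw_dl h0 h1]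
  have hlam0 : 0 < lam h := (lam_facts h0 h1).1
  have hl0 : 0 < l1 := hlam0.trans hl
  set e : ℝ := (l1 - lam h) / 2 with he
  have he0 : 0 < e := by rw [he]; linarith
  have hcont : ContinuousAt lamw ω := lamw_cont.1.continuousAt (Ioo_mem_nhds hw0 hw1)
  obtain ⟨d, hd0, hd⟩ := Metric.continuousAt_iff.1 hcont e he0
  obtain ⟨m, hm1, hm2, hm3, hm4⟩ : ∃ m : ℝ, 0 < m ∧ m ≤ d ∧ m ≤ ω / 2 ∧ m ≤ (1 - ω) / 2 := by
    refine ⟨min d (min (ω / 2) ((1 - ω) / 2)), ?_, min_le_left _ _,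
      (min_le_right _ _).trans (min_le_left _ _), (min_le_right _ _).trans (min_le_right _ _)⟩
    refine lt_min hd0 (lt_min ?_ ?_) <;> linarith
  obtain ⟨n1, hn1⟩ := rho (ω1 := ω / 2) (ω2 := (1 + ω) / 2) (by linarith) (by linarith) he0
  obtain ⟨C, n2, hC, hup⟩ := rb_up (ω1 := ω / 2) (ω2 := (1 + ω) / 2) (by linarith) (by linarith)
  have hlog : Tendsto (fun n : ℕ => 2 * (Real.log n ^ 2 + 1) / n) atTop (𝓝 0) := by
    have h2 : Tendsto (fun x : ℝ => Real.log x ^ 2 / x) atTop (𝓝 0) := by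
      have h3 := Real.isLittleO_pow_log_id_atTop (n := 2)
      exact h3.tendsto_div_nhds_zero
    have h3 : Tendsto (fun x : ℝ => 1 / x) atTop (𝓝 0) := by
      simpa using tendsto_inv_atTop_zero
    have h4 := ((h2.add h3).const_mul 2).comp tendsto_natCast_atTop_atTop
    rw [add_zero, mul_zero] at h4
    refine h4.congr fun n => ?_
    simp only [Function.comp_apply]
    ring
  have hev : ∀ᶠ n : ℕ in atTop, 2 * (n1 + 1) ≤ n ∧ n2 ≤ n ∧ 1 ≤ n ∧ v n % 2 = n % 2 ∧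
      |(v n : ℝ) / n - ω| < m / 2 ∧ 2 * (Real.log n ^ 2 + 1) / n < m / 2 := by
    have e1 : ∀ᶠ n : ℕ in atTop, |(v n : ℝ) / n - ω| < m / 2 := by
      have h5 := (Metric.tendsto_nhds.1 hv) (m / 2) (by linarith)
      filter_upwards [h5] with n hn
      rwa [Real.dist_eq] at hn
    have e2 : ∀ᶠ n : ℕ in atTop, 2 * (Real.log n ^ 2 + 1) / n < m / 2 :=
      hlog.eventually (gt_mem_nhds (by linarith))
    filter_upwards [eventually_ge_atTop (2 * (n1 + 1)), eventually_ge_atTop n2,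
      eventually_ge_atTop 1, hp, e1, e2] with n a1 a1' a2 a3 a4 a5
    exact ⟨a1, a1', a2, a3, a4, a5⟩
  obtain ⟨n0, hn0⟩ := eventually_atTop.1 hev
  refine ⟨C, hC, n0, fun n hn => ?_⟩
  obtain ⟨b1, b1', b2, b3, b4, b5⟩ := hn0 n hn
  have hnp : (0 : ℝ) < n := by exact_mod_cast b2
  have hb4 := abs_lt.1 b4
  -- the size of the logarithm
  have hL : 2 * (Real.log n ^ 2 + 1) < m / 2 * n := by
    rw [div_lt_iff₀ hnp] at b5
    exact b5
  have hm12 : m ≤ 1 / 2 := by linarith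
  have hLn : Real.log n ^ 2 + 1 < n / 8 := by nlinarith
  have hvn : ω / 2 * n ≤ v n ∧ (v n : ℝ) ≤ (1 + ω) / 2 * n := by
    constructor
    · have : ω / 2 ≤ (v n : ℝ) / n := by linarith [hb4.1]
      rwa [le_div_iff₀ hnp] at this
    · have : (v n : ℝ) / n ≤ (1 + ω) / 2 := by linarith [hb4.2]
      rwa [div_le_iff₀ hnp] at this
  have hLv : Real.log n ^ 2 + 1 < v n := by
    have h5 : m * n ≤ ω / 2 * n := mul_le_mul_of_nonneg_right hm3 hnp.le
    nlinarith [hvn.1, sq_nonneg (Real.log n)]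
  have key : ∀ t : ℕ, ((t + 1 : ℕ) : ℝ) ≤ Real.log n ^ 2 →
      bc (n + 1 - (t + 1)) (v n + 1 - (t + 1)) ≤ l1 * bc (n + 1 - t) (v n + 1 - t) := by
    intro t ht
    push_cast at ht
    have ht0 : (0 : ℝ) ≤ t := Nat.cast_nonneg t
    have htn : t ≤ n + 1 := by
      have : (t : ℝ) ≤ n := by linarith
      have : t ≤ n := by exact_mod_cast this
      omega
    have htv : t + 1 ≤ v n := by
      have : ((t + 1 : ℕ) : ℝ) ≤ v n := by push_cast; linarith
      exact_mod_cast this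
    obtain ⟨N, hN⟩ : ∃ N, N = n + 1 - t := ⟨_, rfl⟩
    obtain ⟨V, hV⟩ : ∃ V, V = v n + 1 - t := ⟨_, rfl⟩
    have hNr : (N : ℝ) = n + 1 - t := by
      rw [hN, Nat.cast_sub htn]
      push_cast
      ring
    have hVr : (V : ℝ) = v n + 1 - t := by
      rw [hV, Nat.cast_sub (by omega)]
      push_cast
      ring
    have hN2 : (n : ℝ) / 2 ≤ N := by rw [hNr]; linarith
    have hNp : (0 : ℝ) < N := by linarith
    have hNn1 : n1 ≤ N := by
      have h5 : (n1 : ℝ) ≤ N := by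
        have h6 : (2 * ((n1 : ℝ) + 1)) ≤ n := by exact_mod_cast b1
        linarith
      exact_mod_cast h5
    have hdiff : (V : ℝ) / N - (v n : ℝ) / n = ((1 - t) / N) * (1 - (v n : ℝ) / n) := by
      have h5 : (n : ℝ) + 1 - t ≠ 0 := by rw [← hNr]; exact hNp.ne'
      rw [hNr, hVr]
      field_simp
      ring
    have h1v : 0 ≤ 1 - (v n : ℝ) / n ∧ 1 - (v n : ℝ) / n ≤ 1 := by
      constructor <;> linarith [hb4.1, hb4.2]
    have hs : |(1 - (t : ℝ)) / N| < m / 2 := by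
      rw [abs_div, abs_of_pos hNp, div_lt_iff₀ hNp]
      have h5 : |1 - (t : ℝ)| ≤ Real.log n ^ 2 + 1 := by
        rw [abs_le]
        constructor <;> linarith [sq_nonneg (Real.log n)]
      have h6 : m / 2 * (n / 2) ≤ m / 2 * N := mul_le_mul_of_nonneg_left hN2 (by linarith)
      linarith
    have hpr : |(V : ℝ) / N - (v n : ℝ) / n| < m / 2 := by
      rw [hdiff, abs_mul, abs_of_nonneg h1v.1]
      calc |(1 - (t : ℝ)) / N| * (1 - (v n : ℝ) / n) ≤ |(1 - (t : ℝ)) / N| * 1 :=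
            mul_le_mul_of_nonneg_left h1v.2 (abs_nonneg _)
        _ < m / 2 := by linarith
    have hpr' := abs_lt.1 hpr
    have hVN : |(V : ℝ) / N - ω| < m := by
      rw [abs_lt]
      constructor <;> linarith [hb4.1, hb4.2, hpr'.1, hpr'.2]
    have hVN' := abs_lt.1 hVN
    have c1 : ω / 2 * N ≤ V := by
      have : ω / 2 ≤ (V : ℝ) / N := by linarith
      rwa [le_div_iff₀ hNp] at this
    have c2 : (V : ℝ) ≤ (1 + ω) / 2 * N := by
      have : (V : ℝ) / N ≤ (1 + ω) / 2 := by linarith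
      rwa [div_le_iff₀ hNp] at this
    have c2' : V ≤ N := by
      have : (V : ℝ) ≤ N := by
        refine c2.trans ?_
        nlinarith
      exact_mod_cast this
    have hpar : V % 2 = N % 2 := by omega
    have c3 := hn1 N V hNn1 c1 c2 hpar
    have c4 := hd (x := (V : ℝ) / N) (by rw [Real.dist_eq]; linarith)
    rw [Real.dist_eq, hlam] at c4
    have c5 := (abs_le.1 c3).2
    have c6 := (abs_lt.1 c4).2
    have c8 : 0 < bc N V := by
      refine bc_pos ?_ (by omega) (by omega) hpar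
      have : (0 : ℝ) < N := hNp
      exact_mod_cast this
    have c7 : bc (N - 1) (V - 1) / bc N V < l1 := by
      have : l1 = lam h + 2 * e := by rw [he]; ring
      rw [this]
      linarith
    rw [div_lt_iff₀ c8] at c7
    have e1 : n + 1 - (t + 1) = N - 1 := by omega
    have e2 : v n + 1 - (t + 1) = V - 1 := by omega
    rw [e1, e2, ← hN, ← hV]
    exact c7.le
  have hind : ∀ i : ℕ, (i : ℝ) ≤ Real.log n ^ 2 →
      bc (n + 1 - i) (v n + 1 - i) ≤ l1 ^ i * bc (n + 1) (v n + 1) := by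
    intro i
    induction i with
    | zero =>
      intro _
      simp
    | succ i ih =>
      intro hi
      have h2 : (i : ℝ) ≤ Real.log n ^ 2 := by
        push_cast at hi
        linarith
      calc bc (n + 1 - (i + 1)) (v n + 1 - (i + 1)) ≤ l1 * bc (n + 1 - i) (v n + 1 - i) := key i hi
        _ ≤ l1 * (l1 ^ i * bc (n + 1) (v n + 1)) := mul_le_mul_of_nonneg_left (ih h2) hl0.le
        _ = l1 ^ (i + 1) * bc (n + 1) (v n + 1) := by ring
  intro i hi
  calc bc (n + 1 - i) (v n + 1 - i) ≤ l1 ^ i * bc (n + 1) (v n + 1) := hind i hi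
    _ ≤ l1 ^ i * (C * bc n (v n)) :=
        mul_le_mul_of_nonneg_left (hup n (v n) b1' hvn.1 hvn.2) (pow_nonneg hl0.le _)
    _ = C * l1 ^ i * bc n (v n) := by ring

end QG1
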