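import Pool.Agent.H1.QG.Cnt
import Pool.Agent.H1.QG.RatS
import Pool.Agent.H39.UI.PieceM

/-!
[H1 QG B34]  P186 (MP_bcc40c_pr, Q2, part G)  Large parts, and small parts of positive genus, are rare.  REAL ANALYSIS.

PROOF.  `ω = 6 dl h ∈ (0, 1)` (dl_range), `ω1 = ω/2`, `ω2 = (1 + ω)/2`; for large `n`: `ω1 n ≤ v n ≤ ω2 n ≤ n`, parity, `0 < bc n (v n)` (bc_posS), `1 ≤ M = ⌊(log n)^2⌋₊`, `2 M + 2 ≤ n`.  `bc ≥ 0` (bc_nonneg).
b3: for `M + 1 ≤ i ≤ n - M` (so `1 ≤ i ≤ n`) and `u < v n + 4`: cnt4, and pieceM (`a = 1`, `k = 0`, `i' = n + 1 - i ≥ M + 1`, `u' = v n + 3 - u`, `u + u' = v n + 1 + 2`, `L = M + 1`; `A = 1`): `#Bg ≤ 432 n i i' (r+1) #TS C exp(-c (M+1)) ≤ 432 C (n+1)^4 exp(-c (log n)^2) #TS` (`r ≤ n`, `M + 1 ≥ (log n)^2`).  At most `n (n+4)` pairs `(i, u)`, and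
`432 C (n+4)^6 exp(-c (log n)^2) ≤ 1` for large `n` (`(n+4)^6 ≤ exp(12 log n)`-type bound: `12 log n + log(432 C) ≤ c (log n)^2`).
b4: let `1 ≤ i ≤ M`, `u < v n + 4`, `u ≠ i + 2`.  If `bc i u = 0` then `#Bg = 0` (cnt4, `bc n v > 0`).  Otherwise bc_supp: `1 ≤ u ≤ i + 2`, `u = i mod 2`, so `u = i + 2 - 2 g` with `1 ≤ g`, `2 g ≤ i + 1`; there are at most `i + 2 ≤ 3 M` such `u`.  piece (`a = 1`, `k = 0`, `i ≤ δ n`; `v n + 3 - u = v n + 1 - i + 2 g`):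
`bc i u bc (n+1-i) (..) ≤ C θ^i (C (i+1)^2/n^2)^g bc n v ≤ C (C (M+1)^2/n^2) bc n v` (`C (M+1)^2 ≤ n^2`, `θ < 1`, `g ≥ 1`).  cnt4: `#Bg ≤ 432 n M (n+1) (r+1) #TS C^2 (M+1)^2/n^2 ≤ 864 C^2 (r+1) M (M+1)^2 #TS`.  Sum over at most `3 M * M` pairs: `≤ 2592 C^2 (r+1) M^3 (M+1)^2 #TS ≤ (r+1) (log n)^11 #TS`
for large `n` (`M ≤ (log n)^2`, `M + 1 ≤ 2 M`: `≤ C' (log n)^10`).
-/

set_option autoImplicit false

namespace QG1

open Equiv HG39 QD39 QL40 UN39 Filter Topology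

private theorem b34_rng {ω : ℝ} (hw0 : 0 < ω) (hw1 : ω < 1) {v : ℕ → ℕ}
    (hv : Tendsto (fun n => (v n : ℝ) / n) atTop (𝓝 ω)) :
    ∀ᶠ n : ℕ in atTop, ω / 2 * n ≤ v n ∧ (v n : ℝ) ≤ (1 + ω) / 2 * n := by
  have h1 := hv.eventually (Ioo_mem_nhds (show ω / 2 < ω by linarith) (show ω < (1 + ω) / 2 by linarith))
  filter_upwards [h1, eventually_ge_atTop 1] with n hn hn1
  have hn0 : (0 : ℝ) < n := by exact_mod_cast hn1
  have h2 : ω / 2 < (v n : ℝ) / n := hn.1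
  have h3 : (v n : ℝ) / n < (1 + ω) / 2 := hn.2
  rw [lt_div_iff₀ hn0] at h2
  rw [div_lt_iff₀ hn0] at h3
  exact ⟨h2.le, h3.le⟩

private theorem b34_log (K : ℝ) : ∀ᶠ n : ℕ in atTop, K ≤ Real.log n :=
  (Real.tendsto_log_atTop.comp tendsto_natCast_atTop_atTop).eventually_ge_atTop K

private theorem b34_sq {η : ℝ} (hη : 0 < η) : ∀ᶠ n : ℕ in atTop, Real.log n ^ 2 ≤ η * n := by
  have h1 : Tendsto (fun n : ℕ => Real.log n ^ 2 / (n : ℝ)) atTop (𝓝 0) := by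
    have h2 : Tendsto (fun x : ℝ => Real.log x ^ 2 / x) atTop (𝓝 0) :=
      (Real.isLittleO_pow_log_id_atTop (n := 2)).tendsto_div_nhds_zero
    exact h2.comp tendsto_natCast_atTop_atTop
  filter_upwards [h1.eventually (gt_mem_nhds hη), eventually_ge_atTop 1] with n hn hn1
  have hn0 : (0 : ℝ) < n := by exact_mod_cast hn1
  rw [div_lt_iff₀ hn0] at hn
  exact hn.le

private theorem b34_exp {c C : ℝ} (hc : 0 < c) {n : ℕ} (hn : 4 ≤ n) (hl : 13 / c ≤ Real.log n)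
    (hC0 : 0 < C) (hC : 432 * C ≤ n) :
    432 * C * ((n : ℝ) + 4) ^ 6 * Real.exp (-c * Real.log n ^ 2) ≤ 1 := by
  have hn4 : (4 : ℝ) ≤ n := by exact_mod_cast hn
  have hn0 : (0 : ℝ) < n := by linarith
  have hl0 : 0 < Real.log n := lt_of_lt_of_le (by positivity) hl
  have h1 : 13 * Real.log n ≤ c * Real.log n ^ 2 := by
    rw [div_le_iff₀ hc] at hl
    nlinarith
  have h2 : ((n : ℝ) + 4) ^ 6 ≤ (n : ℝ) ^ 12 := by
    have h3 : (n : ℝ) + 4 ≤ (n : ℝ) ^ 2 := by nlinarith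
    calc ((n : ℝ) + 4) ^ 6 ≤ ((n : ℝ) ^ 2) ^ 6 := by gcongr
      _ = (n : ℝ) ^ 12 := by ring
  have h3 : Real.exp (-c * Real.log n ^ 2) ≤ Real.exp (-(13 * Real.log n)) :=
    Real.exp_le_exp.2 (by linarith)
  have h4 : Real.exp (-(13 * Real.log n)) = ((n : ℝ) ^ 13)⁻¹ := by
    rw [Real.exp_neg, show (13 : ℝ) * Real.log n = ((13 : ℕ) : ℝ) * Real.log n by norm_num,
      Real.exp_nat_mul, Real.exp_log hn0]
  rw [h4] at h3
  calc 432 * C * ((n : ℝ) + 4) ^ 6 * Real.exp (-c * Real.log n ^ 2)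
      ≤ n * (n : ℝ) ^ 12 * ((n : ℝ) ^ 13)⁻¹ := by gcongr
    _ = 1 := by
      field_simp

private theorem b3_one {c C : ℝ} {n M i u w r p : ℕ} (hn : 1 ≤ n) (hC : 0 < C) (hc : 0 < c)
    (hbc : 0 < bc n w) (hM : Real.log n ^ 2 ≤ M + 1) (hi1 : M + 1 ≤ i) (hin : i ≤ n) (hr : r ≤ n)
    {f : Perm (Fin (6 * n))} (hf : TF f)
    (hpc : bc i u * bc (n + 1 - i) (w + 3 - u) ≤
      C * Real.exp (-c * ((M + 1 : ℕ) : ℝ)) * (C / (n : ℝ) ^ 2) ^ 0 * bc n w) :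
    ((Bg f w r p i u).ncard : ℝ) ≤
      432 * C * ((n : ℝ) + 4) ^ 4 * Real.exp (-c * Real.log n ^ 2) * (TS f w).ncard := by
  have h1 := cnt4 hf hn (by rw [Fintype.card_fin]) w r p i u (by omega) hin
  rw [pow_zero, mul_one] at hpc
  have hn0 : (0 : ℝ) < n := by exact_mod_cast hn
  have h2 : (i : ℝ) ≤ n := by exact_mod_cast hin
  have h3 : ((n + 1 - i : ℕ) : ℝ) ≤ n := by
    have : n + 1 - i ≤ n := by omega
    exact_mod_cast this
  have h4 : (r : ℝ) + 1 ≤ n + 1 := by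
    have : (r : ℝ) ≤ n := by exact_mod_cast hr
    linarith
  have h5 : Real.exp (-c * ((M + 1 : ℕ) : ℝ)) ≤ Real.exp (-c * Real.log n ^ 2) := by
    refine Real.exp_le_exp.2 ?_
    push_cast
    nlinarith
  have h6 : ((Bg f w r p i u).ncard : ℝ) * bc n w ≤
      (432 * C * ((n : ℝ) + 4) ^ 4 * Real.exp (-c * Real.log n ^ 2) * (TS f w).ncard) * bc n w := by
    calc ((Bg f w r p i u).ncard : ℝ) * bc n w
        ≤ 432 * n * i * ((n + 1 - i : ℕ) : ℝ) * (r + 1) * ((TS f w).ncard : ℝ) *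
          (bc i u * bc (n + 1 - i) (w + 3 - u)) := h1
      _ ≤ 432 * n * n * n * (n + 1) * ((TS f w).ncard : ℝ) *
          (C * Real.exp (-c * Real.log n ^ 2) * bc n w) := by
          have h7 : bc i u * bc (n + 1 - i) (w + 3 - u) ≤
              C * Real.exp (-c * Real.log n ^ 2) * bc n w := by
            refine hpc.trans ?_
            gcongr
          have h8 : 0 ≤ bc i u * bc (n + 1 - i) (w + 3 - u) :=
            mul_nonneg (bc_nonneg _ _) (bc_nonneg _ _)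
          gcongr
      _ = (432 * C * ((n : ℝ) * n * n * (n + 1)) * Real.exp (-c * Real.log n ^ 2) *
          (TS f w).ncard) * bc n w := by ring
      _ ≤ (432 * C * ((n : ℝ) + 4) ^ 4 * Real.exp (-c * Real.log n ^ 2) * (TS f w).ncard) *
          bc n w := by
          have h9 : (n : ℝ) * n * n * (n + 1) ≤ ((n : ℝ) + 4) ^ 4 := by
            calc (n : ℝ) * n * n * (n + 1) ≤ ((n : ℝ) + 4) * ((n : ℝ) + 4) * ((n : ℝ) + 4) *
                ((n : ℝ) + 4) := by gcongr <;> linarith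
              _ = ((n : ℝ) + 4) ^ 4 := by ring
          gcongr
  exact le_of_mul_le_mul_right h6 hbc

theorem b3 {h : ℝ} (h0 : 0 < h) (h1 : h < 1 / 4) {v : ℕ → ℕ}
    (hv : Tendsto (fun n => (v n : ℝ) / n) atTop (𝓝 (6 * UN39.dl h)))
    (hp : ∀ᶠ n in atTop, v n % 2 = n % 2) :
    ∃ n0 : ℕ, ∀ n, n0 ≤ n → ∀ f : Perm (Fin (6 * n)), TF f → ∀ r p : ℕ, r ≤ n →
      ∑ i ∈ Finset.Icc (⌊Real.log n ^ 2⌋₊ + 1) (n - ⌊Real.log n ^ 2⌋₊),
        ∑ u ∈ Finset.range (v n + 4), ((Bg f (v n) r p i u).ncard : ℝ) ≤ (TS f (v n)).ncard := by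
  obtain ⟨hw0, hw1⟩ := dl_range h0 h1
  set ω : ℝ := 6 * dl h with hω
  obtain ⟨N0, hN0⟩ := bc_posS h0 h1 hv hp
  obtain ⟨c, C, N1, hc, hC, hpc⟩ := UI39.pieceM (ω1 := ω / 2) (ω2 := (1 + ω) / 2) (by linarith)
    (by linarith) 1
  obtain ⟨n0, hn0⟩ := eventually_atTop.1 ((b34_rng hw0 hw1 hv).and (hp.and ((b34_log (13 / c)).and
    ((eventually_ge_atTop N0).and ((eventually_ge_atTop N1).and ((eventually_ge_atTop 4).and
      (tendsto_natCast_atTop_atTop.eventually_ge_atTop (432 * C))))))))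
  refine ⟨n0, fun n hn f hf r p hr => ?_⟩
  obtain ⟨⟨a1, a2⟩, a3, a4, a5, a6, a7, a8⟩ := hn0 n hn
  have hnr : (0 : ℝ) < n := by exact_mod_cast (by omega : 0 < n)
  set M : ℕ := ⌊Real.log n ^ 2⌋₊ with hM
  have hM1 : Real.log n ^ 2 ≤ M + 1 := (Nat.lt_floor_add_one _).le
  have hTS : (0 : ℝ) ≤ (TS f (v n)).ncard := Nat.cast_nonneg _
  have hvn : v n ≤ n := by
    have : (v n : ℝ) ≤ n := by nlinarith
    exact_mod_cast this
  have hone : ∀ i ∈ Finset.Icc (M + 1) (n - M), ∀ u ∈ Finset.range (v n + 4),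
      ((Bg f (v n) r p i u).ncard : ℝ) ≤
        432 * C * ((n : ℝ) + 4) ^ 4 * Real.exp (-c * Real.log n ^ 2) * (TS f (v n)).ncard := by
    intro i hi u hu
    rw [Finset.mem_Icc] at hi
    rw [Finset.mem_range] at hu
    exact b3_one (by omega) hC hc (hN0 n a5) hM1 hi.1 (by omega) hr hf
      (hpc n (v n) i (n + 1 - i) u (v n + 3 - u) 0 1 (M + 1) a6 a1 a2 a3 le_rfl (by omega) (by omega)
        hi.1 (by omega))
  calc ∑ i ∈ Finset.Icc (M + 1) (n - M), ∑ u ∈ Finset.range (v n + 4),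
        ((Bg f (v n) r p i u).ncard : ℝ)
      ≤ ∑ i ∈ Finset.Icc (M + 1) (n - M), ∑ u ∈ Finset.range (v n + 4),
        (432 * C * ((n : ℝ) + 4) ^ 4 * Real.exp (-c * Real.log n ^ 2) * (TS f (v n)).ncard) :=
        Finset.sum_le_sum fun i hi => Finset.sum_le_sum fun u hu => hone i hi u hu
    _ = ((Finset.Icc (M + 1) (n - M)).card : ℝ) * (((v n + 4 : ℕ) : ℝ) *
        (432 * C * ((n : ℝ) + 4) ^ 4 * Real.exp (-c * Real.log n ^ 2) * (TS f (v n)).ncard)) := by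
        rw [Finset.sum_const, Finset.sum_const, Finset.card_range, nsmul_eq_mul, nsmul_eq_mul]
    _ ≤ ((n : ℝ) + 4) * (((n : ℝ) + 4) *
        (432 * C * ((n : ℝ) + 4) ^ 4 * Real.exp (-c * Real.log n ^ 2) * (TS f (v n)).ncard)) := by
        have e1 : ((Finset.Icc (M + 1) (n - M)).card : ℝ) ≤ (n : ℝ) + 4 := by
          rw [Nat.card_Icc]
          have : n - M + 1 - (M + 1) ≤ n + 4 := by omega
          exact_mod_cast this
        have e2 : ((v n + 4 : ℕ) : ℝ) ≤ (n : ℝ) + 4 := by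
          have : v n + 4 ≤ n + 4 := by omega
          exact_mod_cast this
        gcongr
    _ = (432 * C * ((n : ℝ) + 4) ^ 6 * Real.exp (-c * Real.log n ^ 2)) * (TS f (v n)).ncard := by
        ring
    _ ≤ 1 * (TS f (v n)).ncard := by
        have e3 := b34_exp hc a7 a4 hC a8
        gcongr
    _ = (TS f (v n)).ncard := one_mul _

private theorem b4_one {θ C : ℝ} {n M i u w r p : ℕ} (hn : 1 ≤ n) (hC : 0 < C) (hθ0 : 0 < θ)
    (hθ1 : θ < 1) (hbc : 0 < bc n w) (hi1 : 1 ≤ i) (hiM : i ≤ M) (hMn : M ≤ n) (hMw : M ≤ w)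
    (hCM : C * ((M : ℝ) + 1) ^ 2 ≤ (n : ℝ) ^ 2) (hu : u ≠ i + 2)
    {f : Perm (Fin (6 * n))} (hf : TF f)
    (hpc : ∀ g : ℕ, 2 * g ≤ i + 2 → bc i (i + 2 - 2 * g) * bc (n + 1 - i) (w + 1 - i + 2 * g + 2 * 0) ≤
      C * θ ^ i * (C * ((i : ℝ) + 1) ^ 2 / (n : ℝ) ^ 2) ^ g * (C / (n : ℝ) ^ 2) ^ 0 * bc n w) :
    ((Bg f w r p i u).ncard : ℝ) ≤ if u < i + 3 then
      432 * C ^ 2 * M * ((M : ℝ) + 1) ^ 2 * (r + 1) * (TS f w).ncard else 0 := by
  have h1 := cnt4 hf hn (by rw [Fintype.card_fin]) w r p i u hi1 (by omega)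
  have hn0 : (0 : ℝ) < n := by exact_mod_cast hn
  by_cases hz : bc i u = 0
  · rw [hz, zero_mul, mul_zero] at h1
    have h2 : ((Bg f w r p i u).ncard : ℝ) ≤ 0 := by
      by_contra hcon
      push Not at hcon
      have := mul_pos hcon hbc
      linarith
    refine h2.trans ?_
    split_ifs
    · positivity
    · exact le_rfl
  obtain ⟨s1, s2, s3⟩ := bc_supp hz
  obtain ⟨g, hg1, hg2, hg3⟩ : ∃ g, u = i + 2 - 2 * g ∧ 2 * g ≤ i + 1 ∧ 1 ≤ g :=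
    ⟨(i + 2 - u) / 2, by omega, by omega, by omega⟩
  rw [if_pos (by omega)]
  have h2 := hpc g (by omega)
  rw [pow_zero, mul_one, mul_zero, add_zero, ← hg1,
    show w + 1 - i + 2 * g = w + 3 - u by omega] at h2
  have hiMr : (i : ℝ) ≤ M := by exact_mod_cast hiM
  have h3 : C * ((i : ℝ) + 1) ^ 2 / (n : ℝ) ^ 2 ≤ C * ((M : ℝ) + 1) ^ 2 / (n : ℝ) ^ 2 := by gcongr
  have h4 : C * ((M : ℝ) + 1) ^ 2 / (n : ℝ) ^ 2 ≤ 1 := by
    rw [div_le_one (by positivity)]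
    exact hCM
  have h5 : (C * ((i : ℝ) + 1) ^ 2 / (n : ℝ) ^ 2) ^ g ≤ C * ((M : ℝ) + 1) ^ 2 / (n : ℝ) ^ 2 := by
    calc (C * ((i : ℝ) + 1) ^ 2 / (n : ℝ) ^ 2) ^ g
        ≤ (C * ((i : ℝ) + 1) ^ 2 / (n : ℝ) ^ 2) ^ 1 :=
          pow_le_pow_of_le_one (by positivity) (h3.trans h4) hg3
      _ ≤ C * ((M : ℝ) + 1) ^ 2 / (n : ℝ) ^ 2 := by rw [pow_one]; exact h3
  have h6 : θ ^ i ≤ 1 := pow_le_one₀ hθ0.le hθ1.le
  have h7 : bc i u * bc (n + 1 - i) (w + 3 - u) ≤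
      C * 1 * (C * ((M : ℝ) + 1) ^ 2 / (n : ℝ) ^ 2) * bc n w := by
    refine h2.trans ?_
    gcongr
  have h8 : 0 ≤ bc i u * bc (n + 1 - i) (w + 3 - u) := mul_nonneg (bc_nonneg _ _) (bc_nonneg _ _)
  have h9 : ((n + 1 - i : ℕ) : ℝ) ≤ n := by
    have : n + 1 - i ≤ n := by omega
    exact_mod_cast this
  have h10 : ((Bg f w r p i u).ncard : ℝ) * bc n w ≤
      (432 * C ^ 2 * M * ((M : ℝ) + 1) ^ 2 * (r + 1) * (TS f w).ncard) * bc n w := by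
    calc ((Bg f w r p i u).ncard : ℝ) * bc n w
        ≤ 432 * n * i * ((n + 1 - i : ℕ) : ℝ) * (r + 1) * ((TS f w).ncard : ℝ) *
          (bc i u * bc (n + 1 - i) (w + 3 - u)) := h1
      _ ≤ 432 * n * M * n * (r + 1) * ((TS f w).ncard : ℝ) *
          (C * 1 * (C * ((M : ℝ) + 1) ^ 2 / (n : ℝ) ^ 2) * bc n w) := by gcongr
      _ = (432 * C ^ 2 * M * ((M : ℝ) + 1) ^ 2 * (r + 1) * (TS f w).ncard) * bc n w := by
          field_simp
  exact le_of_mul_le_mul_right h10 hbc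

theorem b4 {h : ℝ} (h0 : 0 < h) (h1 : h < 1 / 4) {v : ℕ → ℕ}
    (hv : Tendsto (fun n => (v n : ℝ) / n) atTop (𝓝 (6 * UN39.dl h)))
    (hp : ∀ᶠ n in atTop, v n % 2 = n % 2) :
    ∃ n0 : ℕ, ∀ n, n0 ≤ n → ∀ f : Perm (Fin (6 * n)), TF f → ∀ r p : ℕ,
      ∑ i ∈ Finset.Icc 1 ⌊Real.log n ^ 2⌋₊,
        ∑ u ∈ (Finset.range (v n + 4)).filter (fun u => u ≠ i + 2),
          ((Bg f (v n) r p i u).ncard : ℝ) ≤ (r + 1) * Real.log n ^ 11 * (TS f (v n)).ncard := by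
  obtain ⟨hw0, hw1⟩ := dl_range h0 h1
  set ω : ℝ := 6 * dl h with hω
  obtain ⟨N0, hN0⟩ := bc_posS h0 h1 hv hp
  obtain ⟨θ, C, δ, N1, hθ0, hθ1, hC, hδ, hpc⟩ := UI39.piece (ω1 := ω / 2) (ω2 := (1 + ω) / 2)
    (by linarith) (by linarith) 1
  have hη : 0 < min δ (min (ω / 2) (1 / (2 * √C + 1))) := by
    have : 0 ≤ √C := Real.sqrt_nonneg C
    positivity
  obtain ⟨n0, hn0⟩ := eventually_atTop.1 ((b34_rng hw0 hw1 hv).and (hp.and
    ((b34_log (6912 * C ^ 2 + 1)).and ((eventually_ge_atTop N0).and ((eventually_ge_atTop N1).and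
      ((eventually_ge_atTop 4).and (b34_sq hη)))))))
  refine ⟨n0, fun n hn f hf r p => ?_⟩
  obtain ⟨⟨a1, a2⟩, a3, a4, a5, a6, a7, a8⟩ := hn0 n hn
  have hnr : (4 : ℝ) ≤ n := by exact_mod_cast a7
  set M : ℕ := ⌊Real.log n ^ 2⌋₊ with hM
  have hM1 : (M : ℝ) ≤ Real.log n ^ 2 := Nat.floor_le (by positivity)
  have hl1 : 1 ≤ Real.log n := by nlinarith [sq_nonneg C]
  have hM2 : 1 ≤ M := by
    rw [hM, Nat.one_le_floor_iff]
    nlinarith
  have hM2r : (1 : ℝ) ≤ M := by exact_mod_cast hM2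
  have hTS : (0 : ℝ) ≤ (TS f (v n)).ncard := Nat.cast_nonneg _
  have b1 : (M : ℝ) ≤ δ * n := by
    refine hM1.trans (a8.trans ?_)
    have := min_le_left δ (min (ω / 2) (1 / (2 * √C + 1)))
    gcongr
  have b2 : (M : ℝ) ≤ ω / 2 * n := by
    refine hM1.trans (a8.trans ?_)
    have := (min_le_right δ (min (ω / 2) (1 / (2 * √C + 1)))).trans (min_le_left _ _)
    gcongr
  have b3 : (M : ℝ) ≤ 1 / (2 * √C + 1) * n := by
    refine hM1.trans (a8.trans ?_)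
    have := (min_le_right δ (min (ω / 2) (1 / (2 * √C + 1)))).trans (min_le_right _ _)
    gcongr
  have b4 : M ≤ v n := by exact_mod_cast b2.trans a1
  have b5 : M ≤ n := by
    have : (M : ℝ) ≤ n := by nlinarith
    exact_mod_cast this
  have b6 : C * ((M : ℝ) + 1) ^ 2 ≤ (n : ℝ) ^ 2 := by
    have hs : 0 ≤ √C := Real.sqrt_nonneg C
    have e1 : √C * ((M : ℝ) + 1) ≤ n := by
      rw [div_mul_eq_mul_div, one_mul, le_div_iff₀ (by positivity)] at b3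
      nlinarith
    calc C * ((M : ℝ) + 1) ^ 2 = (√C * ((M : ℝ) + 1)) ^ 2 := by
          rw [mul_pow, Real.sq_sqrt hC.le]
      _ ≤ (n : ℝ) ^ 2 := by gcongr
  set B : ℝ := 432 * C ^ 2 * M * ((M : ℝ) + 1) ^ 2 * (r + 1) * (TS f (v n)).ncard with hB
  have hB0 : 0 ≤ B := by positivity
  have hone : ∀ i ∈ Finset.Icc 1 M, ∑ u ∈ (Finset.range (v n + 4)).filter (fun u => u ≠ i + 2),
      ((Bg f (v n) r p i u).ncard : ℝ) ≤ 4 * M * B := by
    intro i hi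
    rw [Finset.mem_Icc] at hi
    calc ∑ u ∈ (Finset.range (v n + 4)).filter (fun u => u ≠ i + 2),
          ((Bg f (v n) r p i u).ncard : ℝ)
        ≤ ∑ u ∈ (Finset.range (v n + 4)).filter (fun u => u ≠ i + 2),
          (if u < i + 3 then B else 0) := by
          refine Finset.sum_le_sum fun u hu => ?_
          rw [Finset.mem_filter] at hu
          refine b4_one (by omega) hC hθ0 hθ1 (hN0 n a5) hi.1 hi.2 b5 b4 b6 hu.2 hf ?_
          intro g hg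
          refine hpc n (v n) i g 0 1 a6 a1 a2 a3 le_rfl ?_ hg
          have : (i : ℝ) ≤ M := by exact_mod_cast hi.2
          linarith
      _ = ∑ u ∈ ((Finset.range (v n + 4)).filter (fun u => u ≠ i + 2)).filter (fun u => u < i + 3),
          B := by rw [Finset.sum_filter (fun u => u < i + 3)]
      _ ≤ ∑ u ∈ Finset.range (i + 3), B := by
          refine Finset.sum_le_sum_of_subset_of_nonneg ?_ fun _ _ _ => hB0
          intro u hu
          rw [Finset.mem_filter] at hu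
          exact Finset.mem_range.2 hu.2
      _ = ((i + 3 : ℕ) : ℝ) * B := by
          rw [Finset.sum_const, Finset.card_range, nsmul_eq_mul]
      _ ≤ 4 * M * B := by
          have : ((i + 3 : ℕ) : ℝ) ≤ 4 * M := by
            have h9 : i + 3 ≤ 4 * M := by omega
            exact_mod_cast h9
          gcongr
  calc ∑ i ∈ Finset.Icc 1 M, ∑ u ∈ (Finset.range (v n + 4)).filter (fun u => u ≠ i + 2),
        ((Bg f (v n) r p i u).ncard : ℝ)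
      ≤ ∑ i ∈ Finset.Icc 1 M, 4 * M * B := Finset.sum_le_sum hone
    _ = (M : ℝ) * (4 * M * B) := by
        rw [Finset.sum_const, Nat.card_Icc, nsmul_eq_mul]
        simp
    _ = 1728 * C ^ 2 * (M : ℝ) ^ 3 * ((M : ℝ) + 1) ^ 2 * ((r + 1) * (TS f (v n)).ncard) := by
        rw [hB]
        ring
    _ ≤ 1728 * C ^ 2 * (M : ℝ) ^ 3 * (2 * (M : ℝ)) ^ 2 * ((r + 1) * (TS f (v n)).ncard) := by
        gcongr
        linarith
    _ = 6912 * C ^ 2 * (M : ℝ) ^ 5 * ((r + 1) * (TS f (v n)).ncard) := by ring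
    _ ≤ Real.log n * (Real.log n ^ 2) ^ 5 * ((r + 1) * (TS f (v n)).ncard) := by
        have e1 : 6912 * C ^ 2 ≤ Real.log n := by linarith
        gcongr
    _ = (r + 1) * Real.log n ^ 11 * (TS f (v n)).ncard := by ring

end QG1
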