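import Pool.Agent.H1.QG.Cnt
import Pool.Agent.H1.QG.RatS
import Pool.Agent.H39.UA.Hgt
import Pool.Agent.H39.UA.Tnum

/-!
[H1 QG B5]  P186 (MP_bcc40c_pr, Q2, part G)  The main term: small planar parts.  REAL ANALYSIS.

PROOF.  `l1 = lam h'`, `lam h < lam h'` (lam_mono of UN/PlGb on `[0, 1/4]`; `HG39.lam` and `UN39.lam` are the same by definition).  `M = ⌊(log n)^2⌋₊`.  For `1 ≤ i ≤ M` (large `n`: `i ≤ n/2`, `n ≤ 2 (n + 1 - i)`, `v n + 1 ≤ 2 n`, `0 < bc n (v n)`: bc_posS) cnt5 and rats give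
`#Bg ≤ (2 n/(n+1-i)) #TS #LT (r+1)(p+4)(v n + 1) C l1^i ≤ 8 C n (r+1)(p+4) #TS * #LT r (2i-1) l1^i`.
lt_sum: `Σ_{i ≤ M} #LT r (2i-1) l1^i ≤ C' mh h'^r`: `l1^i = √l1 * √l1^(2i-1)`; `LT r (2i-1)` is finite (contained in `LA (2i-1)`, tnum of UA/Tnum), the sets for different `i` are disjoint (`T.sz = 2i-1`); let `F` be the union of the Finsets; `Σ_{T ∈ F} √l1^(T.sz) ≤ C mh h'^r` by hgt (UA/Hgt).
-/

set_option autoImplicit false

namespace QG1

open Equiv HG39 QD39 QL40 Filter Topology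

private theorem b5_fin_le (k : ℕ) : {T : Tr | T.ok ∧ T.sz ≤ k}.Finite := by
  induction k with
  | zero =>
    apply Set.Finite.subset (Set.toFinite {Tr.u, Tr.d})
    rintro T ⟨h1, h2⟩
    cases T with
    | u => simp
    | d => simp
    | nd a b =>
      simp only [Tr.sz] at h2
      omega
  | succ k ih =>
    apply Set.Finite.subset ((Set.toFinite {Tr.u, Tr.d}).union (Set.Finite.image2 Tr.nd ih ih))
    rintro T ⟨h1, h2⟩
    cases T with
    | u => left; simp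
    | d => left; simp
    | nd a b =>
      right
      simp only [Tr.sz] at h2
      exact ⟨a, ⟨h1.1, by omega⟩, b, ⟨h1.2.1, by omega⟩, rfl⟩

private theorem b5_fin (r : ℤ) (k : ℕ) : (UA39.LT r k).Finite :=
  (b5_fin_le k).subset fun _ h => ⟨h.1, h.2.2.2.le⟩

theorem lt_sum {h : ℝ} (h0 : 0 < h) (h1 : h < 1 / 4) : ∃ C : ℝ, 0 < C ∧ ∀ r M : ℕ,
    ∑ i ∈ Finset.Icc 1 M, ((UA39.LT r (2 * i - 1)).ncard : ℝ) * HG39.lam h ^ i ≤
      C * mh h ^ r := by
  classical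
  obtain ⟨C, hC, H⟩ := UA39.hgt h0 h1
  have hl := HG39.lam_pos h h0
  have hg : 0 < Real.sqrt (HG39.lam h) := Real.sqrt_pos.mpr hl
  obtain ⟨g, hgd⟩ : ∃ g, g = Real.sqrt (HG39.lam h) := ⟨_, rfl⟩
  rw [← hgd] at hg
  have hg2 : g ^ 2 = HG39.lam h := by
    rw [hgd]
    exact Real.sq_sqrt hl.le
  refine ⟨g * C, by positivity, ?_⟩
  intro r M
  have h2 := H r ((Finset.Icc 1 M).biUnion fun i => (b5_fin r (2 * i - 1)).toFinset) (by
    intro T hT
    rw [Finset.mem_biUnion] at hT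
    obtain ⟨i, _, hi⟩ := hT
    rw [Set.Finite.mem_toFinset] at hi
    exact ⟨hi.1, hi.2.1, hi.2.2.1⟩)
  rw [← hgd, Finset.sum_biUnion] at h2
  · have h3 : ∀ i ∈ Finset.Icc 1 M, ((UA39.LT r (2 * i - 1)).ncard : ℝ) * HG39.lam h ^ i =
        g * ∑ T ∈ (b5_fin r (2 * i - 1)).toFinset, g ^ T.sz := by
      intro i hi
      rw [Finset.mem_Icc] at hi
      have h4 : ∑ T ∈ (b5_fin r (2 * i - 1)).toFinset, g ^ T.sz =
          ((UA39.LT r (2 * i - 1)).ncard : ℝ) * g ^ (2 * i - 1) := by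
        rw [Set.ncard_eq_toFinset_card _ (b5_fin r (2 * i - 1)), ← nsmul_eq_mul,
          ← Finset.sum_const]
        refine Finset.sum_congr rfl fun T hT => ?_
        rw [Set.Finite.mem_toFinset] at hT
        rw [hT.2.2.2]
      rw [h4, ← hg2, ← pow_mul]
      have h5 : 2 * i = (2 * i - 1) + 1 := by omega
      have h6 : g ^ (2 * i) = g ^ (2 * i - 1) * g := by
        rw [← pow_succ, ← h5]
      rw [h6]
      ring
    rw [Finset.sum_congr rfl h3, ← Finset.mul_sum, mul_assoc]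
    exact mul_le_mul_of_nonneg_left h2 hg.le
  · intro i hi j hj hij
    rw [Function.onFun, Finset.disjoint_left]
    intro T hT hT'
    rw [Set.Finite.mem_toFinset] at hT hT'
    have e1 := hT.2.2.2
    have e2 := hT'.2.2.2
    rw [Finset.mem_coe, Finset.mem_Icc] at hi hj
    omega

theorem b5 {h h' : ℝ} (h0 : 0 < h) (hh : h < h') (h1 : h' < 1 / 4) {v : ℕ → ℕ}
    (hv : Tendsto (fun n => (v n : ℝ) / n) atTop (𝓝 (6 * UN39.dl h)))
    (hp : ∀ᶠ n in atTop, v n % 2 = n % 2) :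
    ∃ C : ℝ, 0 < C ∧ ∃ n0 : ℕ, ∀ n, n0 ≤ n → ∀ f : Perm (Fin (6 * n)), TF f → ∀ r p : ℕ,
      ∑ i ∈ Finset.Icc 1 ⌊Real.log n ^ 2⌋₊, ((Bg f (v n) r p i (i + 2)).ncard : ℝ) ≤
        C * (r + 1) * (p + 4) * n * mh h' ^ r * (TS f (v n)).ncard := by
  have h2 : h < 1 / 4 := hh.trans h1
  have h0' : 0 < h' := h0.trans hh
  have hlam : UN39.lam h < UN39.lam h' := UN39.lam_mono ⟨h0.le, h2.le⟩ ⟨h0'.le, h1.le⟩ hh
  obtain ⟨C1, hC1, n1, HR⟩ := rats h0 h2 hv hp hlam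
  obtain ⟨n2, HP⟩ := bc_posS h0 h2 hv hp
  obtain ⟨C2, hC2, HL⟩ := lt_sum h0' h1
  obtain ⟨hd0, hd1⟩ := UN39.dl_range h0 h2
  have hvu : ∀ᶠ n in atTop, (v n : ℝ) / n < 1 := hv.eventually (gt_mem_nhds hd1)
  have hlog : ∀ᶠ n : ℕ in atTop, Real.log n ^ 2 ≤ 1 / 2 * (n : ℝ) := by
    have h3 := (Real.isLittleO_pow_log_id_atTop (n := 2)).bound (show (0 : ℝ) < 1 / 2 by norm_num)
    have h4 := (tendsto_natCast_atTop_atTop (R := ℝ)).eventually h3
    filter_upwards [h4] with n hn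
    simp only [id, Real.norm_eq_abs, Nat.abs_cast] at hn
    exact (le_abs_self _).trans hn
  obtain ⟨n3, HV⟩ := eventually_atTop.1 (hvu.and hlog)
  refine ⟨8 * C1 * C2, by positivity, max (max n1 n2) (max n3 1), ?_⟩
  intro n hn f hf r p
  have hn1 : n1 ≤ n := by omega
  have hn2 : n2 ≤ n := by omega
  have hn3 : n3 ≤ n := by omega
  have hn4 : 1 ≤ n := by omega
  have hnR : (0 : ℝ) < n := by exact_mod_cast hn4
  have hn1R : (1 : ℝ) ≤ n := by exact_mod_cast hn4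
  obtain ⟨hv1, hlg⟩ := HV n hn3
  have hv2 : (v n : ℝ) ≤ n := by
    rw [div_lt_one hnR] at hv1
    exact hv1.le
  have hbc := HP n hn2
  obtain ⟨T, hT⟩ : ∃ T : ℝ, T = ((TS f (v n)).ncard : ℝ) := ⟨_, rfl⟩
  have hT0 : 0 ≤ T := by
    rw [hT]
    exact Nat.cast_nonneg _
  have hone : ∀ i ∈ Finset.Icc 1 ⌊Real.log n ^ 2⌋₊, ((Bg f (v n) r p i (i + 2)).ncard : ℝ) ≤
      8 * C1 * n * T * (r + 1) * (p + 4) *
        (((UA39.LT r (2 * i - 1)).ncard : ℝ) * HG39.lam h' ^ i) := by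
    intro i hi
    rw [Finset.mem_Icc] at hi
    have hi1 : (i : ℝ) ≤ Real.log n ^ 2 := by
      have h3 : (i : ℝ) ≤ (⌊Real.log n ^ 2⌋₊ : ℝ) := by exact_mod_cast hi.2
      exact h3.trans (Nat.floor_le (by positivity))
    have hi2 : (i : ℝ) ≤ 1 / 2 * n := hi1.trans hlg
    have hi3 : i ≤ n := by
      have h3 : (i : ℝ) ≤ n := by linarith
      exact_mod_cast h3
    have h3 := cnt5 hf hn4 (Fintype.card_fin _) (v n) r p i hi.1 hi3
    have h4 := HR n hn1 i hi1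
    rw [← hT] at h3
    have h5 : ((n + 1 - i : ℕ) : ℝ) = n + 1 - i := by
      rw [Nat.cast_sub (by omega)]
      push_cast
      ring
    rw [h5] at h3
    obtain ⟨L, hL⟩ : ∃ L : ℝ, L = ((UA39.LT r (2 * i - 1)).ncard : ℝ) := ⟨_, rfl⟩
    have hL0 : 0 ≤ L := by
      rw [hL]
      exact Nat.cast_nonneg _
    rw [← hL] at h3 ⊢
    obtain ⟨B, hB⟩ : ∃ B : ℝ, B = ((Bg f (v n) r p i (i + 2)).ncard : ℝ) := ⟨_, rfl⟩
    have hB0 : 0 ≤ B := by
      rw [hB]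
      exact Nat.cast_nonneg _
    rw [← hB] at h3 ⊢
    have hlr : HG39.lam h' ^ i = UN39.lam h' ^ i := rfl
    have hl0 : 0 ≤ UN39.lam h' ^ i := by
      rw [← hlr]
      exact pow_nonneg (HG39.lam_pos h' h0').le _
    rw [hlr]
    have h6 : 0 ≤ 2 * n * T * L * (r + 1) * (p + 4) * (v n + 1 : ℝ) := by positivity
    have h7 := h3.trans (mul_le_mul_of_nonneg_left h4 h6)
    have h8 : B * UN39.bc n (v n) * (1 / 2 * n) ≤ B * UN39.bc n (v n) * ((n : ℝ) + 1 - i) := by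
      apply mul_le_mul_of_nonneg_left _ (by positivity)
      linarith
    have h9 : 2 * n * T * L * (r + 1) * (p + 4) * (v n + 1 : ℝ) *
        (C1 * UN39.lam h' ^ i * UN39.bc n (v n)) ≤
        2 * n * T * L * (r + 1) * (p + 4) * (2 * n : ℝ) *
        (C1 * UN39.lam h' ^ i * UN39.bc n (v n)) := by
      apply mul_le_mul_of_nonneg_right _ (by positivity)
      apply mul_le_mul_of_nonneg_left _ (by positivity)
      linarith
    have h10 : (UN39.bc n (v n) * (1 / 2 * n)) * B ≤ (UN39.bc n (v n) * (1 / 2 * n)) *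
        (8 * C1 * n * T * (r + 1) * (p + 4) * (L * UN39.lam h' ^ i)) := by
      calc (UN39.bc n (v n) * (1 / 2 * n)) * B = B * UN39.bc n (v n) * (1 / 2 * n) := by ring
        _ ≤ _ := (h8.trans h7).trans h9
        _ = _ := by ring
    exact le_of_mul_le_mul_left h10 (by positivity)
  refine (Finset.sum_le_sum hone).trans ?_
  rw [← Finset.mul_sum, ← hT]
  have h3 := mul_le_mul_of_nonneg_left (HL r ⌊Real.log n ^ 2⌋₊)
    (show 0 ≤ 8 * C1 * n * T * (r + 1) * (p + 4) by positivity)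
  refine h3.trans (le_of_eq ?_)
  ring

end QG1
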