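import Pool.Agent.H1.QG.Defs
import Pool.Agent.H39.QF.BallS
import Pool.Agent.H40.QL.Cnt1
import Pool.Agent.H40.QL.Rtio

/-!
[H1 QG BB]  P186 (MP_bcc40c_pr, Q2, part G)  Level edges with a connected cut map are rare; the ball is small.

PROOF.  b1: every dart `d` of the ball has one of `d, f d, f (f d)` at distance `< r`: `#ball ≤ 3 #{d | dst x d ≤ r}`.  So if `3 n ≤ #ball` then `n ≤ #{d | dst x d ≤ r}`, and `n^(1/2-ε/2) ≤ n`: the set is contained in the set of ballS (QF39) for `R = r`.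
b2: let `S = ⌊n^(1/2-ε/2)⌋₊`.  The set is contained in the union of the set of ballS for `R = r + 1` and of `Bad1 f (v n) r S` (QL/Defs): if `#{d | dst x d ≤ r + 1} < n^(1/2-ε/2)` then it is `≤ S`; `dlab f α x d ≤ r + 1` iff `dst ≤ r + 1`; `sy` is by definition the `sw` of Bad1; Cut.lev.
cnt1 (QL): `#Bad1 * ((6n+6)(6n+3)) ≤ #TS (fp f) (v n + 3) (6n+6)^2 (r+2)(S+6)^2 (r+1)`, rtio (QL; `ω = 6 dl h ∈ (0,1)`: dl_range of UN/RhoA; `D' = Fin (6n) ⊕ Fin 6` has `6 (n+1)` elements; fp_tf): `#TS (fp f) (v n + 3) ≤ C #TS f (v n)`.  `(6n+6)^2 ≤ 2 (6n+6)(6n+3)`.  So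
`#Bad1 ≤ 2 C (r+2)^2 (S+6)^2 #TS ≤ C' (log n)^2 n^(1-ε) #TS` (`r ≤ DD h log n`, `S + 6 ≤ 7 n^(1/2-ε/2)`), `≤ n^(1-ε/2) #TS` for large `n`.  `DD h > 0` (mh_prop).  Take `η = min(η of ballS, ε/2)/2`: `2 n^(1-η') ≤ n^(1-η)`.
-/

set_option autoImplicit false

namespace QG1

open Equiv HG39 QD39 QL40 Filter Topology

private theorem ball_card {D : Type} [Fintype D] [DecidableEq D] (f α : Perm D) (x : D)
    (r : ℕ) : (ball f α x r).card ≤ 3 * (Finset.univ.filter fun d => dst f α x d ≤ r).card := by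
  set A : Finset D := Finset.univ.filter fun d => dst f α x d ≤ r with hA
  have h0 : ball f α x r ⊆ A ∪ (A.image (f⁻¹ : Perm D) ∪ A.image ((f⁻¹ * f⁻¹ : Perm D))) := by
    intro d hd
    unfold ball at hd
    rw [Finset.mem_filter] at hd
    rw [Finset.mem_union, Finset.mem_union, Finset.mem_image, Finset.mem_image]
    rcases hd.2 with h | h | h
    · left
      rw [hA, Finset.mem_filter]
      exact ⟨Finset.mem_univ _, h.le⟩
    · right
      left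
      refine ⟨f d, ?_, by simp⟩
      rw [hA, Finset.mem_filter]
      exact ⟨Finset.mem_univ _, h.le⟩
    · right
      right
      refine ⟨f (f d), ?_, by simp [Equiv.Perm.mul_apply]⟩
      rw [hA, Finset.mem_filter]
      exact ⟨Finset.mem_univ _, h.le⟩
  calc (ball f α x r).card
      ≤ (A ∪ (A.image (f⁻¹ : Perm D) ∪ A.image ((f⁻¹ * f⁻¹ : Perm D)))).card :=
        Finset.card_le_card h0
    _ ≤ A.card + ((A.image (f⁻¹ : Perm D)).card + (A.image ((f⁻¹ * f⁻¹ : Perm D))).card) :=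
        (Finset.card_union_le _ _).trans
          (Nat.add_le_add_left (Finset.card_union_le _ _) _)
    _ ≤ A.card + (A.card + A.card) :=
        Nat.add_le_add_left (Nat.add_le_add Finset.card_image_le Finset.card_image_le) _
    _ = 3 * A.card := by ring

private theorem dd_pos {h : ℝ} (h0 : 0 < h) (h1 : h < 1 / 4) : 0 < DD h := by
  obtain ⟨m0, m1, _⟩ := mh_prop h h0 h1
  unfold DD
  have := Real.log_neg m0 m1
  exact one_div_pos.2 (by linarith)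

theorem b1 {h : ℝ} (h0 : 0 < h) (h1 : h < 1 / 4) {v : ℕ → ℕ}
    (hv : Tendsto (fun n => (v n : ℝ) / n) atTop (𝓝 (6 * UN39.dl h)))
    (hp : ∀ᶠ n in atTop, v n % 2 = n % 2) {ε : ℝ} (hε : 0 < ε) (hε2 : ε < 1 / 2) :
    ∃ η : ℝ, 0 < η ∧ ∃ n0 : ℕ, ∀ n, n0 ≤ n → ∀ f : Perm (Fin (6 * n)), TF f → ∀ r : ℕ,
      (r : ℝ) ≤ (1 / 2 - ε) * DD h * Real.log n →
      (({q : Perm (Fin (6 * n)) × Fin (6 * n) | q.1 ∈ TS f (v n) ∧ rep f q.1 q.2 = q.2 ∧
        3 * n ≤ (ball f q.1 q.2 r).card}.ncard : ℕ) : ℝ) ≤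
        (n : ℝ) ^ (1 - η) * (TS f (v n)).ncard := by
  obtain ⟨η, hη, n0, hn0⟩ := QF39.ballS h0 h1 hv hp hε hε2
  refine ⟨η, hη, n0 + 1, fun n hn f hf r hr => ?_⟩
  refine le_trans ?_ (hn0 n (by omega) f hf r (by linarith))
  have hx : (1 : ℝ) ≤ n := by exact_mod_cast (by omega : 1 ≤ n)
  rw [Nat.cast_le]
  refine Set.ncard_le_ncard ?_ (Set.toFinite _)
  rintro q ⟨q1, q2, q3⟩
  refine ⟨q1, q2, ?_⟩
  have h2 := ball_card f q.1 q.2 r
  have h3 : n ≤ (Finset.univ.filter fun d => dst f q.1 q.2 d ≤ r).card := by omega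
  calc (n : ℝ) ^ (1 / 2 - ε / 2) ≤ (n : ℝ) ^ (1 : ℝ) :=
        Real.rpow_le_rpow_of_exponent_le hx (by linarith)
    _ = n := Real.rpow_one _
    _ ≤ _ := by exact_mod_cast h3

private theorem b2_num {A C ε : ℝ} (hA : 0 ≤ A) (hε : 0 < ε) :
    ∀ᶠ n : ℕ in atTop, 98 * C * (A * Real.log n + 2) ^ 2 ≤ (n : ℝ) ^ (ε / 2) := by
  have h1 : ∀ᶠ x : ℝ in atTop, 98 * C * (A * Real.log x + 2) ^ 2 ≤ x ^ (ε / 2) := by
    have t1 := (isLittleO_log_rpow_atTop (by linarith : 0 < ε / 8)).bound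
      (by norm_num : (0 : ℝ) < 1)
    have t2 : ∀ᶠ x : ℝ in atTop, 98 * |C| * (A + 2) ^ 2 ≤ x ^ (ε / 4) :=
      (tendsto_rpow_atTop (by linarith : 0 < ε / 4)).eventually_ge_atTop _
    filter_upwards [t1, t2, eventually_ge_atTop 1] with x g1 g2 g3
    have hx0 : 0 < x := by linarith
    have hl0 : 0 ≤ Real.log x := Real.log_nonneg g3
    have hp : 1 ≤ x ^ (ε / 8) := Real.one_le_rpow g3 (by linarith)
    rw [one_mul, Real.norm_of_nonneg hl0, Real.norm_of_nonneg (by linarith)] at g1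
    have g4 : A * Real.log x + 2 ≤ (A + 2) * x ^ (ε / 8) := by nlinarith
    have g5 : 0 ≤ A * Real.log x + 2 := by positivity
    have g6 : (A * Real.log x + 2) ^ 2 ≤ (A + 2) ^ 2 * x ^ (ε / 4) := by
      calc (A * Real.log x + 2) ^ 2 ≤ ((A + 2) * x ^ (ε / 8)) ^ 2 := by gcongr
        _ = (A + 2) ^ 2 * (x ^ (ε / 8) * x ^ (ε / 8)) := by ring
        _ = (A + 2) ^ 2 * x ^ (ε / 4) := by
            rw [← Real.rpow_add hx0]
            congr 2
            ring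
    have hq : 0 < x ^ (ε / 4) := Real.rpow_pos_of_pos hx0 _
    calc 98 * C * (A * Real.log x + 2) ^ 2 ≤ 98 * |C| * (A * Real.log x + 2) ^ 2 := by
          have := le_abs_self C
          gcongr
      _ ≤ 98 * |C| * ((A + 2) ^ 2 * x ^ (ε / 4)) := by gcongr
      _ = (98 * |C| * (A + 2) ^ 2) * x ^ (ε / 4) := by ring
      _ ≤ x ^ (ε / 4) * x ^ (ε / 4) := by gcongr
      _ = x ^ (ε / 2) := by
          rw [← Real.rpow_add hx0]
          congr 1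
          ring
  exact tendsto_natCast_atTop_atTop.eventually h1

theorem b2 {h : ℝ} (h0 : 0 < h) (h1 : h < 1 / 4) {v : ℕ → ℕ}
    (hv : Tendsto (fun n => (v n : ℝ) / n) atTop (𝓝 (6 * UN39.dl h)))
    (hp : ∀ᶠ n in atTop, v n % 2 = n % 2) {ε : ℝ} (hε : 0 < ε) (hε2 : ε < 1 / 2) :
    ∃ η : ℝ, 0 < η ∧ ∃ n0 : ℕ, ∀ n, n0 ≤ n → ∀ f : Perm (Fin (6 * n)), TF f → ∀ r : ℕ,
      (r : ℝ) ≤ (1 / 2 - ε) * DD h * Real.log n →
      (({q : Perm (Fin (6 * n)) × Fin (6 * n) | ∃ (y : Fin (6 * n)) (k : ℕ)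
        (a b : ℕ → Fin (6 * n)), Cut f (v n) r q y k a b ∧
          PT (fp f) (sy q.1 y k a b) []}.ncard : ℕ) : ℝ) ≤
        (n : ℝ) ^ (1 - η) * (TS f (v n)).ncard := by
  obtain ⟨η1, hη1, n1, hn1⟩ := QF39.ballS h0 h1 hv hp hε hε2
  obtain ⟨ω0, ω1⟩ := UN39.dl_range h0 h1
  obtain ⟨C, hC, n2, _, hn2⟩ := QL40.rtio ω0 ω1 hv hp
  have hDD := dd_pos h0 h1
  have hA : 0 ≤ (1 / 2 - ε) * DD h := mul_nonneg (by linarith) hDD.le
  obtain ⟨n3, hn3⟩ := eventually_atTop.1 (b2_num (C := C) hA hε)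
  set η : ℝ := min η1 (ε / 2) / 2 with hη
  have hη0 : 0 < η := by
    rw [hη]
    have : 0 < min η1 (ε / 2) := lt_min hη1 (by linarith)
    linarith
  have hηa : 2 * η ≤ η1 := by
    rw [hη]
    have := min_le_left η1 (ε / 2)
    linarith
  have hηb : 2 * η ≤ ε / 2 := by
    rw [hη]
    have := min_le_right η1 (ε / 2)
    linarith
  obtain ⟨n4, hn4⟩ := eventually_atTop.1
    (((tendsto_rpow_atTop hη0).comp tendsto_natCast_atTop_atTop).eventually_ge_atTop (2 : ℝ))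
  refine ⟨η, hη0, n1 + n2 + n3 + n4 + 1, fun n hn f hf r hr => ?_⟩
  have g3 := hn3 n (by omega)
  have g4 : (2 : ℝ) ≤ (n : ℝ) ^ η := hn4 n (by omega)
  have hx : (1 : ℝ) ≤ n := by exact_mod_cast (by omega : 1 ≤ n)
  have hx0 : (0 : ℝ) < n := by linarith
  set S : ℕ := ⌊(n : ℝ) ^ (1 / 2 - ε / 2)⌋₊ with hS
  have hr1 : ((r + 1 : ℕ) : ℝ) ≤ (1 / 2 - ε) * DD h * Real.log n + 2 := by
    push_cast
    linarith
  have k1 := hn1 n (by omega) f hf (r + 1) hr1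
  set T : ℝ := ((TS f (v n)).ncard : ℝ) with hT
  have hT0 : 0 ≤ T := Nat.cast_nonneg _
  have hcardD : Fintype.card (Fin (6 * n) ⊕ Fin 6) = 6 * (n + 1) := by
    rw [Fintype.card_sum, Fintype.card_fin, Fintype.card_fin]
    ring
  have k2 := (hn2 n (by omega) (Fin (6 * n)) (Fin (6 * n) ⊕ Fin 6) (Fintype.card_fin _) hcardD f
    (fp f) hf (fp_tf hf)).2.1
  have k3 := cnt1 hf (v n) r S
  rw [Fintype.card_fin] at k3
  -- the inclusion
  have hsub : {q : Perm (Fin (6 * n)) × Fin (6 * n) | ∃ (y : Fin (6 * n)) (k : ℕ)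
        (a b : ℕ → Fin (6 * n)), Cut f (v n) r q y k a b ∧ PT (fp f) (sy q.1 y k a b) []} ⊆
      {q : Perm (Fin (6 * n)) × Fin (6 * n) | q.1 ∈ TS f (v n) ∧ rep f q.1 q.2 = q.2 ∧
        (n : ℝ) ^ (1 / 2 - ε / 2) ≤
          ((Finset.univ.filter fun d => dst f q.1 q.2 d ≤ r + 1).card : ℝ)} ∪
      Bad1 f (v n) r S := by
    rintro q ⟨y, k, a, b, hcut, hpt⟩
    by_cases hc : (n : ℝ) ^ (1 / 2 - ε / 2) ≤
        ((Finset.univ.filter fun d => dst f q.1 q.2 d ≤ r + 1).card : ℝ)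
    · exact Or.inl ⟨hcut.ts, hcut.rp, hc⟩
    · right
      push Not at hc
      have hfl : (Finset.univ.filter fun d => dst f q.1 q.2 d ≤ r + 1).card ≤ S :=
        Nat.le_floor hc.le
      have hfe : (Finset.univ.filter fun d => dlab f q.1 q.2 d ≤ (r : ℤ) + 1) =
          (Finset.univ.filter fun d => dst f q.1 q.2 d ≤ r + 1) := by
        ext d
        unfold dlab
        rw [Finset.mem_filter, Finset.mem_filter]
        constructor
        · rintro ⟨g, g'⟩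
          exact ⟨g, by exact_mod_cast g'⟩
        · rintro ⟨g, g'⟩
          exact ⟨g, by exact_mod_cast g'⟩
      refine ⟨hcut.ts, hcut.rp, ?_, y, k, a, b, hcut.big, hcut.lev.le, hpt⟩
      rw [hfe]
      exact hfl
  have k4 : ({q : Perm (Fin (6 * n)) × Fin (6 * n) | ∃ (y : Fin (6 * n)) (k : ℕ)
        (a b : ℕ → Fin (6 * n)), Cut f (v n) r q y k a b ∧
          PT (fp f) (sy q.1 y k a b) []}.ncard : ℝ) ≤
      ({q : Perm (Fin (6 * n)) × Fin (6 * n) | q.1 ∈ TS f (v n) ∧ rep f q.1 q.2 = q.2 ∧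
        (n : ℝ) ^ (1 / 2 - ε / 2) ≤
          ((Finset.univ.filter fun d => dst f q.1 q.2 d ≤ r + 1).card : ℝ)}.ncard : ℝ) +
      ((Bad1 f (v n) r S).ncard : ℝ) := by
    have := (Set.ncard_le_ncard hsub (Set.toFinite _)).trans (Set.ncard_union_le _ _)
    exact_mod_cast this
  -- the numbers
  have hSx : (S : ℝ) ≤ (n : ℝ) ^ (1 / 2 - ε / 2) := Nat.floor_le (Real.rpow_nonneg hx0.le _)
  have hpx : 1 ≤ (n : ℝ) ^ (1 / 2 - ε / 2) := Real.one_le_rpow hx (by linarith)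
  have k5 : ((Bad1 f (v n) r S).ncard : ℝ) ≤ (n : ℝ) ^ (1 - ε / 2) * T := by
    have c1 : ((Bad1 f (v n) r S).ncard : ℝ) * ((6 * n + 6) * (6 * n + 3)) ≤
        ((TS (fp f) (v n + 3)).ncard : ℝ) * (6 * n + 6) ^ 2 * (r + 2) * (S + 6) ^ 2 * (r + 1) := by
      exact_mod_cast k3
    have c2 : ((S : ℝ) + 6) ^ 2 ≤ 49 * (n : ℝ) ^ (1 - ε) := by
      calc ((S : ℝ) + 6) ^ 2 ≤ (7 * (n : ℝ) ^ (1 / 2 - ε / 2)) ^ 2 := by
            gcongr
            linarith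
        _ = 49 * ((n : ℝ) ^ (1 / 2 - ε / 2) * (n : ℝ) ^ (1 / 2 - ε / 2)) := by ring
        _ = 49 * (n : ℝ) ^ (1 - ε) := by
            rw [← Real.rpow_add hx0]
            congr 2
            ring
    have hr0 : (0 : ℝ) ≤ r := Nat.cast_nonneg _
    have c3 : ((r : ℝ) + 2) * (r + 1) ≤ ((1 / 2 - ε) * DD h * Real.log n + 2) ^ 2 := by
      calc ((r : ℝ) + 2) * (r + 1) ≤ (r + 2) * (r + 2) := by gcongr; norm_num
        _ = (r + 2) ^ 2 := by ring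
        _ ≤ _ := by gcongr
    have hN0 : (0 : ℝ) < (6 * n + 6) * (6 * n + 3) := by positivity
    have hTf : (0 : ℝ) ≤ ((TS (fp f) (v n + 3)).ncard : ℝ) := Nat.cast_nonneg _
    have hxe : (0 : ℝ) ≤ (n : ℝ) ^ (1 - ε) := Real.rpow_nonneg hx0.le _
    refine le_of_mul_le_mul_right (c1.trans ?_) hN0
    have c4 : (6 * (n : ℝ) + 6) ^ 2 ≤ 2 * ((6 * n + 6) * (6 * n + 3)) := by nlinarith
    calc ((TS (fp f) (v n + 3)).ncard : ℝ) * (6 * n + 6) ^ 2 * (r + 2) * (S + 6) ^ 2 * (r + 1)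
        = ((TS (fp f) (v n + 3)).ncard : ℝ) * (6 * n + 6) ^ 2 * ((r + 2) * (r + 1)) *
            (S + 6) ^ 2 := by ring
      _ ≤ (C * T) * (2 * ((6 * n + 6) * (6 * n + 3))) *
            ((1 / 2 - ε) * DD h * Real.log n + 2) ^ 2 * (49 * (n : ℝ) ^ (1 - ε)) := by
          gcongr
      _ = (98 * C * ((1 / 2 - ε) * DD h * Real.log n + 2) ^ 2) * (n : ℝ) ^ (1 - ε) * T *
            ((6 * n + 6) * (6 * n + 3)) := by ring
      _ ≤ ((n : ℝ) ^ (ε / 2)) * (n : ℝ) ^ (1 - ε) * T * ((6 * n + 6) * (6 * n + 3)) := by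
          gcongr
      _ = (n : ℝ) ^ (1 - ε / 2) * T * ((6 * n + 6) * (6 * n + 3)) := by
          rw [← Real.rpow_add hx0]
          congr 3
          ring
  have e1 : (n : ℝ) ^ (1 - η1) ≤ (n : ℝ) ^ (1 - 2 * η) :=
    Real.rpow_le_rpow_of_exponent_le hx (by linarith)
  have e2 : (n : ℝ) ^ (1 - ε / 2) ≤ (n : ℝ) ^ (1 - 2 * η) :=
    Real.rpow_le_rpow_of_exponent_le hx (by linarith)
  have e3 : 2 * (n : ℝ) ^ (1 - 2 * η) ≤ (n : ℝ) ^ (1 - η) := by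
    have : (n : ℝ) ^ (1 - η) = (n : ℝ) ^ η * (n : ℝ) ^ (1 - 2 * η) := by
      rw [← Real.rpow_add hx0]
      congr 1
      ring
    rw [this]
    exact mul_le_mul_of_nonneg_right g4 (Real.rpow_nonneg hx0.le _)
  calc _ ≤ _ := k4
    _ ≤ (n : ℝ) ^ (1 - η1) * T + (n : ℝ) ^ (1 - ε / 2) * T := add_le_add k1 k5
    _ ≤ (n : ℝ) ^ (1 - 2 * η) * T + (n : ℝ) ^ (1 - 2 * η) * T :=
        add_le_add (mul_le_mul_of_nonneg_right e1 hT0) (mul_le_mul_of_nonneg_right e2 hT0)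
    _ = 2 * (n : ℝ) ^ (1 - 2 * η) * T := by ring
    _ ≤ (n : ℝ) ^ (1 - η) * T := mul_le_mul_of_nonneg_right e3 hT0

end QG1
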