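import Pool.Agent.H1.QG.CutF
import Pool.Agent.H40.QL.Swr

/-!
[H1 QG CUTG]  P186 (MP_bcc40c_pr, Q2, part G)  More facts on the cut map of a level edge (`A = sy q.1 y k a b`, `F = fp f`, labels `L = sl f q y`).

PROOF.
cut_cnt: the darts of label `r` are the `inl d` with `dst x d = r` (`lt` of them) and at most `inr 0, 1, 3, 4` (`inr 2, inr 5` have the label `r + 1`, cut_leaf).
cut_rt: sw_rt with `x0 = inl x`, `hr : Rt F α⁺ L (inl x) (inl x)` (cut_pt0: Lab.zro, Lab.dsc: a dart of label 0 is in the cycle of `inl x`, `L (inl x) = 0`) gives `x1, w1` with `L x1 = 0`, `L w1 = r + 1 - (k + 1)` (`L (inr 5) = r + 1`), `Rt F A L x1 w1`.  The cycle (of `F * A`) of `inl x` has the label 0 (cut_lb, lb_same), so it contains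
no descending dart (`L ≥ 0`): so `inl x` is in the cycle of `x1` or `w1`.  In the first case take `w = w1` (replace `x1` by `inl x` in Rt: SameCycle.trans).  In the second case `L w1 = 0`; take `w = x1`: `Rt F A L (inl x) x1`, and `L x1 = 0 = L w1 = r - k`.
cut_two: sw_two for `α⁺ = ap q.1 y` (cut_pt0, cut_big): `ca a 0 = inr 5`, `cb b 0 = inr 2`, `ca a (i+1) = inl (a i)`, `cb b (i+1) = inl (b i)`, `α⁺ (inl (a i)) = inl (q.1 (a i))` (`a i` is descending, so `≠ y, q.1 y`; ap_val).  `P` is closed under `F`, so `inr 3 ∈ P ↔ inr 5 ∈ P`, `inr 0 ∈ P ↔ inr 2 ∈ P`, and `inr 2 ∈ P ↔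
inr 5 ∉ P` (sw_two, `i = 0`); `inl y = A (inr 0)`, `inl (q.1 y) = A (inr 3)` (cut_val), `P` closed under `A`.
-/

set_option autoImplicit false

namespace QG1

open Equiv HG39 QD39 QL40

variable {D : Type} [Fintype D] [DecidableEq D]

theorem cut_cnt {f : Perm D} (hf : TF f) {v r : ℕ} {q : Perm D × D} {y : D} {k : ℕ} {a b : ℕ → D}
    (h : Cut f v r q y k a b) :
    (Finset.univ.filter fun d => sl f q y d = r).card ≤ lt f q.1 q.2 r + 4 := by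
  classical
  obtain ⟨-, -, -, -, h2, h5, -⟩ := cut_leaf hf h
  have hsub : (Finset.univ.filter fun d => sl f q y d = r) ⊆
      (Finset.univ.filter fun d => dst f q.1 q.2 d = r).image Sum.inl ∪
        ({0, 1, 3, 4} : Finset (Fin 6)).image Sum.inr := by
    intro d hd
    rw [Finset.mem_filter] at hd
    rw [Finset.mem_union, Finset.mem_image, Finset.mem_image]
    rcases d with d | i
    · left
      refine ⟨d, ?_, rfl⟩
      rw [Finset.mem_filter]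
      refine ⟨Finset.mem_univ _, ?_⟩
      have h1 : ((dst f q.1 q.2 d : ℕ) : ℤ) = r := hd.2
      exact_mod_cast h1
    · right
      refine ⟨i, ?_, rfl⟩
      have h3 : i ≠ 2 := by
        rintro rfl
        have := hd.2
        rw [h2] at this
        omega
      have h4 : i ≠ 5 := by
        rintro rfl
        have := hd.2
        rw [h5] at this
        omega
      revert h3 h4
      clear hd
      revert i
      decide
  refine (Finset.card_le_card hsub).trans ((Finset.card_union_le _ _).trans ?_)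
  exact Nat.add_le_add Finset.card_image_le (Finset.card_image_le.trans (by decide))

theorem cut_rt {f : Perm D} (hf : TF f) {v r : ℕ} {q : Perm D × D} {y : D} {k : ℕ} {a b : ℕ → D}
    (h : Cut f v r q y k a b) : ∃ w : D ⊕ Fin 6, sl f q y w = (r : ℤ) - k ∧
      Rt (fp f) (sy q.1 y k a b) (sl f q y) (Sum.inl q.2) w := by
  obtain ⟨-, -, -, -, -, h5, h0⟩ := cut_leaf hf h
  obtain ⟨-, hL, hl⟩ := cut_pt0 hf h
  obtain ⟨hB, -⟩ := cut_big hf h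
  obtain ⟨hA, hnn⟩ := cut_lb hf h
  have hr : Rt (fp f) (ap q.1 y) (sl f q y) (Sum.inl q.2) (Sum.inl q.2) := by
    intro d
    have hd := hL.nn d (hl.fpf d)
    rcases hd.eq_or_lt with h1 | h1
    · exact Or.inl (hL.zro _ _ (hl.fpf _) (hl.fpf _) h1.symm h0)
    · obtain ⟨d', h2, -, h3⟩ := hL.dsc d (hl.fpf d) h1
      exact Or.inr (Or.inr ⟨d', h2, h3⟩)
  obtain ⟨x1, w1, e1, e2, hR⟩ := sw_rt hl hB (Sum.inl q.2) hr
  have e3 : ca a 0 = Sum.inr 5 := rfl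
  rw [e3, h5] at e2
  have e4 : sl f q y w1 = (r : ℤ) - k := by
    rw [e2]
    push_cast
    ring
  rcases hR (Sum.inl q.2) with h1 | h1 | ⟨d', h1, h2⟩
  · refine ⟨w1, e4, fun d => ?_⟩
    rcases hR d with h2 | h2 | h2
    · exact Or.inl (h2.trans h1.symm)
    · exact Or.inr (Or.inl h2)
    · exact Or.inr (Or.inr h2)
  · have e5 : sl f q y (Sum.inl q.2) = sl f q y w1 := lb_same hA h1
    refine ⟨x1, ?_, fun d => ?_⟩
    · rw [e1, e5, e4]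
    · rcases hR d with h2 | h2 | h2
      · exact Or.inr (Or.inl h2)
      · exact Or.inl (h2.trans h1.symm)
      · exact Or.inr (Or.inr h2)
  · exfalso
    have e5 : sl f q y (Sum.inl q.2) = sl f q y d' := lb_same hA h1
    have e6 : sl f q y (fp f d') = sl f q y d' - 1 := h2
    have e7 := hnn (fp f d')
    rw [e6, ← e5, h0] at e7
    omega

/-- the two sides of the cut -/
theorem cut_two {f : Perm D} (hf : TF f) {v r : ℕ} {q : Perm D × D} {y : D} {k : ℕ} {a b : ℕ → D}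
    (h : Cut f v r q y k a b) {P : Finset (D ⊕ Fin 6)} (hP : Cp (fp f) (sy q.1 y k a b) P) :
    (Sum.inr 0 ∈ P ↔ Sum.inr 3 ∉ P) ∧ (Sum.inl y ∈ P ↔ Sum.inr 3 ∉ P) ∧
    (Sum.inl (q.1 y) ∈ P ↔ Sum.inr 3 ∈ P) ∧
    (∀ i < k, (Sum.inl (a i) ∈ P ↔ Sum.inr 3 ∈ P) ∧ (Sum.inl (q.1 (b i)) ∈ P ↔ Sum.inr 3 ∈ P) ∧
      (Sum.inl (b i) ∈ P ↔ Sum.inr 3 ∉ P) ∧ (Sum.inl (q.1 (a i)) ∈ P ↔ Sum.inr 3 ∉ P)) := by
  obtain ⟨hp, -, hl⟩ := cut_pt0 hf h
  obtain ⟨hB, -⟩ := cut_big hf h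
  obtain ⟨v1, v2, v3, v4, -⟩ := cut_val hf h
  have hT := fun (i : ℕ) (hi : i < k + 1) => sw_two hp hl hB hP i hi
  have hAA : ∀ u w : D ⊕ Fin 6, sy q.1 y k a b u = w → sy q.1 y k a b w = u → (u ∈ P ↔ w ∈ P) :=
    fun u w h1 h2 => ⟨fun h3 => h1 ▸ hP.aa u h3, fun h3 => h2 ▸ hP.aa w h3⟩
  have f0 : (fp f (Sum.inr 0) : D ⊕ Fin 6) = Sum.inr 1 := rfl
  have f1 : (fp f (Sum.inr 1) : D ⊕ Fin 6) = Sum.inr 2 := rfl
  have f2 : (fp f (Sum.inr 2) : D ⊕ Fin 6) = Sum.inr 0 := rfl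
  have f3 : (fp f (Sum.inr 3) : D ⊕ Fin 6) = Sum.inr 4 := rfl
  have f4 : (fp f (Sum.inr 4) : D ⊕ Fin 6) = Sum.inr 5 := rfl
  have f5 : (fp f (Sum.inr 5) : D ⊕ Fin 6) = Sum.inr 3 := rfl
  have g1 : (Sum.inr 5 : D ⊕ Fin 6) ∈ P ↔ Sum.inr 3 ∈ P :=
    ⟨fun h1 => f5 ▸ hP.ff _ h1, fun h1 => f4 ▸ hP.ff _ (f3 ▸ hP.ff _ h1)⟩
  have g2 : (Sum.inr 0 : D ⊕ Fin 6) ∈ P ↔ Sum.inr 2 ∈ P :=
    ⟨fun h1 => f1 ▸ hP.ff _ (f0 ▸ hP.ff _ h1), fun h1 => f2 ▸ hP.ff _ h1⟩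
  have g3 : (Sum.inr 2 : D ⊕ Fin 6) ∈ P ↔ (Sum.inr 5 : D ⊕ Fin 6) ∉ P := (hT 0 (by omega)).2.2.1
  have g4 : (Sum.inr 0 : D ⊕ Fin 6) ∈ P ↔ Sum.inr 3 ∉ P := g2.trans (g3.trans (not_congr g1))
  refine ⟨g4, (hAA _ _ v2 v1).trans g4, hAA _ _ v4 v3, fun i hi => ?_⟩
  obtain ⟨w1, w2, w3, w4⟩ := cut_vala hf h i hi
  obtain ⟨t1, -, t3, -⟩ := hT (i + 1) (by omega)
  have s1 : (Sum.inl (a i) : D ⊕ Fin 6) ∈ P ↔ Sum.inr 3 ∈ P := Iff.trans t1 g1
  have s3 : (Sum.inl (b i) : D ⊕ Fin 6) ∈ P ↔ Sum.inr 3 ∉ P := Iff.trans t3 (not_congr g1)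
  exact ⟨s1, (hAA _ _ w4 w1).trans s1, s3, (hAA _ _ w3 w2).trans s3⟩

end QG1
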