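import Pool.Agent.H1.QG.Rst
import Pool.Agent.H1.QG.CutG
import Pool.Agent.H39.HG.GraphLab

/-!
[H1 QG CMP]  P186 (MP_bcc40c_pr, Q2, part G)  The two components of the cut map.

PROOF.  cmp_min: let `d ∈ P` with minimal `ℓ d` (`Finset.exists_min_image`).  Its cycle is contained in `P` and has no descending dart `d'` (`f d' ∈ P` would have a smaller label; `ℓ` is constant on cycles: lb_same).  So by `Rt` it is the cycle of `x` or of `w`; `P` is a union of cycles (rst_same, or closed under `f * α` and its inverse).  So `x ∈ P`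
or `w ∈ P`; and if `w ∉ P` then `x ∈ P`, `ℓ x = ℓ d` is the minimum, and every dart of `P` with label `ℓ x` is in the cycle of `x`.
cmp_lab: apply lab_dst (HG/GraphLab) to `rst f P`, `rst α P`, `ℓ' d = ℓ d - ℓ x`, `a = ⟨x, hx⟩`.  `Lab`: nn: minimality (cmp_min); ver, lip: from `Lb` and rst_val; dsc: `0 < ℓ' d`: `d` is not in the cycle of `x` (label), not in the cycle of `w` (`w ∉ P`), so `Rt` gives a descending dart in its cycle, which is in `P` (rst_same, rst_mul); no legs: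
`PT`; zro: cmp_min; ex0: `x`.  rst_tf.
cut_side: cmp_min for `P` and for `Pᶜ` (cp_compl): one of `inl x, w` is in `P` and one is in `Pᶜ`.
cut_cpt: `inv`, `leg` (`tri _ [] = []`, no fixed points) from cut_inv and rst_val; `ndp` trivial; `con`: let `S` be closed, `S d`; `Q = {d | ∃ h : d ∈ P, S ⟨d, h⟩}` is closed under `fp f` and `A` (rst_val), nonempty, contained in `P`, so proper; sw_comp: `Q = P` (`Q = Pᶜ` is impossible, nonempty and contained in `P`).
cp_six: `P` is a union of cycles of `f` (three elements) and of `A` (two elements): `3 ∣ #P` and `2 ∣ #P`.  (For 2: `A` restricted to `P` is an involution without fixed points: `Equiv.Perm.card_fixedPoints_modEq` or `Finset.card_involution`-type lemma; for 3: the same for `f`, order 3: `Equiv.Perm.card_fixedPoints_modEq` with `p = 3`.)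
-/

set_option autoImplicit false

namespace QG1

open Equiv HG39 QD39 QL40

variable {D : Type} [Fintype D] [DecidableEq D]

private theorem cmp_same {f α : Perm D} {P : Finset D} (hP : Cp f α P) {a b : D}
    (h : (f * α).SameCycle a b) : a ∈ P ↔ b ∈ P := by
  obtain ⟨n, _, hn⟩ := h.exists_pow_eq'
  rw [← hn]
  clear hn
  induction n with
  | zero => exact Iff.rfl
  | succ n ih =>
    rw [pow_succ', Perm.mul_apply, Perm.mul_apply, cl_iff hP.ff, cl_iff hP.aa]
    exact ih (by omega)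

private theorem cmp_dvd2 {V : Type} [Fintype V] [DecidableEq V] (g : V → V)
    (h : ∀ v, g (g v) = v) (hn : ∀ v, g v ≠ v) : 2 ∣ Fintype.card V := by
  let G : Function.End V := g
  have h1 : G ^ 2 ^ 1 = 1 := by
    funext v
    exact h v
  have : Fact (Nat.Prime 2) := ⟨Nat.prime_two⟩
  have h2 := Equiv.Perm.card_fixedPoints_modEq h1
  have h3 : Fintype.card (Function.fixedPoints g) = 0 :=
    Fintype.card_eq_zero_iff.2 ⟨fun x => hn _ x.2⟩
  rw [h3] at h2
  exact (Nat.modEq_zero_iff_dvd).1 h2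

private theorem cmp_dvd3 {V : Type} [Fintype V] [DecidableEq V] (g : V → V)
    (h : ∀ v, g (g (g v)) = v) (hn : ∀ v, g v ≠ v) : 3 ∣ Fintype.card V := by
  let G : Function.End V := g
  have h1 : G ^ 3 ^ 1 = 1 := by
    funext v
    exact h v
  have : Fact (Nat.Prime 3) := ⟨Nat.prime_three⟩
  have h2 := Equiv.Perm.card_fixedPoints_modEq h1
  have h3 : Fintype.card (Function.fixedPoints g) = 0 :=
    Fintype.card_eq_zero_iff.2 ⟨fun x => hn _ x.2⟩
  rw [h3] at h2
  exact (Nat.modEq_zero_iff_dvd).1 h2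

theorem cmp_min {f α : Perm D} {ℓ : D → ℤ} (hl : Lb f α ℓ) {P : Finset D} (hP : Cp f α P)
    {x w : D} (hr : Rt f α ℓ x w) : (x ∈ P ∨ w ∈ P) ∧
      (w ∉ P → x ∈ P ∧ ∀ d ∈ P, ℓ x ≤ ℓ d ∧ (ℓ d = ℓ x → (f * α).SameCycle d x)) := by
  have hs : ∀ a b, (f * α).SameCycle a b → (a ∈ P ↔ b ∈ P) := fun a b h =>
    cmp_same hP h
  obtain ⟨d0, hd0, hmin⟩ := Finset.exists_min_image P ℓ hP.ne
  have hroot : ∀ d ∈ P, ℓ d = ℓ d0 → (f * α).SameCycle d x ∨ (f * α).SameCycle d w := by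
    intro d hd hdl
    rcases hr d with h1 | h1 | ⟨d', h1, h2⟩
    · exact Or.inl h1
    · exact Or.inr h1
    · exfalso
      have h3 : d' ∈ P := (hs d d' h1).1 hd
      have h4 := hmin _ (hP.ff d' h3)
      have h5 : ℓ (f d') = ℓ d' - 1 := h2
      have h6 := lb_same hl h1
      omega
  have h0 := hroot d0 hd0 rfl
  refine ⟨?_, fun hw => ?_⟩
  · rcases h0 with h1 | h1
    · exact Or.inl ((hs _ _ h1).1 hd0)
    · exact Or.inr ((hs _ _ h1).1 hd0)
  · have h1 : (f * α).SameCycle d0 x := by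
      rcases h0 with h1 | h1
      · exact h1
      · exact absurd ((hs _ _ h1).1 hd0) hw
    have h2 := lb_same hl h1
    refine ⟨(hs _ _ h1).1 hd0, fun d hd => ⟨?_, fun hdx => ?_⟩⟩
    · rw [← h2]
      exact hmin d hd
    · rcases hroot d hd (hdx.trans h2.symm) with h3 | h3
      · exact h3
      · exact absurd ((hs _ _ h3).1 hd) hw

theorem cmp_lab {f α : Perm D} {ℓ : D → ℤ} (hf : TF f) (hl : Lb f α ℓ) {P : Finset D}
    (hP : Cp f α P) {x w : D} (hr : Rt f α ℓ x w) (hx : x ∈ P) (hw : w ∉ P)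
    (hpt : PT (rst f P) (rst α P) []) (d : {d // d ∈ P}) :
    ℓ (d : D) = ℓ x + dst (rst f P) (rst α P) ⟨x, hx⟩ d := by
  obtain ⟨-, hm⟩ := cmp_min hl hP hr
  obtain ⟨-, hm⟩ := hm hw
  have hs : ∀ a b, (f * α).SameCycle a b → (a ∈ P ↔ b ∈ P) := fun a b h =>
    cmp_same hP h
  have hsc : ∀ a b : {d // d ∈ P}, (rst f P * rst α P).SameCycle a b ↔
      (f * α).SameCycle (a : D) (b : D) := by
    intro a b
    rw [← rst_mul hP.ff hP.aa]
    exact rst_same (fun d hd => hP.ff (α d) (hP.aa d hd)) a b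
  have hn : ∀ d : {d // d ∈ P}, rst α P d ≠ d := by
    intro d h
    have h1 := congrArg Subtype.val h
    rw [rst_val hP.aa] at h1
    exact hl.fpf _ h1
  have hlab : Lab (rst f P) (rst α P) (fun d => ℓ (d : D) - ℓ x) := by
    refine ⟨?_, ?_, ?_, ?_, ?_, ?_⟩
    · intro e _
      have h1 := (hm e e.2).1
      show 0 ≤ ℓ (e : D) - ℓ x
      omega
    · intro e _
      show ℓ ((rst f P e : {d // d ∈ P}) : D) - ℓ x = ℓ ((rst α P e : {d // d ∈ P}) : D) - ℓ x
      rw [rst_val hP.ff, rst_val hP.aa, hl.ver]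
    · intro e _
      show ℓ ((rst f P e : {d // d ∈ P}) : D) - ℓ x ≤ ℓ (e : D) - ℓ x + 1
      rw [rst_val hP.ff]
      have h1 := hl.lip (e : D)
      omega
    · intro e _ he
      have he' : 0 < ℓ (e : D) - ℓ x := he
      rcases hr e with h1 | h1 | ⟨d', h1, h2⟩
      · have h3 := lb_same hl h1
        omega
      · exact absurd ((hs _ _ h1).1 e.2) hw
      · refine ⟨⟨d', (hs _ _ h1).1 e.2⟩, (hsc _ _).2 h1, hn _, ?_⟩
        have h3 : ℓ (f d') = ℓ d' - 1 := h2
        show ℓ ((rst f P ⟨d', _⟩ : {d // d ∈ P}) : D) - ℓ x = ℓ d' - ℓ x - 1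
        rw [rst_val hP.ff]
        show ℓ (f d') - ℓ x = ℓ d' - ℓ x - 1
        omega
    · intro e e' _ _ h1 h2
      have h1' : ℓ (e : D) - ℓ x = 0 := h1
      have h2' : ℓ (e' : D) - ℓ x = 0 := h2
      have h3 := (hm e e.2).2 (by omega)
      have h4 := (hm e' e'.2).2 (by omega)
      exact (hsc _ _).2 (h3.trans h4.symm)
    · exact ⟨⟨x, hx⟩, hn _, sub_self _⟩
  have h1 := lab_dst (rst_tf hf hP.ff) hpt hlab ⟨x, hx⟩ (sub_self _) d
  have h2 : ℓ (d : D) - ℓ x = (dst (rst f P) (rst α P) ⟨x, hx⟩ d : ℤ) := h1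
  omega

theorem cut_side {f : Perm D} (hf : TF f) {v r : ℕ} {q : Perm D × D} {y : D} {k : ℕ} {a b : ℕ → D}
    (h : Cut f v r q y k a b) {P : Finset (D ⊕ Fin 6)} (hP : Cp (fp f) (sy q.1 y k a b) P)
    {w : D ⊕ Fin 6} (hr : Rt (fp f) (sy q.1 y k a b) (sl f q y) (Sum.inl q.2) w) :
    Sum.inl q.2 ∈ P ↔ w ∉ P := by
  have hl := (cut_lb hf h).1
  have h1 := (cmp_min hl hP hr).1
  have h2 := (cmp_min hl (cp_compl hP) hr).1
  rw [Finset.mem_compl, Finset.mem_compl] at h2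
  tauto

theorem cut_cpt {f : Perm D} (hf : TF f) {v r : ℕ} {q : Perm D × D} {y : D} {k : ℕ} {a b : ℕ → D}
    (h : Cut f v r q y k a b) {P : Finset (D ⊕ Fin 6)} (hP : Cp (fp f) (sy q.1 y k a b) P) :
    PT (rst (fp f) P) (rst (sy q.1 y k a b) P) [] := by
  classical
  have hi := cut_inv hf h
  have hn : ∀ d, rst (sy q.1 y k a b) P d ≠ d := by
    intro d hd
    have h1 := congrArg Subtype.val hd
    rw [rst_val hP.aa] at h1
    exact (hi _).2 h1
  refine ⟨fun d => Subtype.ext ?_, fun d => ⟨fun h1 => absurd h1 (hn d), fun h1 => ?_⟩,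
    by simp [tri], ?_⟩
  · rw [rst_val hP.aa, rst_val hP.aa]
    exact (hi _).1
  · simp [tri] at h1
  · rintro S ⟨d0, _, h0⟩ h1 h2 d _
    obtain ⟨Q, hQ⟩ : ∃ Q : Finset (D ⊕ Fin 6), ∀ d, d ∈ Q ↔ ∃ hd : d ∈ P, S ⟨d, hd⟩ :=
      ⟨Finset.univ.filter fun d => ∃ hd : d ∈ P, S ⟨d, hd⟩, fun d => by simp⟩
    have hQP : Q ⊆ P := by
      intro e he
      obtain ⟨h3, -⟩ := (hQ e).1 he
      exact h3
    have hd0 : (d0 : D ⊕ Fin 6) ∈ Q := (hQ _).2 ⟨d0.2, h0⟩
    have hQc : Cp (fp f) (sy q.1 y k a b) Q := by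
      refine ⟨?_, ?_, ⟨_, hd0⟩, ?_⟩
      · intro e he
        obtain ⟨h3, h4⟩ := (hQ e).1 he
        refine (hQ _).2 ⟨hP.ff e h3, ?_⟩
        have h5 : rst (fp f) P ⟨e, h3⟩ = ⟨fp f e, hP.ff e h3⟩ := Subtype.ext (rst_val hP.ff _)
        rw [← h5]
        exact h1 _ h4
      · intro e he
        obtain ⟨h3, h4⟩ := (hQ e).1 he
        refine (hQ _).2 ⟨hP.aa e h3, ?_⟩
        have h5 : rst (sy q.1 y k a b) P ⟨e, h3⟩ = ⟨sy q.1 y k a b e, hP.aa e h3⟩ :=
          Subtype.ext (rst_val hP.aa _)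
        rw [← h5]
        exact h2 _ h4
      · intro hu
        apply hP.pr
        rw [Finset.eq_univ_iff_forall]
        intro e
        apply hQP
        rw [hu]
        exact Finset.mem_univ e
    have h3 : Q = P ∨ Q = Pᶜ :=
      sw_comp (cut_pt0 hf h).1 (cut_pt0 hf h).2.2 (cut_big hf h).1 hP hQc
    rcases h3 with h3 | h3
    · have h4 : (d : D ⊕ Fin 6) ∈ Q := by
        rw [h3]
        exact d.2
      obtain ⟨h5, h6⟩ := (hQ _).1 h4
      exact h6
    · exfalso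
      have h4 : (d0 : D ⊕ Fin 6) ∈ Pᶜ := by
        rw [← h3]
        exact hd0
      exact Finset.mem_compl.1 h4 (hQP hd0)

theorem cp_six {f α : Perm D} (hf : TF f) (hi : ∀ d, α (α d) = d ∧ α d ≠ d) {P : Finset D}
    (hP : Cp f α P) : ∃ i : ℕ, P.card = 6 * i := by
  have h2 : 2 ∣ P.card := by
    rw [← Fintype.card_coe P]
    refine cmp_dvd2 (rst α P) (fun d => Subtype.ext ?_) (fun d h => ?_)
    · rw [rst_val hP.aa, rst_val hP.aa]
      exact (hi _).1
    · have h1 := congrArg Subtype.val h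
      rw [rst_val hP.aa] at h1
      exact (hi _).2 h1
  have h3 : 3 ∣ P.card := by
    rw [← Fintype.card_coe P]
    exact cmp_dvd3 (rst f P) (rst_tf hf hP.ff).three (rst_tf hf hP.ff).nf
  obtain ⟨a, ha⟩ := h2
  obtain ⟨b, hb⟩ := h3
  exact ⟨P.card / 6, by omega⟩

end QG1
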