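import Pool.Agent.H1.QG.Comb
import Pool.Agent.H1.QG.Cmp

/-!
[H1 QG CLF]  P186 (MP_bcc40c_pr, Q2, part G)  Classification of the pairs `(α, x)` with few darts of level `r`.

PROOF.  `F = fp f`, `card (D ⊕ Fin 6) = 6 (n + 1)`.  clf_lev: for `y ∉ ball`, `α y ∈ ball`: bd_lev with `O = (ball)ᶜ` (`Out`: `ff`: if `f d ∈ ball` then `d = f (f (f d)) ∈ ball` by ball_f; `nb`, `aa` trivial) gives `dst x y = r = dst x (f y)`; big1_ex gives `Cut f v r q y k (gs y) (gs (α y))`.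
classify: suppose the first alternative fails.  For every `y` as in clf_lev: the cut map is not connected, so (cut_inv, not_pt) there is `P` with `Cp`; `Pᶜ` is `Cp`, too (cp_compl).
Case 1: for some such `y` there is `P` with `Cp` and `6 M < #P`, `6 M < #Pᶜ`.  One of `P`, `Pᶜ` contains `inl x`, call it `P`.  cp_six (for `F`, `sy ..`; fp_tf; cut_inv): `#P = 6 i`, `M + 1 ≤ i`, and `#Pᶜ = 6 (n + 1) - 6 i > 6 M`, so `i ≤ n - M`.  `u = cyc (rst F P * rst A P) ≤ cyc (F A) = v + 3` (rst_cyc, rst_mul, cut_cyc).  Second alternative.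
Case 2: otherwise for every such `y` there is `P` with `Cp` and `#P ≤ 6 M` (`P` or `Pᶜ`).  comb: either some cut has `inl x ∈ P`, `#P ≤ 6 M`: `#P = 6 i`, `1 ≤ i ≤ M` (`P` nonempty): third alternative; or `6 n ≤ #ball + 6 M lt ≤ #ball + 6 M p`, contradicting `hb`.
-/

set_option autoImplicit false

namespace QG1

open Equiv HG39 QD39 QL40

variable {D : Type} [Fintype D] [DecidableEq D]

omit [DecidableEq D] in
private theorem clf_ball {f : Perm D} (hf : TF f) (α : Perm D) (x : D) (r : ℕ) :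
    ∀ d ∈ ball f α x r, f d ∈ ball f α x r := by
  intro d hd
  simp only [ball, Finset.mem_filter, Finset.mem_univ, true_and] at hd ⊢
  rw [hf.three]
  tauto

theorem clf_lev {f : Perm D} (hf : TF f) {v r : ℕ} {q : Perm D × D} (hts : q.1 ∈ TS f v)
    (hrp : rep f q.1 q.2 = q.2) {y : D} (hy : y ∉ ball f q.1 q.2 r)
    (hy2 : q.1 y ∈ ball f q.1 q.2 r) : ∃ (k : ℕ) (a b : ℕ → D), Cut f v r q y k a b := by
  have hO : Out f q.1 q.2 r (ball f q.1 q.2 r)ᶜ := by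
    refine ⟨?_, ?_, ?_⟩
    · intro d hd
      rw [Finset.mem_compl] at hd ⊢
      intro h
      apply hd
      have h2 := clf_ball hf q.1 q.2 r _ (clf_ball hf q.1 q.2 r _ h)
      rwa [hf.three] at h2
    · intro d hd
      exact Finset.mem_compl.1 hd
    · intro d _ hd
      exact Finset.mem_compl.2 hd
  obtain ⟨h1, h2, -⟩ := bd_lev hf hts.1 hO (Finset.mem_compl.2 hy)
    (fun h => (Finset.mem_compl.1 h) hy2)
  have hlev : dlab f q.1 q.2 (f y) = dlab f q.1 q.2 y := by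
    simp only [dlab, h1, h2]
  obtain ⟨k, hk⟩ := big1_ex hf hts.1 (dlab_lab hf hts.1 q.2) y hlev
  refine ⟨k, _, _, hts, hrp, hk, ?_⟩
  rw [dlab, h1]

private theorem clf_bg {f : Perm D} (hf : TF f) {v r p : ℕ} {q : Perm D × D}
    (hp : lt f q.1 q.2 r ≤ p) {y : D} {k : ℕ} {a b : ℕ → D} (hC : Cut f v r q y k a b)
    {P : Finset (D ⊕ Fin 6)} (hP : Cp (fp f) (sy q.1 y k a b) P) (hx : Sum.inl q.2 ∈ P) :
    ∃ i u : ℕ, P.card = 6 * i ∧ u < v + 4 ∧ q ∈ Bg f v r p i u := by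
  obtain ⟨i, hi⟩ := cp_six (fp_tf hf) (cut_inv hf hC) hP
  refine ⟨i, cyc (rst (fp f) P * rst (sy q.1 y k a b) P), hi, ?_, P, hi, hp, y, k, a, b, hC, hP,
    hx, rfl⟩
  have h1 : ∀ d ∈ P, (fp f * sy q.1 y k a b) d ∈ P := by
    intro d hd
    rw [Perm.mul_apply]
    exact hP.ff _ (hP.aa _ hd)
  have h2 := rst_cyc h1
  rw [rst_mul hP.ff hP.aa, cut_cyc hf hC] at h2
  omega

theorem classify {f : Perm D} (hf : TF f) {n v r M p : ℕ} {q : Perm D × D}
    (hD : Fintype.card D = 6 * n) (hr : 1 ≤ r) (hts : q.1 ∈ TS f v) (hrp : rep f q.1 q.2 = q.2)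
    (hp : lt f q.1 q.2 r ≤ p) (hb : (ball f q.1 q.2 r).card + 6 * M * p < 6 * n) :
    (∃ (y : D) (k : ℕ) (a b : ℕ → D), Cut f v r q y k a b ∧ PT (fp f) (sy q.1 y k a b) []) ∨
    (∃ i u : ℕ, M + 1 ≤ i ∧ i ≤ n - M ∧ u < v + 4 ∧ q ∈ Bg f v r p i u) ∨
    ∃ i u : ℕ, 1 ≤ i ∧ i ≤ M ∧ u < v + 4 ∧ q ∈ Bg f v r p i u := by
  classical
  by_cases h1 : ∃ (y : D) (k : ℕ) (a b : ℕ → D), Cut f v r q y k a b ∧
      PT (fp f) (sy q.1 y k a b) []
  · exact Or.inl h1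
  right
  have hcard : Fintype.card (D ⊕ Fin 6) = 6 * (n + 1) := by
    rw [Fintype.card_sum, hD, Fintype.card_fin]
    ring
  have hcut : ∀ (y : D) (k : ℕ) (a b : ℕ → D), Cut f v r q y k a b →
      ∃ P : Finset (D ⊕ Fin 6), Cp (fp f) (sy q.1 y k a b) P := by
    intro y k a b hC
    have hi := cut_inv hf hC
    exact not_pt (fun d => (hi d).1) (fun d => (hi d).2) fun h => h1 ⟨y, k, a, b, hC, h⟩
  by_cases h2 : ∃ (y : D) (k : ℕ) (a b : ℕ → D) (P : Finset (D ⊕ Fin 6)), Cut f v r q y k a b ∧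
      Cp (fp f) (sy q.1 y k a b) P ∧ 6 * M < P.card ∧ 6 * M < Pᶜ.card
  · left
    obtain ⟨y, k, a, b, P, hC, hP, c1, c2⟩ := h2
    obtain ⟨P, hP, hx, c1, c2⟩ : ∃ P : Finset (D ⊕ Fin 6), Cp (fp f) (sy q.1 y k a b) P ∧
        Sum.inl q.2 ∈ P ∧ 6 * M < P.card ∧ 6 * M < Pᶜ.card := by
      by_cases hx : Sum.inl q.2 ∈ P
      · exact ⟨P, hP, hx, c1, c2⟩
      · refine ⟨Pᶜ, cp_compl hP, Finset.mem_compl.2 hx, c2, ?_⟩
        rwa [compl_compl]
    obtain ⟨i, u, e1, e2, e3⟩ := clf_bg hf hp hC hP hx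
    rw [Finset.card_compl, hcard] at c2
    exact ⟨i, u, by omega, by omega, e2, e3⟩
  · right
    have h3 : ∀ y, y ∉ ball f q.1 q.2 r → q.1 y ∈ ball f q.1 q.2 r →
        ∃ (k : ℕ) (a b : ℕ → D) (P : Finset (D ⊕ Fin 6)), Cut f v r q y k a b ∧
          Cp (fp f) (sy q.1 y k a b) P ∧ P.card ≤ 6 * M := by
      intro y hy hy2
      obtain ⟨k, a, b, hC⟩ := clf_lev hf hts hrp hy hy2
      obtain ⟨P, hP⟩ := hcut y k a b hC
      by_cases c1 : P.card ≤ 6 * M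
      · exact ⟨k, a, b, P, hC, hP, c1⟩
      · refine ⟨k, a, b, Pᶜ, hC, cp_compl hP, ?_⟩
        by_contra c2
        exact h2 ⟨y, k, a, b, P, hC, hP, by omega, by omega⟩
    rcases comb hf hr hts h3 with ⟨y, k, a, b, P, hC, hP, c1, hx⟩ | h4
    · obtain ⟨i, u, e1, e2, e3⟩ := clf_bg hf hp hC hP hx
      have h5 : 0 < P.card := Finset.card_pos.2 hP.ne
      exact ⟨i, u, by omega, by omega, e2, e3⟩
    · exfalso
      rw [hD] at h4
      have h6 : 6 * M * lt f q.1 q.2 r ≤ 6 * M * p := Nat.mul_le_mul_left _ hp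
      omega

end QG1
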