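import Pool.Agent.H1.QG.Defs

/-!
[H1 QG CLO]  P186 (MP_bcc40c_pr, Q2, part G)  The number of unions of triangles.

PROOF.  clo_card: let `T = ` the set of cycles of `f` (e.g. `Quotient (SameCycle.setoid f)`, or the Finsets `{d, f d, f (f d)}`): `#T = N` because every class has exactly three elements (`TF`: `d, f d, f (f d)` are different, and `SameCycle f a b ↔ b ∈ {a, f a, f (f a)}`; compare `cyc_three` in QL/Addp: `3 * cyc f = card D`).  A set `Q` closed under `f` is the union of the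
classes which it contains: the map `Q ↦ {t ∈ T | t ⊆ Q}` (or `Q.image (Quotient.mk _)`) is injective into the subsets of `T`, and `#Q = 3 #(image)`.  So the number is at most the number of subsets of `T` with `s` elements, `N.choose s` (`Finset.card_powersetCard`).
clo_dig: `D ⊕ Fin 6`, `fp f (inl d) = inl (f d)`, on `Fin 6`: `(0 1 2)(3 4 5)`.  If `P` is closed, `inr e ∈ P`, `inr e' ∉ P` then `P ∩ inr = {inr 0, inr 1, inr 2}` (or `{3,4,5}`), three elements, so `P` is determined by `Q = {d | inl d ∈ P}`, which is closed under `f` and has `6 i - 3 = 3 (2 i - 1)` elements; clo_card with `N = 2 n`.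
-/

set_option autoImplicit false

namespace QG1

open Equiv HG39 QD39 QL40

variable {D : Type} [Fintype D] [DecidableEq D]

/-- the triangle of a dart -/
private def cl (f : Perm D) (d : D) : Finset D := {d, f d, f (f d)}

omit [Fintype D] in
private theorem cl_card {f : Perm D} (hf : TF f) (d : D) : (cl f d).card = 3 := by
  have h1 : f d ≠ d := hf.nf d
  have h2 : f (f d) ≠ f d := hf.nf (f d)
  have h3 : f (f d) ≠ d := by
    intro h
    have h4 := hf.three d
    rw [h] at h4
    exact h1 h4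
  unfold cl
  rw [Finset.card_insert_of_notMem, Finset.card_insert_of_notMem, Finset.card_singleton]
  · simp only [Finset.mem_singleton]
    exact h2.symm
  · simp only [Finset.mem_insert, Finset.mem_singleton, not_or]
    exact ⟨h1.symm, h3.symm⟩

omit [Fintype D] in
private theorem cl_self {f : Perm D} (d : D) : d ∈ cl f d := by
  unfold cl
  simp

omit [Fintype D] in
private theorem cl_f {f : Perm D} (hf : TF f) (d : D) : cl f (f d) = cl f d := by
  unfold cl
  rw [hf.three d]
  ext x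
  simp only [Finset.mem_insert, Finset.mem_singleton]
  tauto

omit [Fintype D] in
private theorem cl_iff {f : Perm D} (hf : TF f) {d e : D} : cl f e = cl f d ↔ e ∈ cl f d := by
  constructor
  · intro h
    rw [← h]
    exact cl_self e
  · intro h
    have h' : e = d ∨ e = f d ∨ e = f (f d) := by
      simpa [cl] using h
    rcases h' with h | h | h
    · rw [h]
    · rw [h, cl_f hf]
    · rw [h, cl_f hf, cl_f hf]

omit [Fintype D] in
private theorem cl_sub {f : Perm D} {Q : Finset D} (hQ : ∀ d ∈ Q, f d ∈ Q) {d : D} (hd : d ∈ Q) :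
    cl f d ⊆ Q := by
  intro x hx
  have h' : x = d ∨ x = f d ∨ x = f (f d) := by
    simpa [cl] using hx
  rcases h' with h | h | h
  · rw [h]; exact hd
  · rw [h]; exact hQ _ hd
  · rw [h]; exact hQ _ (hQ _ hd)

omit [Fintype D] in
private theorem cl_three {f : Perm D} (hf : TF f) {Q : Finset D} (hQ : ∀ d ∈ Q, f d ∈ Q) :
    Q.card = 3 * (Q.image (cl f)).card := by
  rw [Finset.card_eq_sum_card_image (cl f) Q]
  have h : ∀ t ∈ Q.image (cl f), (Q.filter fun a => cl f a = t).card = 3 := by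
    intro t ht
    obtain ⟨e, he, rfl⟩ := Finset.mem_image.1 ht
    have h1 : (Q.filter fun a => cl f a = cl f e) = cl f e := by
      ext x
      rw [Finset.mem_filter, cl_iff hf]
      exact ⟨fun h => h.2, fun h => ⟨cl_sub hQ he h, h⟩⟩
    rw [h1, cl_card hf]
  rw [Finset.sum_congr rfl h, Finset.sum_const, smul_eq_mul, mul_comm]

omit [Fintype D] in
private theorem cl_inj {f : Perm D} (hf : TF f) {Q R : Finset D} (hQ : ∀ d ∈ Q, f d ∈ Q)
    (h : R.image (cl f) ⊆ Q.image (cl f)) : R ⊆ Q := by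
  intro x hx
  have h1 := h (Finset.mem_image_of_mem (cl f) hx)
  obtain ⟨e, he, h2⟩ := Finset.mem_image.1 h1
  exact cl_sub hQ he ((cl_iff hf).1 h2.symm)

theorem clo_card {f : Perm D} (hf : TF f) {N : ℕ} (hD : Fintype.card D = 3 * N) (s : ℕ) :
    (Finset.univ.filter fun Q : Finset D => Q.card = 3 * s ∧ ∀ d ∈ Q, f d ∈ Q).card ≤
      N.choose s := by
  have hT : ((Finset.univ : Finset D).image (cl f)).card = N := by
    have h1 := cl_three hf (Q := (Finset.univ : Finset D)) (fun d _ => Finset.mem_univ _)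
    rw [Finset.card_univ, hD] at h1
    omega
  rw [← hT, ← Finset.card_powersetCard]
  apply Finset.card_le_card_of_injOn (fun Q => Q.image (cl f))
  · intro Q hQ
    have hQ' := (Finset.mem_filter.1 (Finset.mem_coe.1 hQ)).2
    rw [Finset.mem_coe, Finset.mem_powersetCard]
    refine ⟨Finset.image_subset_image (Finset.subset_univ _), ?_⟩
    have h1 := cl_three hf hQ'.2
    rw [hQ'.1] at h1
    show (Q.image (cl f)).card = s
    omega
  · intro Q hQ R hR h
    have hQ' := (Finset.mem_filter.1 (Finset.mem_coe.1 hQ)).2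
    have hR' := (Finset.mem_filter.1 (Finset.mem_coe.1 hR)).2
    have h' : Q.image (cl f) = R.image (cl f) := h
    exact Finset.Subset.antisymm (cl_inj hf hR'.2 h'.subset) (cl_inj hf hQ'.2 h'.symm.subset)

private theorem g6_zero {R : Finset (Fin 6)} (h : ∀ j ∈ R, g6 j ∈ R) (h0 : (0 : Fin 6) ∈ R)
    (h3 : (3 : Fin 6) ∉ R) : R = {0, 1, 2} := by
  have h1 : (1 : Fin 6) ∈ R := h 0 h0
  have h2 : (2 : Fin 6) ∈ R := h 1 h1
  have h5 : (5 : Fin 6) ∉ R := fun h5 => h3 (h 5 h5)
  have h4 : (4 : Fin 6) ∉ R := fun h4 => h5 (h 4 h4)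
  ext j
  fin_cases j <;> simp_all

private theorem g6_three {R : Finset (Fin 6)} (h : ∀ j ∈ R, g6 j ∈ R) (h0 : (3 : Fin 6) ∈ R)
    (h3 : (0 : Fin 6) ∉ R) : R = {3, 4, 5} := by
  have h1 : (4 : Fin 6) ∈ R := h 3 h0
  have h2 : (5 : Fin 6) ∈ R := h 4 h1
  have h5 : (2 : Fin 6) ∉ R := fun h5 => h3 (h 2 h5)
  have h4 : (1 : Fin 6) ∉ R := fun h4 => h5 (h 1 h4)
  ext j
  fin_cases j <;> simp_all

theorem clo_dig {f : Perm D} (hf : TF f) {n : ℕ} (hD : Fintype.card D = 6 * n) (i : ℕ)
    (hi : 1 ≤ i) (e e' : Fin 6) (hee : (e = 0 ∧ e' = 3) ∨ (e = 3 ∧ e' = 0)) :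
    (Finset.univ.filter fun P : Finset (D ⊕ Fin 6) => P.card = 6 * i ∧ (∀ d ∈ P, fp f d ∈ P) ∧
      Sum.inr e ∈ P ∧ Sum.inr e' ∉ P).card ≤ (2 * n).choose (2 * i - 1) := by
  refine le_trans ?_ (clo_card hf (N := 2 * n) (by rw [hD]; ring) (2 * i - 1))
  have key : ∃ R0 : Finset (Fin 6), R0.card = 3 ∧ ∀ P : Finset (D ⊕ Fin 6),
      (∀ d ∈ P, fp f d ∈ P) → Sum.inr e ∈ P → Sum.inr e' ∉ P → P.toRight = R0 := by
    rcases hee with ⟨rfl, rfl⟩ | ⟨rfl, rfl⟩
    · refine ⟨{0, 1, 2}, by decide, fun P h1 h2 h3 => g6_zero (fun j hj => ?_) ?_ ?_⟩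
      · exact Finset.mem_toRight.2 (h1 _ (Finset.mem_toRight.1 hj))
      · exact Finset.mem_toRight.2 h2
      · exact fun h => h3 (Finset.mem_toRight.1 h)
    · refine ⟨{3, 4, 5}, by decide, fun P h1 h2 h3 => g6_three (fun j hj => ?_) ?_ ?_⟩
      · exact Finset.mem_toRight.2 (h1 _ (Finset.mem_toRight.1 hj))
      · exact Finset.mem_toRight.2 h2
      · exact fun h => h3 (Finset.mem_toRight.1 h)
  obtain ⟨R0, hR0, key⟩ := key
  apply Finset.card_le_card_of_injOn (fun P => P.toLeft)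
  · intro P hP
    obtain ⟨h1, h2, h3, h4⟩ := (Finset.mem_filter.1 (Finset.mem_coe.1 hP)).2
    rw [Finset.mem_coe, Finset.mem_filter]
    refine ⟨Finset.mem_univ _, ?_, fun d hd => ?_⟩
    · have h5 := Finset.card_toLeft_add_card_toRight (u := P)
      rw [key P h2 h3 h4, hR0, h1] at h5
      show P.toLeft.card = 3 * (2 * i - 1)
      omega
    · exact Finset.mem_toLeft.2 (h2 _ (Finset.mem_toLeft.1 hd))
  · intro P hP Q hQ h
    obtain ⟨h1, h2, h3, h4⟩ := (Finset.mem_filter.1 (Finset.mem_coe.1 hP)).2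
    obtain ⟨k1, k2, k3, k4⟩ := (Finset.mem_filter.1 (Finset.mem_coe.1 hQ)).2
    have hl : P.toLeft = Q.toLeft := h
    have hr : P.toRight = Q.toRight := by rw [key P h2 h3 h4, key Q k2 k3 k4]
    ext x
    rcases x with d | j
    · rw [← Finset.mem_toLeft, hl, Finset.mem_toLeft]
    · rw [← Finset.mem_toRight, hr, Finset.mem_toRight]

end QG1
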