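import Pool.Agent.H1.QG.Defs
import Pool.Agent.H40.QL.Exch
import Pool.Agent.H39.HG.GraphLab
import Pool.Agent.H39.UA.Pcard

/-!
[H1 QG SYM]  P186 (MP_bcc40c_pr, Q2, part G)  The numbers of the two parts.

PROOF.  xp_le, yp_le: forget all conditions except `TS` (and `j ≤ r`): injections into `TS × D`, `TS × D × {0..r}`.
xp_ps: `XP f (m+2) r z ⊆ PS f m z r` (UA39.PS; `dst f p.1 p.2 z = r`), ps_card of UA/Pcard.
comm_ex: for all `a, a'` there is a permutation `π` commuting with `f` with `π a = a'`: if `a'` is in the cycle of `a` take a power of `f`; otherwise the product of the transpositions `(a a')(f a, f a')(f f a, f f a')` (they commute with `f` as a whole; all six darts are different).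
yp_move: for `π` commuting with `f`: `(α, w, j) ↦ (π α π⁻¹, rep f (π α π⁻¹) (π w), j)` maps `YP f u r p z` injectively into `YP f u r p (π z)`: conj_PT, conj_cyc (QL/Exch): TS; `dst f (π α π⁻¹) (π a) (π b) = dst f α a b`: apply lab_dst (HG/GraphLab) to the label function `fun d => (dst f α a (π⁻¹ d) : ℤ)`, which satisfies `Lab f (π α π⁻¹)` because `dst f α a ·` does (dst_lab);
so the number of darts at level `r` is the same (bijection `π`); `rep` of the cycle of `π w`, and injectivity: from `π α π⁻¹` we get `α`, and `rep (π w) = rep (π w')` gives `w ~ w'` (conj_cyc, second part), `w = rep w = rep w' = w'`.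
So all `#YP f u r p z`, `z : D`, are equal (comm_ex in both directions).
yp_sym: `#YP z * card D = Σ_z #YP z = #{(t, z) | t ∈ YP f u r p z}`; fix `t = (α, w, j)`: the number of `z` with `dst w z + j = r` is at most `p`.  The number of `t` is at most `#TS * u * (r+1)`: for `α ∈ TS f u` the number of `w` with `rep w = w` is the number `cyc (f α) = u` of cycles (`w ↦ Quotient.mk w` is injective on representatives; compare `vnum` in UN/Vnum).
-/

set_option autoImplicit false

namespace QG1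

open Equiv HG39 QD39 QL40

variable {D : Type} [Fintype D] [DecidableEq D]

theorem xp_le (f : Perm D) (u r : ℕ) (z : D) :
    (XP f u r z).ncard ≤ (TS f u).ncard * Fintype.card D := by
  have h1 : XP f u r z ⊆ (TS f u) ×ˢ (Set.univ : Set D) := fun p hp => ⟨hp.1, Set.mem_univ _⟩
  have h2 := Set.ncard_le_ncard h1 (Set.toFinite _)
  rw [Set.ncard_prod, Set.ncard_univ, Nat.card_eq_fintype_card] at h2
  exact h2

theorem yp_le (f : Perm D) (u r p : ℕ) (z : D) :
    (YP f u r p z).ncard ≤ (TS f u).ncard * Fintype.card D * (r + 1) := by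
  have h1 : YP f u r p z ⊆ (TS f u) ×ˢ ((Set.univ : Set D) ×ˢ (Set.Iic r)) :=
    fun t ht => ⟨ht.1, Set.mem_univ _, ht.2.2.1⟩
  have h2 := Set.ncard_le_ncard h1
    (((TS f u).toFinite).prod (Set.finite_univ.prod (Set.finite_Iic r)))
  have h3 : (Set.Iic r).ncard = r + 1 := by
    rw [Set.ncard_eq_toFinset_card']
    simp
  rw [Set.ncard_prod, Set.ncard_prod, Set.ncard_univ, Nat.card_eq_fintype_card, h3,
    ← mul_assoc] at h2
  exact h2

theorem xp_ps {f : Perm D} (hf : TF f) {m : ℕ} (hm : 1 ≤ m) (hD : Fintype.card D = 6 * m) (r : ℕ)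
    (z : D) : (XP f (m + 2) r z).ncard ≤
      (2 * m - 1).factorial * 3 ^ (2 * m - 1) * (UA39.LT r (2 * m - 1)).ncard := by
  have h1 : XP f (m + 2) r z ⊆ UA39.PS f m z r := fun p hp => hp
  have h2 := Set.ncard_le_ncard h1 (Set.toFinite _)
  exact h2.trans (UA39.ps_card hf hm hD z r)

/-- the permutation which exchanges two triangles -/
private theorem sym_mv {f : Perm D} (hf : TF f) (a a' : D) :
    ∃ π : Perm D, (∀ d, π (f d) = f (π d)) ∧ π a = a' ∧
      ∀ d, d ≠ a → d ≠ f a → d ≠ f (f a) → d ≠ a' → d ≠ f a' → d ≠ f (f a') → π d = d := by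
  have h3 := hf.three
  have hn := hf.nf
  have hinj := f.injective
  -- powers of the cycle
  have hcyc : ∀ d, f (f.cycleOf a d) = f.cycleOf a (f d) := by
    intro d
    rw [Equiv.Perm.cycleOf_apply, Equiv.Perm.cycleOf_apply]
    by_cases h : f.SameCycle a d
    · rw [if_pos h, if_pos (Equiv.Perm.sameCycle_apply_right.2 h)]
    · rw [if_neg h, if_neg (fun h' => h (Equiv.Perm.sameCycle_apply_right.1 h'))]
  have hout : ∀ d, d ≠ a → d ≠ f a → d ≠ f (f a) → f.cycleOf a d = d := by
    intro d h1 h2 h4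
    rw [Equiv.Perm.cycleOf_apply, if_neg]
    rintro ⟨k, hk⟩
    have hmod : ∀ k : ℕ, (f ^ k) a = a ∨ (f ^ k) a = f a ∨ (f ^ k) a = f (f a) := by
      intro k
      induction k with
      | zero => left; simp
      | succ k ih =>
        rw [pow_succ', Equiv.Perm.mul_apply]
        rcases ih with h | h | h <;> rw [h]
        · right; left; rfl
        · right; right; rfl
        · left; exact h3 a
    have hmodz : (f ^ k) a = a ∨ (f ^ k) a = f a ∨ (f ^ k) a = f (f a) := by
      have hf3 : f ^ (3 : ℤ) = 1 := by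
        ext x
        have : (f ^ (3 : ℤ)) x = f (f (f x)) := by
          rw [show (3 : ℤ) = ((3 : ℕ) : ℤ) from rfl, zpow_natCast, pow_succ, pow_two]
          rfl
        rw [this, h3]; rfl
      have hk2 : f ^ k = f ^ (k % 3) := by
        conv_lhs => rw [← Int.emod_add_mul_ediv k 3]
        rw [zpow_add, zpow_mul, hf3, one_zpow, mul_one]
      rw [hk2]
      have h5 : 0 ≤ k % 3 := Int.emod_nonneg _ (by norm_num)
      lift k % 3 to ℕ using h5 with m hm
      rw [zpow_natCast]
      exact hmod m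
    rw [hk] at hmodz
    tauto
  have hself : f.cycleOf a a = f a := Equiv.Perm.cycleOf_apply_self f a
  by_cases e0 : a' = a
  · refine ⟨1, fun d => rfl, e0.symm, fun d _ _ _ _ _ _ => rfl⟩
  by_cases e1 : a' = f a
  · refine ⟨f.cycleOf a, fun d => (hcyc d).symm, by rw [hself, e1], fun d h1 h2 h4 _ _ _ =>
      hout d h1 h2 h4⟩
  by_cases e2 : a' = f (f a)
  · refine ⟨f.cycleOf a * f.cycleOf a, fun d => ?_, ?_, fun d h1 h2 h4 _ _ _ => ?_⟩
    · rw [Equiv.Perm.mul_apply, Equiv.Perm.mul_apply, hcyc, hcyc]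
    · rw [Equiv.Perm.mul_apply, hself, ← hcyc, hself, e2]
    · rw [Equiv.Perm.mul_apply, hout d h1 h2 h4, hout d h1 h2 h4]
  -- disjoint triangles
  have n1 : a ≠ f a := (hn a).symm
  have n2 : a ≠ f (f a) := fun h => hn (f (f a)) (by rw [h3]; exact h)
  have n3 : f a ≠ f (f a) := fun h => n1 (hinj h)
  have m1 : a' ≠ f a' := (hn a').symm
  have m2 : a' ≠ f (f a') := fun h => hn (f (f a')) (by rw [h3]; exact h)
  have m3 : f a' ≠ f (f a') := fun h => m1 (hinj h)
  have x1 : a ≠ f a' := fun h => e2 (by rw [h, h3])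
  have x2 : a ≠ f (f a') := fun h => e1 (by rw [h, h3])
  have y0 : f a ≠ a' := fun h => e1 h.symm
  have y1 : f a ≠ f a' := fun h => e0 (hinj h).symm
  have y2 : f a ≠ f (f a') := fun h => x1 (hinj h)
  have z0 : f (f a) ≠ a' := fun h => e2 h.symm
  have z1 : f (f a) ≠ f a' := fun h => y0 (hinj h)
  have z2 : f (f a) ≠ f (f a') := fun h => y1 (hinj h)
  have w0 : a ≠ a' := fun h => e0 h.symm
  set s0 := swap a a' with hs0
  set s1 := swap (f a) (f a') with hs1
  set s2 := swap (f (f a)) (f (f a')) with hs2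
  have d01 : Commute s0 s1 := by
    apply Equiv.Perm.Disjoint.commute
    apply Equiv.Perm.disjoint_swap_swap
    simp only [List.nodup_cons, List.mem_cons, List.not_mem_nil, or_false, not_or, not_false_eq_true,
      List.nodup_nil, and_true]
    exact ⟨⟨w0, n1, x1⟩, ⟨y0.symm, m1⟩, y1⟩
  have d02 : Commute s0 s2 := by
    apply Equiv.Perm.Disjoint.commute
    apply Equiv.Perm.disjoint_swap_swap
    simp only [List.nodup_cons, List.mem_cons, List.not_mem_nil, or_false, not_or, not_false_eq_true,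
      List.nodup_nil, and_true]
    exact ⟨⟨w0, n2, x2⟩, ⟨z0.symm, m2⟩, z2⟩
  have hc0 : f * s0 = s1 * f := by
    rw [hs1, Equiv.swap_apply_apply]; simp [hs0, mul_assoc]
  have hc1 : f * s1 = s2 * f := by
    rw [hs2, Equiv.swap_apply_apply]; simp [hs1, mul_assoc]
  have hc2 : f * s2 = s0 * f := by
    have : s0 = swap (f (f (f a))) (f (f (f a'))) := by rw [h3, h3]
    rw [this, Equiv.swap_apply_apply]; simp [hs2, mul_assoc]
  have hcom : f * (s0 * s1 * s2) = s0 * s1 * s2 * f := by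
    calc f * (s0 * s1 * s2) = f * s0 * s1 * s2 := by simp only [mul_assoc]
      _ = s1 * (f * s1) * s2 := by rw [hc0]; simp only [mul_assoc]
      _ = s1 * s2 * (f * s2) := by rw [hc1]; simp only [mul_assoc]
      _ = s1 * s2 * s0 * f := by rw [hc2]; simp only [mul_assoc]
      _ = s1 * (s0 * s2) * f := by rw [d02.eq]; simp only [mul_assoc]
      _ = s0 * s1 * s2 * f := by rw [← mul_assoc s1, ← d01.eq]
  refine ⟨s0 * s1 * s2, fun d => ?_, ?_, fun d h1 h2 h4 h5 h6 h7 => ?_⟩
  · have := congrArg (fun g : Perm D => g d) hcom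
    simpa only [Equiv.Perm.mul_apply] using this.symm
  · rw [Equiv.Perm.mul_apply, Equiv.Perm.mul_apply, hs2, Equiv.swap_apply_of_ne_of_ne n2 x2, hs1,
      Equiv.swap_apply_of_ne_of_ne n1 x1, hs0, Equiv.swap_apply_left]
  · rw [Equiv.Perm.mul_apply, Equiv.Perm.mul_apply, hs2, Equiv.swap_apply_of_ne_of_ne h4 h7, hs1,
      Equiv.swap_apply_of_ne_of_ne h2 h6, hs0, Equiv.swap_apply_of_ne_of_ne h1 h5]

theorem comm_ex {f : Perm D} (hf : TF f) (a a' : D) :
    ∃ π : Perm D, (∀ d, π (f d) = f (π d)) ∧ π a = a' := by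
  obtain ⟨π, h1, h2, -⟩ := sym_mv hf a a'
  exact ⟨π, h1, h2⟩


private theorem sym_dst {f α π : Perm D} (hf : TF f) (hπ : ∀ d, π (f d) = f (π d)) (h : PT f α [])
    (a b : D) : dst f (π * α * π⁻¹) (π a) (π b) = dst f α a b := by
  have hπ' : ∀ d, π (π⁻¹ d) = d := fun d => by simp
  have hπ'' : ∀ d, π⁻¹ (π d) = d := fun d => by simp
  have hπf : ∀ d, π⁻¹ (f d) = f (π⁻¹ d) := by
    intro d
    apply π.injective
    rw [hπ', hπ, hπ']
  have hv : ∀ d, (π * α * π⁻¹) d = π (α (π⁻¹ d)) := fun d => rfl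
  have hne : ∀ d, (π * α * π⁻¹) d ≠ d → α (π⁻¹ d) ≠ π⁻¹ d := by
    intro d hd h1
    apply hd
    rw [hv, h1, hπ']
  have hne' : ∀ d, α d ≠ d → (π * α * π⁻¹) (π d) ≠ π d := by
    intro d hd h1
    apply hd
    rw [hv, hπ''] at h1
    exact π.injective h1
  obtain ⟨-, c2⟩ := conj_cyc (α := α) hπ
  have hl := dst_lab hf h a
  have hl' : Lab f (π * α * π⁻¹) (fun d => (dst f α a (π⁻¹ d) : ℤ)) := by
    refine ⟨fun d _ => Int.natCast_nonneg _, fun d hd => ?_, fun d hd => ?_, fun d hd hd0 => ?_,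
      fun d d' hd hd' h0 h0' => ?_, ⟨π a, ?_, ?_⟩⟩
    · show (dst f α a (π⁻¹ (f d)) : ℤ) = dst f α a (π⁻¹ ((π * α * π⁻¹) d))
      rw [hv, hπ'', hπf]
      exact hl.ver _ (hne d hd)
    · show (dst f α a (π⁻¹ (f d)) : ℤ) ≤ dst f α a (π⁻¹ d) + 1
      rw [hπf]
      exact hl.lip _ (hne d hd)
    · obtain ⟨d', h1, h2, h3⟩ := hl.dsc (π⁻¹ d) (hne d hd) hd0
      refine ⟨π d', ?_, hne' d' h2, ?_⟩
      · have := (c2 (π⁻¹ d) d').2 h1
        rwa [hπ'] at this
      · show (dst f α a (π⁻¹ (f (π d'))) : ℤ) = dst f α a (π⁻¹ (π d')) - 1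
        rw [← hπ, hπ'', hπ'']
        exact h3
    · have h1 := hl.zro (π⁻¹ d) (π⁻¹ d') (hne d hd) (hne d' hd') h0 h0'
      have := (c2 (π⁻¹ d) (π⁻¹ d')).2 h1
      rwa [hπ', hπ'] at this
    · apply hne'
      intro h1
      have h2 := (h.leg a).1 h1
      simp [tri] at h2
    · show (dst f α a (π⁻¹ (π a)) : ℤ) = 0
      rw [hπ'', dst_self f α a a (Equiv.Perm.SameCycle.refl _ _)]
      rfl
  have h1 := lab_dst hf (conj_PT hπ h) hl' (π a) (by
    show (dst f α a (π⁻¹ (π a)) : ℤ) = 0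
    rw [hπ'', dst_self f α a a (Equiv.Perm.SameCycle.refl _ _)]
    rfl) (π b)
  have h2 : (dst f α a b : ℤ) = dst f (π * α * π⁻¹) (π a) (π b) := by
    rw [← h1]
    show (dst f α a b : ℤ) = dst f α a (π⁻¹ (π b))
    rw [hπ'']
  exact_mod_cast h2.symm

omit [Fintype D] [DecidableEq D] in
private theorem sym_rep (f α : Perm D) (a b : D) : dst f α (rep f α a) b = dst f α a b := by
  unfold dst rep
  rw [Quotient.out_eq]
theorem yp_move {f π : Perm D} (hf : TF f) (hπ : ∀ d, π (f d) = f (π d)) (u r p : ℕ) (z : D) :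
    (YP f u r p z).ncard ≤ (YP f u r p (π z)).ncard := by
  classical
  have hfin : (YP f u r p (π z)).Finite := by
    refine Set.Finite.subset ((Set.finite_univ (α := Perm D)).prod
      ((Set.finite_univ (α := D)).prod (Set.finite_Iic r))) ?_
    exact fun t ht => ⟨Set.mem_univ _, Set.mem_univ _, ht.2.2.1⟩
  refine Set.ncard_le_ncard_of_injOn
    (fun t => (π * t.1 * π⁻¹, rep f (π * t.1 * π⁻¹) (π t.2.1), t.2.2)) ?_ ?_ hfin
  · rintro ⟨α, w, j⟩ ⟨h1, h2, h3, h4, h5⟩
    simp only at h1 h2 h3 h4 h5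
    obtain ⟨c1, c2⟩ := conj_cyc (α := α) hπ
    refine ⟨⟨conj_PT hπ h1.1, ?_⟩, ?_, h3, ?_, ?_⟩
    · show cyc (f * (π * α * π⁻¹)) = u
      rw [c1]
      exact h1.2
    · show rep f (π * α * π⁻¹) (rep f (π * α * π⁻¹) (π w)) = rep f (π * α * π⁻¹) (π w)
      exact rep_eq (rep_same f (π * α * π⁻¹) (π w))
    · show dst f (π * α * π⁻¹) (rep f (π * α * π⁻¹) (π w)) (π z) + j = r
      rw [sym_rep, sym_dst hf hπ h1.1]
      exact h4
    · show (Finset.univ.filter fun d =>
        dst f (π * α * π⁻¹) (rep f (π * α * π⁻¹) (π w)) d + j = r).card ≤ p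
      refine le_trans (le_of_eq ?_) h5
      refine Finset.card_bij (fun d _ => π⁻¹ d) ?_ ?_ ?_
      · intro d hd
        simp only [Finset.mem_filter, Finset.mem_univ, true_and] at hd ⊢
        rw [sym_rep] at hd
        have h6 := sym_dst hf hπ h1.1 w (π⁻¹ d)
        have h7 : π (π⁻¹ d) = d := by simp
        rw [h7] at h6
        rw [← h6]
        exact hd
      · intro d _ d' _ h
        exact (π⁻¹).injective h
      · intro d hd
        refine ⟨π d, ?_, by simp⟩
        simp only [Finset.mem_filter, Finset.mem_univ, true_and] at hd ⊢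
        rw [sym_rep, sym_dst hf hπ h1.1]
        exact hd
  · rintro ⟨α, w, j⟩ ⟨h1, h2, h3, h4, h5⟩ ⟨β, w', j'⟩ ⟨h1', h2', h3', h4', h5'⟩ heq
    simp only [Prod.mk.injEq] at heq h1 h2 h3 h4 h5 h1' h2' h3' h4' h5'
    obtain ⟨e1, e2, e3⟩ := heq
    have e4 : α = β := mul_left_cancel (mul_right_cancel e1)
    subst e4
    subst e3
    obtain ⟨-, c2⟩ := conj_cyc (α := α) hπ
    have s1 := rep_same f (π * α * π⁻¹) (π w)
    have s2 := rep_same f (π * α * π⁻¹) (π w')
    rw [← e2] at s2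
    have s3 := (c2 w w').1 (s1.symm.trans s2)
    have s4 := rep_eq s3
    rw [h2, h2'] at s4
    rw [s4]

theorem yp_sym {f : Perm D} (hf : TF f) (u r p : ℕ) (z : D) :
    (YP f u r p z).ncard * Fintype.card D ≤ (r + 1) * p * ((TS f u).ncard * u) := by
  classical
  have hTfin : {t : Perm D × D × ℕ | t.1 ∈ TS f u ∧ rep f t.1 t.2.1 = t.2.1 ∧
      t.2.2 ≤ r}.Finite := by
    refine Set.Finite.subset ((Set.finite_univ (α := Perm D)).prod
      ((Set.finite_univ (α := D)).prod (Set.finite_Iic r))) ?_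
    exact fun t ht => ⟨Set.mem_univ _, Set.mem_univ _, ht.2.2⟩
  set T := hTfin.toFinset with hT
  have hmT : ∀ t, t ∈ T ↔ t.1 ∈ TS f u ∧ rep f t.1 t.2.1 = t.2.1 ∧ t.2.2 ≤ r := by
    intro t
    rw [hT, Set.Finite.mem_toFinset]
    rfl
  have h1 : ∀ z', (YP f u r p z').ncard = (T.filter fun t => t ∈ YP f u r p z').card := by
    intro z'
    rw [← Set.ncard_coe_finset]
    congr 1
    ext t
    rw [Finset.mem_coe, Finset.mem_filter, hmT]
    exact ⟨fun h => ⟨⟨h.1, h.2.1, h.2.2.1⟩, h⟩, fun h => h.2⟩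
  have h2 : (YP f u r p z).ncard * Fintype.card D ≤
      ∑ z' : D, (T.filter fun t => t ∈ YP f u r p z').card := by
    calc (YP f u r p z).ncard * Fintype.card D = ∑ _z' : D, (YP f u r p z).ncard := by
          rw [Finset.sum_const, Finset.card_univ, smul_eq_mul, mul_comm]
      _ ≤ _ := by
        refine Finset.sum_le_sum fun z' _ => ?_
        rw [← h1]
        obtain ⟨π, h3, h4⟩ := comm_ex hf z z'
        rw [← h4]
        exact yp_move hf h3 u r p z
  have h3 : ∑ z' : D, (T.filter fun t => t ∈ YP f u r p z').card =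
      ∑ t ∈ T, (Finset.univ.filter fun z' => t ∈ YP f u r p z').card := by
    simp only [Finset.card_filter]
    exact Finset.sum_comm
  have h4 : ∀ t ∈ T, (Finset.univ.filter fun z' => t ∈ YP f u r p z').card ≤ p := by
    intro t _
    by_cases h : ∃ z', t ∈ YP f u r p z'
    · obtain ⟨z', hz⟩ := h
      refine le_trans (Finset.card_le_card ?_) hz.2.2.2.2
      intro d hd
      rw [Finset.mem_filter] at hd ⊢
      exact ⟨Finset.mem_univ _, hd.2.2.2.2.1⟩
    · push Not at h
      rw [Finset.filter_false_of_mem (fun z' _ => h z')]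
      simp
  have h5 : T.card ≤ (TS f u).ncard * (u * (r + 1)) := by
    have hTS : (TS f u).Finite := Set.toFinite _
    rw [Set.ncard_eq_toFinset_card _ hTS]
    rw [Finset.card_eq_sum_card_fiberwise (f := fun t : Perm D × D × ℕ => t.1)
      (t := hTS.toFinset) (fun t ht => by
        rw [Finset.mem_coe, Set.Finite.mem_toFinset]
        exact ((hmT t).1 ht).1)]
    rw [← smul_eq_mul (hTS.toFinset.card)]
    refine Finset.sum_le_card_nsmul _ _ _ fun α hα => ?_
    rw [Set.Finite.mem_toFinset] at hα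
    have : Fintype (Quotient (Equiv.Perm.SameCycle.setoid (f * α))) := Fintype.ofFinite _
    have h6 : ((Finset.univ : Finset (Quotient (Equiv.Perm.SameCycle.setoid (f * α)))) ×ˢ
        Finset.range (r + 1)).card = u * (r + 1) := by
      rw [Finset.card_product, Finset.card_range, Finset.card_univ, ← Nat.card_eq_fintype_card]
      have h7 := hα.2
      unfold cyc at h7
      rw [h7]
    rw [← h6]
    refine Finset.card_le_card_of_injOn (fun t : Perm D × D × ℕ =>
      (Quotient.mk (Equiv.Perm.SameCycle.setoid (f * α)) t.2.1, t.2.2)) ?_ ?_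
    · intro t ht
      rw [Finset.mem_coe, Finset.mem_filter, hmT] at ht
      rw [Finset.mem_coe, Finset.mem_product]
      refine ⟨Finset.mem_univ _, ?_⟩
      rw [Finset.mem_range]
      have := ht.1.2.2
      show t.2.2 < r + 1
      omega
    · rintro ⟨β, w, j⟩ ht ⟨β', w', j'⟩ ht' heq
      rw [Finset.mem_coe, Finset.mem_filter, hmT] at ht ht'
      simp only [Prod.mk.injEq] at ht ht' heq
      obtain ⟨⟨-, g2, -⟩, g4⟩ := ht
      obtain ⟨⟨-, g2', -⟩, g4'⟩ := ht'
      subst g4
      subst g4'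
      obtain ⟨e1, e2⟩ := heq
      subst e2
      unfold rep at g2 g2'
      rw [e1, g2'] at g2
      rw [g2]
  rw [h3] at h2
  refine h2.trans ((Finset.sum_le_card_nsmul _ _ _ h4).trans ?_)
  rw [smul_eq_mul]
  calc T.card * p ≤ ((TS f u).ncard * (u * (r + 1))) * p := Nat.mul_le_mul_right _ h5
    _ = (r + 1) * p * ((TS f u).ncard * u) := by ring

end QG1
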