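import Pool.Agent.H1.QG.InjP
import Pool.Agent.H1.QG.Clo
import Pool.Agent.H1.QG.Sym

/-!
[H1 QG CNT]  P186 (MP_bcc40c_pr, Q2, part G)  Numbers of the exceptional pairs for given size `i` and number `u` of vertices of the part of `x`.

PROOF.  bg_sum: `q ∈ Bg` with `P`, `q ∈ BgP .. P`: `P` is closed under `fp f` (`Cp.ff`), and by cut_two exactly one of `inr 0`, `inr 3` is in `P`.  So `Bg` is the union over `(e, e') ∈ {(0,3), (3,0)}` and over the sets `P` counted in clo_dig of the `BgP`; injP bounds each by `X * Y` (`hX`, `hY`).  (`Set.ncard_iUnion_le`-type bound for Finset unions: `Set.ncard_le_ncard` into a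
`⋃ P ∈ s`, induction over the Finset, or `Finset.card_biUnion_le` after toFinset.)
cnt4: `card {d // d ∈ P} = 6 i`, `card {d // d ∈ Pᶜ} = 6 i'`, `i' = n + 1 - i` (`card (D ⊕ Fin 6) = 6 (n+1)`), rst_tf, ts_card (UN/LawA) for both: `#XP ≤ #TS (rst F P) u * 6 i = (2i)! 3^(2i) bc i u`, `#YP ≤ #TS (rst F Pᶜ) (v+3-u) * 6 i' (r+1) = (2i')! 3^(2i') bc i' (v+3-u) (r+1)` (xp_le, yp_le).  bg_sum: `#Bg ≤ 2 C(2n, 2i-1) (2i)! (2i')! 3^(2n+2) bc bc (r+1)`, and
`C(2n,2i-1) (2i-1)! (2i'-1)! = (2n)!` (`Nat.choose_mul_factorial_mul_factorial`, `2n - (2i-1) = 2i' - 1`), `(2i)! = 2i (2i-1)!`: `#Bg ≤ 72 i i' (r+1) (2n)! 3^(2n) bc bc`; `(2n)! 3^(2n) bc n v = 6 n #TS f v` (ts_card).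
cnt5: xp_ps and yp_sym: `#XP ≤ (2i-1)! 3^(2i-1) #LT`, `#YP * 6 i' ≤ (r+1) (p+4) #TS (rst F Pᶜ) u' u'`, `u' = v + 3 - (i+2) = v + 1 - i ≤ v + 1`, `#TS .. * 6 i' = (2i')! 3^(2i') bc i' u'`.  So `#Bg * 36 i'^2 ≤ 2 C(2n,2i-1) (2i-1)! (2i')! 3^(2n+1) #LT (r+1) (p+4) (v+1) bc i' u' = 12 i' (2n)! 3^(2n) #LT (r+1)(p+4)(v+1) bc i' u'`; multiply by `bc n v`, divide by `36 i'`.
-/

set_option autoImplicit false

namespace QG1

open Equiv HG39 QD39 QL40 UN39

variable {D : Type} [Fintype D] [DecidableEq D]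

private theorem cnt_union {ι β : Type} [Finite β] [DecidableEq ι] (s : Finset ι) (F : ι → Set β)
    (M : ℝ) (h : ∀ i ∈ s, ((F i).ncard : ℝ) ≤ M) : ((⋃ i ∈ s, F i).ncard : ℝ) ≤ s.card * M := by
  induction s using Finset.induction_on with
  | empty => simp
  | insert k s hk ih =>
    rw [Finset.set_biUnion_insert, Finset.card_insert_of_notMem hk]
    have h1 : (((F k) ∪ ⋃ i ∈ s, F i).ncard : ℝ) ≤ ((F k).ncard : ℝ) + (⋃ i ∈ s, F i).ncard := by
      exact_mod_cast Set.ncard_union_le _ _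
    have h2 := h k (Finset.mem_insert_self k s)
    have h3 := ih fun i hi => h i (Finset.mem_insert_of_mem hi)
    push_cast
    linarith

theorem bg_sum {f : Perm D} (hf : TF f) {n : ℕ} (hD : Fintype.card D = 6 * n) (v r p i u : ℕ)
    (hi : 1 ≤ i) (X Y : ℝ) (hX0 : 0 ≤ X) (hY0 : 0 ≤ Y)
    (hX : ∀ P : Finset (D ⊕ Fin 6), P.card = 6 * i → (∀ d ∈ P, fp f d ∈ P) →
      ∀ z : {d // d ∈ P}, ((XP (rst (fp f) P) u r z).ncard : ℝ) ≤ X)
    (hY : ∀ P : Finset (D ⊕ Fin 6), P.card = 6 * i → (∀ d ∈ P, fp f d ∈ P) →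
      ∀ z : {d // d ∈ Pᶜ}, ((YP (rst (fp f) Pᶜ) (v + 3 - u) r (p + 4) z).ncard : ℝ) ≤ Y) :
    ((Bg f v r p i u).ncard : ℝ) ≤ 2 * ((2 * n).choose (2 * i - 1) : ℝ) * (X * Y) := by
  classical
  have hXY : 0 ≤ X * Y := mul_nonneg hX0 hY0
  let Fl : Fin 6 → Fin 6 → Finset (Finset (D ⊕ Fin 6)) := fun e e' =>
    Finset.univ.filter fun P : Finset (D ⊕ Fin 6) => P.card = 6 * i ∧ (∀ d ∈ P, fp f d ∈ P) ∧
      Sum.inr e ∈ P ∧ Sum.inr e' ∉ P
  have hone : ∀ e e' : Fin 6, ((e = 0 ∧ e' = 3) ∨ (e = 3 ∧ e' = 0)) →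
      ((⋃ P ∈ Fl e e', BgP f v r p u P).ncard : ℝ) ≤
        ((2 * n).choose (2 * i - 1) : ℝ) * (X * Y) := by
    intro e e' hee
    have h1 := cnt_union (Fl e e') (fun P => BgP f v r p u P) (X * Y) (by
      intro P hP
      simp only [Fl, Finset.mem_filter, Finset.mem_univ, true_and] at hP
      obtain ⟨p1, p2, p3, p4⟩ := hP
      have p4' : Sum.inr e' ∈ Pᶜ := Finset.mem_compl.2 p4
      have h2 := injP hf v r p u P e e' hee p3 p4'
      have h3 : ((BgP f v r p u P).ncard : ℝ) ≤ ((XP (rst (fp f) P) u r ⟨Sum.inr e, p3⟩).ncard : ℝ) *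
          ((YP (rst (fp f) Pᶜ) (v + 3 - u) r (p + 4) ⟨Sum.inr e', p4'⟩).ncard : ℝ) := by
        exact_mod_cast h2
      refine h3.trans ?_
      exact mul_le_mul (hX P p1 p2 _) (hY P p1 p2 _) (Nat.cast_nonneg _) hX0)
    refine h1.trans (mul_le_mul_of_nonneg_right ?_ hXY)
    exact_mod_cast clo_dig hf hD i hi e e' hee
  have hsub : Bg f v r p i u ⊆ (⋃ P ∈ Fl 0 3, BgP f v r p u P) ∪ (⋃ P ∈ Fl 3 0, BgP f v r p u P) := by
    rintro q ⟨P, hP, hq⟩
    obtain ⟨-, y, k, a, b, hC, hCp, -, -⟩ := id hq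
    have h0 := (cut_two hf hC hCp).1
    by_cases h3 : (Sum.inr 3 : D ⊕ Fin 6) ∈ P
    · right
      simp only [Set.mem_iUnion]
      refine ⟨P, ?_, hq⟩
      simp only [Fl, Finset.mem_filter, Finset.mem_univ, true_and]
      exact ⟨hP, hCp.ff, h3, fun h => (h0.1 h) h3⟩
    · left
      simp only [Set.mem_iUnion]
      refine ⟨P, ?_, hq⟩
      simp only [Fl, Finset.mem_filter, Finset.mem_univ, true_and]
      exact ⟨hP, hCp.ff, h0.2 h3, h3⟩
  have h1 : ((Bg f v r p i u).ncard : ℝ) ≤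
      ((⋃ P ∈ Fl 0 3, BgP f v r p u P).ncard : ℝ) + ((⋃ P ∈ Fl 3 0, BgP f v r p u P).ncard : ℝ) := by
    exact_mod_cast (Set.ncard_le_ncard hsub (Set.toFinite _)).trans (Set.ncard_union_le _ _)
  have h2 := hone 0 3 (Or.inl ⟨rfl, rfl⟩)
  have h3 := hone 3 0 (Or.inr ⟨rfl, rfl⟩)
  linarith

private theorem cnt_cards {n i : ℕ} (hD : Fintype.card D = 6 * n) (hin : i ≤ n)
    {P : Finset (D ⊕ Fin 6)} (hP : P.card = 6 * i) :
    Fintype.card {d // d ∈ P} = 6 * i ∧ Fintype.card {d // d ∈ Pᶜ} = 6 * (n + 1 - i) := by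
  constructor
  · rw [Fintype.card_coe, hP]
  · rw [Fintype.card_coe, Finset.card_compl, hP, Fintype.card_sum, hD, Fintype.card_fin]
    omega

private theorem cnt_fac {n i : ℕ} (hi : 1 ≤ i) (hin : i ≤ n) :
    ((2 * n).choose (2 * i - 1) : ℝ) * ((2 * i - 1).factorial : ℝ) *
      ((2 * (n + 1 - i) - 1).factorial : ℝ) = ((2 * n).factorial : ℝ) := by
  have h := Nat.choose_mul_factorial_mul_factorial (n := 2 * n) (k := 2 * i - 1) (by omega)
  rw [show 2 * n - (2 * i - 1) = 2 * (n + 1 - i) - 1 from by omega] at h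
  exact_mod_cast h

private theorem cnt_fac2 {i : ℕ} (hi : 1 ≤ i) :
    ((2 * i).factorial : ℝ) = 2 * i * ((2 * i - 1).factorial : ℝ) := by
  have h := Nat.mul_factorial_pred (n := 2 * i) (by omega)
  have h2 : ((2 * i : ℕ) : ℝ) * ((2 * i - 1).factorial : ℝ) = ((2 * i).factorial : ℝ) := by
    exact_mod_cast h
  rw [← h2]
  push_cast
  ring

theorem cnt4 {f : Perm D} (hf : TF f) {n : ℕ} (hn : 1 ≤ n) (hD : Fintype.card D = 6 * n)
    (v r p i u : ℕ) (hi : 1 ≤ i) (hin : i ≤ n) :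
    ((Bg f v r p i u).ncard : ℝ) * bc n v ≤
      432 * n * i * ((n + 1 - i : ℕ) : ℝ) * (r + 1) * ((TS f v).ncard : ℝ) *
        (bc i u * bc (n + 1 - i) (v + 3 - u)) := by
  obtain ⟨j, hj⟩ : ∃ j : ℕ, j = n + 1 - i := ⟨_, rfl⟩
  have hj1 : 1 ≤ j := by omega
  have hb1 : 0 ≤ bc i u := bc_nonneg _ _
  have hb2 : 0 ≤ bc j (v + 3 - u) := bc_nonneg _ _
  have hb3 : 0 ≤ bc n v := bc_nonneg _ _
  have h1 := bg_sum hf hD v r p i u hi (((2 * i).factorial : ℝ) * 3 ^ (2 * i) * bc i u)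
    (((2 * j).factorial : ℝ) * 3 ^ (2 * j) * bc j (v + 3 - u) * (r + 1))
    (by positivity) (by positivity) (by
      intro P hP hcl z
      have hc := (cnt_cards hD hin hP).1
      have e1 := xp_le (rst (fp f) P) u r z
      have e2 := ts_card (rst_tf (fp_tf hf) hcl) hc hi u
      have e3 : ((XP (rst (fp f) P) u r z).ncard : ℝ) ≤
          ((TS (rst (fp f) P) u).ncard : ℝ) * (Fintype.card {d // d ∈ P} : ℝ) := by
        exact_mod_cast e1
      rw [hc] at e3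
      push_cast at e3
      rw [e2] at e3
      exact e3) (by
      intro P hP hcl z
      have hc := (cnt_cards hD hin hP).2
      rw [← hj] at hc
      have e1 := yp_le (rst (fp f) Pᶜ) (v + 3 - u) r (p + 4) z
      have e2 := ts_card (rst_tf (fp_tf hf) (cl_compl hcl)) hc hj1 (v + 3 - u)
      have e3 : ((YP (rst (fp f) Pᶜ) (v + 3 - u) r (p + 4) z).ncard : ℝ) ≤
          ((TS (rst (fp f) Pᶜ) (v + 3 - u)).ncard : ℝ) * (Fintype.card {d // d ∈ Pᶜ} : ℝ) *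
            (r + 1) := by
        exact_mod_cast e1
      rw [hc] at e3
      push_cast at e3
      rw [e2] at e3
      exact e3)
  have h2 := ts_card hf hD hn v
  have h3 := cnt_fac hi hin
  rw [← hj] at h3 ⊢
  have h4 := cnt_fac2 hi
  have h5 := cnt_fac2 hj1
  have h6 : (3 : ℝ) ^ (2 * i) * 3 ^ (2 * j) = 9 * 3 ^ (2 * n) := by
    rw [← pow_add, show 2 * i + 2 * j = 2 * n + 2 from by omega, pow_add]
    ring
  calc ((Bg f v r p i u).ncard : ℝ) * bc n v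
      ≤ (2 * ((2 * n).choose (2 * i - 1) : ℝ) * ((((2 * i).factorial : ℝ) * 3 ^ (2 * i) * bc i u) *
        (((2 * j).factorial : ℝ) * 3 ^ (2 * j) * bc j (v + 3 - u) * (r + 1)))) * bc n v :=
        mul_le_mul_of_nonneg_right h1 hb3
    _ = 8 * i * j * (((2 * n).choose (2 * i - 1) : ℝ) * ((2 * i - 1).factorial : ℝ) *
        ((2 * j - 1).factorial : ℝ)) * ((3 : ℝ) ^ (2 * i) * 3 ^ (2 * j)) * bc n v *
        (r + 1) * (bc i u * bc j (v + 3 - u)) := by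
        rw [h4, h5]
        ring
    _ = 72 * i * j * (((2 * n).factorial : ℝ) * 3 ^ (2 * n) * bc n v) *
        (r + 1) * (bc i u * bc j (v + 3 - u)) := by
        rw [h3, h6]
        ring
    _ = 432 * n * i * (j : ℝ) * (r + 1) * ((TS f v).ncard : ℝ) *
        (bc i u * bc j (v + 3 - u)) := by
        rw [← h2]
        ring

theorem cnt5 {f : Perm D} (hf : TF f) {n : ℕ} (hn : 1 ≤ n) (hD : Fintype.card D = 6 * n)
    (v r p i : ℕ) (hi : 1 ≤ i) (hin : i ≤ n) :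
    ((Bg f v r p i (i + 2)).ncard : ℝ) * bc n v * ((n + 1 - i : ℕ) : ℝ) ≤
      2 * n * ((TS f v).ncard : ℝ) * ((UA39.LT r (2 * i - 1)).ncard : ℝ) * (r + 1) * (p + 4) *
        (v + 1) * bc (n + 1 - i) (v + 1 - i) := by
  obtain ⟨j, hj⟩ : ∃ j : ℕ, j = n + 1 - i := ⟨_, rfl⟩
  have hj1 : 1 ≤ j := by omega
  have hjr : (0 : ℝ) < j := by exact_mod_cast hj1
  have hv : v + 3 - (i + 2) = v + 1 - i := by omega
  have hb2 : 0 ≤ bc j (v + 1 - i) := bc_nonneg _ _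
  have hb3 : 0 ≤ bc n v := bc_nonneg _ _
  have h1 := bg_sum hf hD v r p i (i + 2) hi
    (((2 * i - 1).factorial : ℝ) * 3 ^ (2 * i - 1) * ((UA39.LT r (2 * i - 1)).ncard : ℝ))
    ((r + 1) * (p + 4) * (v + 1) * (((2 * j).factorial : ℝ) * 3 ^ (2 * j) * bc j (v + 1 - i)) /
      (36 * j ^ 2))
    (by positivity) (by positivity) (by
      intro P hP hcl z
      have hc := (cnt_cards hD hin hP).1
      exact_mod_cast xp_ps (rst_tf (fp_tf hf) hcl) hi hc r z) (by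
      intro P hP hcl z
      have hc := (cnt_cards hD hin hP).2
      rw [← hj] at hc
      rw [hv]
      have e1 := yp_sym (rst_tf (fp_tf hf) (cl_compl hcl)) (v + 1 - i) r (p + 4) z
      have e2 := ts_card (rst_tf (fp_tf hf) (cl_compl hcl)) hc hj1 (v + 1 - i)
      have e3 : ((YP (rst (fp f) Pᶜ) (v + 1 - i) r (p + 4) z).ncard : ℝ) * (6 * j) ≤
          (r + 1) * (p + 4) * (((TS (rst (fp f) Pᶜ) (v + 1 - i)).ncard : ℝ) *
            ((v + 1 - i : ℕ) : ℝ)) := by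
        rw [hc] at e1
        exact_mod_cast e1
      have e4 : ((v + 1 - i : ℕ) : ℝ) ≤ v + 1 := by
        have : v + 1 - i ≤ v + 1 := Nat.sub_le _ _
        exact_mod_cast this
      have e5 : ((TS (rst (fp f) Pᶜ) (v + 1 - i)).ncard : ℝ) * ((v + 1 - i : ℕ) : ℝ) ≤
          ((TS (rst (fp f) Pᶜ) (v + 1 - i)).ncard : ℝ) * (v + 1) :=
        mul_le_mul_of_nonneg_left e4 (Nat.cast_nonneg _)
      have e6 : (r + 1 : ℝ) * (p + 4) * (((TS (rst (fp f) Pᶜ) (v + 1 - i)).ncard : ℝ) *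
            ((v + 1 - i : ℕ) : ℝ)) ≤
          (r + 1 : ℝ) * (p + 4) * (((TS (rst (fp f) Pᶜ) (v + 1 - i)).ncard : ℝ) * (v + 1)) :=
        mul_le_mul_of_nonneg_left e5 (by positivity)
      rw [le_div_iff₀ (by positivity), ← e2]
      have e7 := mul_le_mul_of_nonneg_right (e3.trans e6) (show (0 : ℝ) ≤ 6 * j by positivity)
      calc ((YP (rst (fp f) Pᶜ) (v + 1 - i) r (p + 4) z).ncard : ℝ) * (36 * j ^ 2)
          = ((YP (rst (fp f) Pᶜ) (v + 1 - i) r (p + 4) z).ncard : ℝ) * (6 * j) * (6 * j) := by ring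
        _ ≤ _ := e7
        _ = _ := by ring)
  have h2 := ts_card hf hD hn v
  have h3 := cnt_fac hi hin
  rw [← hj] at h3 ⊢
  have h5 := cnt_fac2 hj1
  have h6 : (3 : ℝ) ^ (2 * i - 1) * 3 ^ (2 * j) = 3 * 3 ^ (2 * n) := by
    rw [← pow_add, show 2 * i - 1 + 2 * j = 2 * n + 1 from by omega, pow_succ]
    ring
  calc ((Bg f v r p i (i + 2)).ncard : ℝ) * bc n v * (j : ℝ)
      ≤ (2 * ((2 * n).choose (2 * i - 1) : ℝ) * ((((2 * i - 1).factorial : ℝ) * 3 ^ (2 * i - 1) *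
        ((UA39.LT r (2 * i - 1)).ncard : ℝ)) * ((r + 1) * (p + 4) * (v + 1) *
        (((2 * j).factorial : ℝ) * 3 ^ (2 * j) * bc j (v + 1 - i)) / (36 * j ^ 2)))) *
        bc n v * (j : ℝ) := by
        apply mul_le_mul_of_nonneg_right _ hjr.le
        exact mul_le_mul_of_nonneg_right h1 hb3
    _ = (1 / 9) * (((2 * n).choose (2 * i - 1) : ℝ) * ((2 * i - 1).factorial : ℝ) *
        ((2 * j - 1).factorial : ℝ)) * ((3 : ℝ) ^ (2 * i - 1) * 3 ^ (2 * j)) * bc n v *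
        ((UA39.LT r (2 * i - 1)).ncard : ℝ) * (r + 1) * (p + 4) * (v + 1) *
        bc j (v + 1 - i) := by
        rw [h5]
        field_simp
        ring
    _ = (1 / 3) * (((2 * n).factorial : ℝ) * 3 ^ (2 * n) * bc n v) *
        ((UA39.LT r (2 * i - 1)).ncard : ℝ) * (r + 1) * (p + 4) * (v + 1) *
        bc j (v + 1 - i) := by
        rw [h3, h6]
        ring
    _ = 2 * n * ((TS f v).ncard : ℝ) * ((UA39.LT r (2 * i - 1)).ncard : ℝ) * (r + 1) * (p + 4) *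
        (v + 1) * bc j (v + 1 - i) := by
        rw [← h2]
        ring

end QG1
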