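import Pool.Agent.H1.QG.Defs
import Pool.Agent.H40.QL.Bas

/-!
[H1 QG LOOP]  P186 (MP_bcc40c_pr, Q2, part G)  Every level edge has a triangular loop `Big1` of its two leftmost geodesics.

PROOF.  big1_ex: if `y` and `α y` are in the same cycle of `f * α` take `k = 0` (`lev`, `en0`; the other fields are vacuous).  Otherwise `0 < ℓ y` (at level 0: `Lab.zro` for `y, α y`; `ℓ (α y) = ℓ (f y) = ℓ y`, no
legs).  Let `a i = gs y i`, `b i = gs (α y) i`; gs_zero, gs_lev, gs_step (Bas): they are descending, `ℓ (a i) = ℓ (b i) = ℓ y - i`, leftmost.  Let `m ≥ 1` be the least number with `m ≤ ℓ y` and `α (a (m-1))`, `α (b (m-1))` in the same cycle: `m = ℓ y` has this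
property (both have the level `ℓ (f (a (m-1))) = 0`, Lab.zro), use Nat.find.  `k = m`: sp0 is the case assumption; sep: for `1 ≤ i < k` `a i` is in the cycle of `α (a (i-1))` (gs_step, fst_same), `b i` in the one of `α (b (i-1))`, so `SameCycle (a i) (b i)` would contradict the minimality of `m` at `i`; en.
big1_gs: induction on `i`: `fst_unique` (HG/LabBasic), fs_eq: `gs y 0 = fs y`, `gs y (i+1) = fs (α (gs y i))`.
big1_lev: induction: `ℓ (a 0) = ℓ y` (fst_lev), `ℓ (a (i+1)) = ℓ (α (a i)) = ℓ (f (a i)) = ℓ (a i) - 1`; for `b`: `ℓ (α y) = ℓ (f y) = ℓ y`.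
big1_le: `k ≤ ℓ y`: for `k = 0`: `0 ≤ ℓ y`; otherwise `ℓ (f (a (k-1))) = ℓ y - k ≥ 0`.
-/

set_option autoImplicit false

namespace QG1

open Equiv HG39 QD39 QL40

variable {D : Type} [Fintype D] [DecidableEq D]

omit [Fintype D] [DecidableEq D] in
private theorem loop_leg {f α : Perm D} (h : PT f α []) (d : D) : α d ≠ d := by
  intro h1
  have h2 := (h.leg d).1 h1
  simp [tri] at h2

theorem big1_ex {f α : Perm D} {ℓ : D → ℤ} (hf : TF f) (hα : PT f α []) (hl : Lab f α ℓ) (y : D)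
    (hy : ℓ (f y) = ℓ y) :
    ∃ k : ℕ, Big1 f α ℓ y k (gs f α ℓ y) (gs f α ℓ (α y)) := by
  classical
  have hn : ∀ d, α d ≠ d := loop_leg hα
  have hya : ℓ (α y) = ℓ y := by rw [← hl.ver y (hn y), hy]
  by_cases hs : (f * α).SameCycle y (α y)
  · exact ⟨0, hy, fun i hi => absurd hi (Nat.not_lt_zero _),
      fun i hi => absurd hi (Nat.not_lt_zero _), fun h => absurd h (Nat.not_lt_zero _),
      fun h => absurd h (Nat.not_lt_zero _), fun i hi => absurd hi (Nat.not_lt_zero _),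
      fun i hi => absurd hi (Nat.not_lt_zero _), fun h => absurd h (Nat.not_lt_zero _),
      fun i _ hi => absurd hi (Nat.not_lt_zero _), fun _ => hs,
      fun h => absurd h (Nat.not_lt_zero _)⟩
  · have hpos : 0 < ℓ y := by
      rcases lt_or_eq_of_le (hl.nn y (hn y)) with h | h
      · exact h
      · exact absurd (hl.zro y (α y) (hn y) (hn _) h.symm (by rw [hya]; exact h.symm)) hs
    have hposa : 0 < ℓ (α y) := by rw [hya]; exact hpos
    obtain ⟨L, hL⟩ := Int.eq_ofNat_of_zero_le hpos.le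
    have hL1 : 1 ≤ L := by omega
    have ha : ∀ i, i < L → Desc f ℓ (gs f α ℓ y i) ∧ ℓ (gs f α ℓ y i) = ℓ y - i :=
      fun i hi => gs_lev hf hα hl y i (by omega)
    have hb : ∀ i, i < L → Desc f ℓ (gs f α ℓ (α y) i) ∧ ℓ (gs f α ℓ (α y) i) = ℓ (α y) - i :=
      fun i hi => gs_lev hf hα hl (α y) i (by omega)
    have hsa : ∀ i, i + 1 < L → Fst f α ℓ (α (gs f α ℓ y i)) (gs f α ℓ y (i + 1)) :=
      fun i hi => gs_step hf hα hl y i (by omega)
    have hsb : ∀ i, i + 1 < L → Fst f α ℓ (α (gs f α ℓ (α y) i)) (gs f α ℓ (α y) (i + 1)) :=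
      fun i hi => gs_step hf hα hl (α y) i (by omega)
    have hex : ∃ m, 1 ≤ m ∧ m ≤ L ∧
        (f * α).SameCycle (α (gs f α ℓ y (m - 1))) (α (gs f α ℓ (α y) (m - 1))) := by
      refine ⟨L, hL1, le_rfl, hl.zro _ _ (hn _) (hn _) ?_ ?_⟩
      · obtain ⟨h1, h2⟩ := ha (L - 1) (by omega)
        have h3 : ℓ (f (gs f α ℓ y (L - 1))) = ℓ (gs f α ℓ y (L - 1)) - 1 := h1
        have h4 := hl.ver (gs f α ℓ y (L - 1)) (hn _)
        omega
      · obtain ⟨h1, h2⟩ := hb (L - 1) (by omega)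
        have h3 : ℓ (f (gs f α ℓ (α y) (L - 1))) = ℓ (gs f α ℓ (α y) (L - 1)) - 1 := h1
        have h4 := hl.ver (gs f α ℓ (α y) (L - 1)) (hn _)
        omega
    obtain ⟨k, ⟨hk1, hkL, hke⟩, hmin⟩ : ∃ k, (1 ≤ k ∧ k ≤ L ∧
        (f * α).SameCycle (α (gs f α ℓ y (k - 1))) (α (gs f α ℓ (α y) (k - 1)))) ∧
        ∀ m < k, ¬ (1 ≤ m ∧ m ≤ L ∧
        (f * α).SameCycle (α (gs f α ℓ y (m - 1))) (α (gs f α ℓ (α y) (m - 1)))) :=
      ⟨Nat.find hex, Nat.find_spec hex, fun m hm => Nat.find_min hex hm⟩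
    refine ⟨k, hy, fun i hi => (ha i (by omega)).1, fun i hi => (hb i (by omega)).1,
      fun _ => gs_zero hf hα hl y hpos, fun _ => gs_zero hf hα hl (α y) hposa,
      fun i hi => hsa i (by omega), fun i hi => hsb i (by omega), fun _ => hs, ?_,
      fun h => absurd h (by omega), fun _ => hke⟩
    intro i h1 h2 hsc
    obtain ⟨j, rfl⟩ : ∃ j, i = j + 1 := ⟨i - 1, by omega⟩
    refine hmin (j + 1) h2 ⟨h1, by omega, ?_⟩
    have h3 := fst_same hα.inv (hsa j (by omega))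
    have h4 := fst_same hα.inv (hsb j (by omega))
    rw [Nat.add_sub_cancel]
    exact h3.trans (hsc.trans h4.symm)

theorem big1_gs {f α : Perm D} {ℓ : D → ℤ} {y : D} {k : ℕ} {a b : ℕ → D}
    (hB : Big1 f α ℓ y k a b) (i : ℕ) (hi : i < k) :
    a i = gs f α ℓ y i ∧ b i = gs f α ℓ (α y) i := by
  induction i with
  | zero => exact ⟨(fs_eq (hB.fa hi)).symm, (fs_eq (hB.fb hi)).symm⟩
  | succ i ih =>
    obtain ⟨h1, h2⟩ := ih (by omega)
    have h3 := fs_eq (hB.na i hi)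
    have h4 := fs_eq (hB.nb i hi)
    refine ⟨?_, ?_⟩
    · show a (i + 1) = fs f α ℓ (α (gs f α ℓ y i))
      rw [← h1, h3]
    · show b (i + 1) = fs f α ℓ (α (gs f α ℓ (α y) i))
      rw [← h2, h4]

theorem big1_lev {f α : Perm D} {ℓ : D → ℤ} (hl : Lb f α ℓ) {y : D} {k : ℕ} {a b : ℕ → D}
    (hB : Big1 f α ℓ y k a b) (i : ℕ) (hi : i < k) :
    ℓ (a i) = ℓ y - i ∧ ℓ (b i) = ℓ y - i ∧ ℓ (α (a i)) = ℓ y - i - 1 ∧ ℓ (α (b i)) = ℓ y - i - 1 := by
  have hya : ℓ (α y) = ℓ y := by rw [← hl.ver y, hB.lev]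
  have hda : ∀ i < k, ℓ (α (a i)) = ℓ (a i) - 1 := by
    intro i hi
    have h1 : ℓ (f (a i)) = ℓ (a i) - 1 := hB.da i hi
    rw [← hl.ver, h1]
  have hdb : ∀ i < k, ℓ (α (b i)) = ℓ (b i) - 1 := by
    intro i hi
    have h1 : ℓ (f (b i)) = ℓ (b i) - 1 := hB.db i hi
    rw [← hl.ver, h1]
  have key : ∀ i < k, ℓ (a i) = ℓ y - i ∧ ℓ (b i) = ℓ y - i := by
    intro i
    induction i with
    | zero =>
      intro hi
      have h1 := fst_lev hl (hB.fa hi)
      have h2 := fst_lev hl (hB.fb hi)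
      rw [h1, h2, hya]
      push_cast
      omega
    | succ i ih =>
      intro hi
      obtain ⟨h1, h2⟩ := ih (by omega)
      have h3 := fst_lev hl (hB.na i hi)
      have h4 := fst_lev hl (hB.nb i hi)
      rw [hda i (by omega), h1] at h3
      rw [hdb i (by omega), h2] at h4
      rw [h3, h4]
      push_cast
      omega
  obtain ⟨h1, h2⟩ := key i hi
  refine ⟨h1, h2, ?_, ?_⟩
  · rw [hda i hi, h1]
  · rw [hdb i hi, h2]

theorem big1_le {f α : Perm D} {ℓ : D → ℤ} (hl : Lb f α ℓ) (h0 : ∀ d, 0 ≤ ℓ d) {y : D} {k : ℕ}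
    {a b : ℕ → D} (hB : Big1 f α ℓ y k a b) : (k : ℤ) ≤ ℓ y := by
  cases k with
  | zero =>
    push_cast
    exact h0 y
  | succ k =>
    have h1 := (big1_lev hl hB k (Nat.lt_succ_self k)).2.2.1
    have h2 := h0 (α (a k))
    push_cast
    omega

end QG1
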