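import Pool.Agent.H1.QG.Defs
import Pool.Agent.H40.QL.Swg

/-!
[H1 QG TWO]  P186 (MP_bcc40c_pr, Q2, part G)  A disconnected cut map has exactly two components.

PROOF.  cp_compl: `f` maps the finite set `P` injectively into itself, so onto itself; so `f` maps the complement into the complement (`Finset.map`/`image_eq` and cards); the same for `α`.
not_pt: `PT.con` is the only field which can fail (`inv`, `leg`: `tri f [] = []` and no fixed points, `ndp` trivial); take `P = {d | S d}` for the predicate `S` (`Finset.univ.filter`, Classical).  pt_not: `con` for `S d = d ∈ P`.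
sw_two: as in the header of QL/Swp: by sw_geo and fst_same (for `α' = sw α a b k`, `sw_inv`): `α' (a i) = α (b i)` (sw_val) and `a (i+1)` are in the same cycle of `f * α'`, for `i + 1 < k`, and `P` is closed under `f * α'` in both directions (cp_compl); so `a (i+1) ∈ P ↔ α (b i) ∈ P ↔ a i ∈ P`.  So all `a i`, `α (b i)` are in `P` or
none; the same for `b i`, `α (a i)`.  If `a 0 ∈ P ↔ b 0 ∈ P` then `P` is closed under `α`, too (special darts: all in `P` or none; the other darts: `α d = α' d`), which contradicts the connectedness of `α` (`hα.con`, `ne`, `pr`).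
sw_comp: `P ∩ Q` and `P \ Q` are closed under `f`, `α'` (cp_compl for `Q`).  If `P ∩ Q` and `P \ Q` are both nonempty, they are both proper, so by sw_two (with `i = 0`; `0 < k` by `hB.kp`) each contains exactly one of `a 0`, `b 0`; so `a 0, b 0 ∈ P`, contradicting sw_two for `P`.  So `P ⊆ Q` or `P ∩ Q = ∅`; the same with
`P` replaced by its complement (which is `Cp`) : `Pᶜ ⊆ Q` or `Pᶜ ∩ Q = ∅`.  Combine: `Q = P`, or `Q = Pᶜ`, or `Q = univ`, or `Q = ∅`.
-/

set_option autoImplicit false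

namespace QG1

open Equiv HG39 QD39 QL40

variable {D : Type} [Fintype D] [DecidableEq D]

omit [Fintype D] [DecidableEq D] in
private theorem two_leg {f α : Perm D} (h : PT f α []) (d : D) : α d ≠ d := by
  intro h1
  have h2 := (h.leg d).1 h1
  simp [tri] at h2

omit [Fintype D] in
private theorem tw_iff {π : Perm D} {P : Finset D} (h : ∀ d ∈ P, π d ∈ P) (d : D) :
    π d ∈ P ↔ d ∈ P := by
  refine ⟨fun hd => ?_, h d⟩
  have h1 : P.image π ⊆ P := by
    intro e he
    obtain ⟨e', he', rfl⟩ := Finset.mem_image.1 he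
    exact h e' he'
  have h2 : P.image π = P := Finset.eq_of_subset_of_card_le h1
    (by rw [Finset.card_image_of_injective _ π.injective])
  rw [← h2] at hd
  obtain ⟨e, he, hed⟩ := Finset.mem_image.1 hd
  rw [← π.injective hed]
  exact he

theorem cp_compl {f α : Perm D} {P : Finset D} (hP : Cp f α P) : Cp f α Pᶜ := by
  refine ⟨?_, ?_, ?_, ?_⟩
  · intro d hd
    rw [Finset.mem_compl] at hd ⊢
    rwa [tw_iff hP.ff]
  · intro d hd
    rw [Finset.mem_compl] at hd ⊢
    rwa [tw_iff hP.aa]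
  · obtain ⟨d, hd⟩ : ∃ d, d ∉ P := by
      by_contra hc
      push Not at hc
      exact hP.pr (Finset.eq_univ_iff_forall.2 hc)
    exact ⟨d, Finset.mem_compl.2 hd⟩
  · intro h
    obtain ⟨d, hd⟩ := hP.ne
    have h1 : d ∈ Pᶜ := by
      rw [h]
      exact Finset.mem_univ d
    exact Finset.mem_compl.1 h1 hd

theorem not_pt {f α : Perm D} (hi : ∀ d, α (α d) = d) (hn : ∀ d, α d ≠ d)
    (h : ¬ PT f α []) : ∃ P : Finset D, Cp f α P := by
  classical
  by_contra hcon
  apply h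
  refine ⟨hi, fun d => ⟨fun h1 => absurd h1 (hn d), fun h1 => ?_⟩, by simp [tri], ?_⟩
  · simp [tri] at h1
  · rintro S ⟨d0, _, h0⟩ h1 h2 d _
    by_contra hd
    refine hcon ⟨Finset.univ.filter fun e => S e, ?_, ?_, ?_, ?_⟩
    · intro e he
      rw [Finset.mem_filter] at he ⊢
      exact ⟨Finset.mem_univ _, h1 e he.2⟩
    · intro e he
      rw [Finset.mem_filter] at he ⊢
      exact ⟨Finset.mem_univ _, h2 e he.2⟩
    · exact ⟨d0, Finset.mem_filter.2 ⟨Finset.mem_univ _, h0⟩⟩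
    · intro he
      have h3 : d ∈ Finset.univ.filter fun e => S e := by
        rw [he]
        exact Finset.mem_univ d
      exact hd (Finset.mem_filter.1 h3).2

theorem pt_not {f α : Perm D} (h : PT f α []) {P : Finset D} (hP : Cp f α P) : False := by
  obtain ⟨d0, hd0⟩ := hP.ne
  apply hP.pr
  rw [Finset.eq_univ_iff_forall]
  intro d
  exact h.con (fun e => e ∈ P) ⟨d0, two_leg h d0, hd0⟩ hP.ff hP.aa d (two_leg h d)

theorem sw_two {f α : Perm D} {ℓ : D → ℤ} {k : ℕ} {a b : ℕ → D} (hα : PT f α [])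
    (hl : Lb f α ℓ) (hB : Big f α ℓ k a b) {P : Finset D} (hP : Cp f (sw α a b k) P) (i : ℕ)
    (hi : i < k) :
    (a i ∈ P ↔ a 0 ∈ P) ∧ (α (b i) ∈ P ↔ a 0 ∈ P) ∧ (b i ∈ P ↔ a 0 ∉ P) ∧
      (α (a i) ∈ P ↔ a 0 ∉ P) := by
  have hi0 := hl.inv
  have hi' : ∀ d, sw α a b k (sw α a b k d) = d := sw_inv hi0 a b k
  obtain ⟨hv, hv'⟩ := sw_val hl hB
  have hPf : ∀ d, f d ∈ P ↔ d ∈ P := fun d => tw_iff hP.ff d
  have hPa : ∀ d, sw α a b k d ∈ P ↔ d ∈ P := fun d => tw_iff hP.aa d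
  have hPs : ∀ x y, (f * sw α a b k).SameCycle x y → (x ∈ P ↔ y ∈ P) := fun x y h =>
    zs_ind (f * sw α a b k) (fun x y => (x ∈ P ↔ y ∈ P)) (fun _ => Iff.rfl)
      (fun _ _ _ h1 h2 => h1.trans h2) (fun x => by rw [Perm.mul_apply, hPf, hPa]) h
  have hpab : ∀ i < k, (a i ∈ P ↔ a 0 ∈ P) ∧ (b i ∈ P ↔ b 0 ∈ P) := by
    intro i
    induction i with
    | zero => intro _; exact ⟨Iff.rfl, Iff.rfl⟩
    | succ i ih =>
      intro hik
      obtain ⟨h1, h2⟩ := ih (by omega)
      obtain ⟨h3, h4⟩ := sw_geo hl hB i hik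
      have h5 := hPs _ _ (fst_same hi' h3)
      have h6 := hPs _ _ (fst_same hi' h4)
      rw [hPa] at h5 h6
      exact ⟨h5.symm.trans h1, h6.symm.trans h2⟩
  have hαb : ∀ i < k, (α (b i) ∈ P ↔ a i ∈ P) ∧ (α (a i) ∈ P ↔ b i ∈ P) := by
    intro i hi
    obtain ⟨h1, h2, -, -⟩ := hv i hi
    rw [← h1, ← h2, hPa, hPa]
    exact ⟨Iff.rfl, Iff.rfl⟩
  have hkey : b 0 ∈ P ↔ a 0 ∉ P := by
    by_contra hc
    have hab : b 0 ∈ P ↔ a 0 ∈ P := by tauto
    refine pt_not hα (P := P) ⟨hP.ff, ?_, hP.ne, hP.pr⟩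
    intro d hd
    by_cases hsp : ∀ i < k, d ≠ a i ∧ d ≠ b i ∧ d ≠ α (a i) ∧ d ≠ α (b i)
    · rw [← hv' d hsp, hPa]
      exact hd
    · push Not at hsp
      obtain ⟨j, hj, h1⟩ := hsp
      obtain ⟨h2, h3⟩ := hpab j hj
      obtain ⟨h4, h5⟩ := hαb j hj
      by_cases e1 : d = a j
      · rw [e1] at hd ⊢
        exact h5.2 (h3.2 (hab.2 (h2.1 hd)))
      · by_cases e2 : d = b j
        · rw [e2] at hd ⊢
          exact h4.2 (h2.2 (hab.1 (h3.1 hd)))
        · by_cases e3 : d = α (a j)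
          · rw [e3] at hd ⊢
            rw [hi0]
            exact h2.2 (hab.1 (h3.1 (h5.1 hd)))
          · have e4 := h1 e1 e2 e3
            rw [e4] at hd ⊢
            rw [hi0]
            exact h3.2 (hab.2 (h2.1 (h4.1 hd)))
  obtain ⟨h1, h2⟩ := hpab i hi
  obtain ⟨h3, h4⟩ := hαb i hi
  exact ⟨h1, h3.trans h1, h2.trans hkey, h4.trans (h2.trans hkey)⟩

theorem sw_comp {f α : Perm D} {ℓ : D → ℤ} {k : ℕ} {a b : ℕ → D} (hα : PT f α [])
    (hl : Lb f α ℓ) (hB : Big f α ℓ k a b) {P Q : Finset D} (hP : Cp f (sw α a b k) P)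
    (hQ : Cp f (sw α a b k) Q) : Q = P ∨ Q = Pᶜ := by
  have hone : ∀ R : Finset D, Cp f (sw α a b k) R → (b 0 ∈ R ↔ a 0 ∉ R) := fun R hR =>
    (sw_two hα hl hB hR 0 hB.kp).2.2.1
  have hcap : ∀ R S : Finset D, Cp f (sw α a b k) R → Cp f (sw α a b k) S →
      (R ∩ S).Nonempty → Cp f (sw α a b k) (R ∩ S) := by
    intro R S hR hS hne
    refine ⟨?_, ?_, hne, ?_⟩
    · intro d hd
      obtain ⟨h1, h2⟩ := Finset.mem_inter.1 hd
      exact Finset.mem_inter.2 ⟨hR.ff d h1, hS.ff d h2⟩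
    · intro d hd
      obtain ⟨h1, h2⟩ := Finset.mem_inter.1 hd
      exact Finset.mem_inter.2 ⟨hR.aa d h1, hS.aa d h2⟩
    · intro h
      apply hR.pr
      rw [Finset.eq_univ_iff_forall]
      intro d
      have h1 : d ∈ R ∩ S := by
        rw [h]
        exact Finset.mem_univ d
      exact (Finset.mem_inter.1 h1).1
  have hsplit : ∀ R S : Finset D, Cp f (sw α a b k) R → Cp f (sw α a b k) S →
      (∀ d ∈ R, d ∈ S) ∨ (∀ d ∈ R, d ∉ S) := by
    intro R S hR hS
    by_contra hc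
    rw [not_or] at hc
    obtain ⟨h1, h2⟩ := hc
    push Not at h1 h2
    obtain ⟨d1, h3, h4⟩ := h1
    obtain ⟨d2, h5, h6⟩ := h2
    have h7 := hone _ (hcap R S hR hS ⟨d2, Finset.mem_inter.2 ⟨h5, h6⟩⟩)
    have h8 := hone _ (hcap R Sᶜ hR (cp_compl hS)
      ⟨d1, Finset.mem_inter.2 ⟨h3, Finset.mem_compl.2 h4⟩⟩)
    have h9 := hone R hR
    rw [Finset.mem_inter, Finset.mem_inter] at h7 h8
    rw [Finset.mem_compl, Finset.mem_compl] at h8
    tauto
  obtain ⟨p0, hp0⟩ := hP.ne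
  obtain ⟨q0, hq0⟩ := hQ.ne
  rcases hsplit P Q hP hQ with h1 | h1
  · left
    rcases hsplit Q P hQ hP with h2 | h2
    · exact Finset.Subset.antisymm h2 h1
    · exact absurd hp0 (h2 p0 (h1 p0 hp0))
  · right
    rcases hsplit Pᶜ Q (cp_compl hP) hQ with h2 | h2
    · refine Finset.Subset.antisymm ?_ h2
      intro d hd
      rw [Finset.mem_compl]
      intro hdP
      exact h1 d hdP hd
    · exfalso
      by_cases h3 : q0 ∈ P
      · exact h1 q0 h3 hq0
      · exact h2 q0 (Finset.mem_compl.2 h3) hq0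

end QG1
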