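import Pool.Agent.H1.QG.CutG
import Pool.Agent.H40.QL.Phi
import Pool.Agent.H1.QG.Two
import Pool.Agent.H1.QG.Loop
import Pool.Agent.H40.QL.DigB

/-!
[H1 QG COAL]  P186 (MP_bcc40c_pr, Q2, part G)  If the cut map is disconnected then the two geodesics coalesce.

coal0 (general bigon `a, b` of `(f, α)`, root `x0` of level 0): let `w1 = α (a (k-1))`, `w2 = α (b (k-1))` (the same vertex, `en`), and suppose `0 < ℓ w1` and that `sw α a b k` is disconnected.  Then for every `δ`: `Fst f α ℓ w1 δ ↔ Fst f α ℓ w2 δ`.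

PROOF of coal0.  `σ = f α`, `ρ = α f⁻¹ = σ⁻¹` (rho_inv of HG/LabA), `α' = sw α a b k`, `σ' = f α'`.  `w1 ≠ w2` (big_dist), `σ' w1 = f (α' w1) = f (b (k-1)) = f (α w2) = σ w2`, `σ' w2 = σ w1` (sw_val), and `σ' d = σ d` for all other darts `d` of level `ℓ w1` (the special darts of this level are only `w1, w2`: big_lev).
Let `m ≥ 1` be minimal with `σ^m w1 = w2` (`en`), `m' ≥ 1` minimal with `σ^m' w2 = w1`.  Arcs: `A1 = {σ w1, ..., σ^m w1 = w2}`, `A2 = {σ w2, ..., σ^m' w2 = w1}`.  `A1` is a cycle of `σ'` (`σ' w2 = σ w1`), `A2` too.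
Claim: `A1` or `A2` contains no descending dart.  Otherwise every `σ'`-cycle except the one of `x0` contains a descending dart: proof as in QL/Swr: a `σ'`-cycle without special darts is a `σ`-cycle; it has a descending dart or contains `x0` (`hr`); a `σ'`-cycle which contains `a i`, `b i`: clear; `α (a i)`, `α (b i)` with `i + 1 < k`: clear by sw_geo, fst_same;
`w1 ∈ A2`, `w2 ∈ A1`: by assumption.  [And `x0` is not in the cycle of `w1` because its level is 0.]  Now let `Q` be `P` or its complement (cp_compl), the one which does not contain `x0`.  Take `d ∈ Q` with minimal `ℓ d` (nonempty).  Its `σ'`-cycle is in `Q`, so it does not contain `x0`, so it contains a descending dart `d'`, `f d' ∈ Q`, `ℓ (f d') < ℓ d`: contradiction.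
Suppose `A2` contains no descending dart (the other case is symmetric, exchange `a` and `b`).  `ρ^j w1 = σ^(m'-j) w2` for `j < m'` are in `A2`, and `ρ^m' w1 = w2`.  So a path of non descending darts from `w1` of length `t` to a descending dart has `t ≥ m'`, and `Fst w1 δ ↔ Fst w2 δ` (shift by `m'`; `pth_trans`).

PROOF of coal.  Let `ℓ = dlab f q.1 q.2`, `L = sl f q y`, `α = q.1`, `α⁺ = ap α y`, `r = ℓ y`.
Case `k = r`: by ph_tail (Phi; `k ≥ 1`, with `k - 1`; `a i = gs y i`, `b i = gs (α y) i` by big1_gs) `Ph y = Σ_{i<k} c (a i) + Ph (α (a (k-1)))` and the last term is 0 (level 0: ph_zero); the same for `α y` (`ℓ (α y) = ℓ y`).  If `k = 0 = r`: both `Ph` are 0 (ph_zero).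
Case `k < r` (`k ≤ r`: cut_big).  Apply coal0 to `F = fp f`, `α⁺`, `L`, `k + 1`, `ca a`, `cb b`, `x0 = inl x` (cut_pt0, cut_big, `hP`): the level of `w1` is `r - k > 0`.
 `k = 0`: `w1 = α⁺ (inr 5) = inr 1`, `w2 = α⁺ (inr 2) = inr 4`.  Let `δ1 = gs y 0`, `δ2 = gs (α y) 0` (`Fst f α ℓ y δ1`, gs_zero).  ap_fst1: `Fst F α⁺ L (inr 1) (inl δ1)`, ap_fst4: `Fst .. (inr 4) (inl δ2)`, coal0 and fst_unique: `δ1 = δ2`.  So `gs y i = gs (α y) i` for all `i` and `Ph y = Ph (α y)` (same level); `x + x = 0`.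
 `k ≥ 1`: `w1 = α⁺ (inl (a (k-1))) = inl (α (a (k-1)))` (ap_val), `w2 = inl (α (b (k-1)))`.  `z1 = α (a (k-1))`, `z2 = α (b (k-1))`, level `r - k > 0`; `δ1 = gs z1 0`, `δ2 = gs z2 0`; ap_fst for both; coal0: `δ1 = δ2`; so `gs z1 i = gs z2 i` and `Ph z1 = Ph z2`; ph_tail for `y` and `α y` with `k - 1`; the last terms cancel.
-/

set_option autoImplicit false

namespace QG1

open Equiv HG39 QD39 QL40

variable {D : Type} [Fintype D] [DecidableEq D]

private theorem co_cyc {σ σ' : Perm D} {S : D → Prop} (hS : ∀ x, S x → σ' x = σ x) {d : D}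
    (h : ∀ y, σ'.SameCycle d y → S y) {y : D} (hy : σ.SameCycle d y) : σ'.SameCycle d y := by
  have h1 : ∀ n : ℕ, (σ' ^ n) d = (σ ^ n) d := by
    intro n
    induction n with
    | zero => rfl
    | succ n ih =>
      have h2 : S ((σ' ^ n) d) := h _ ⟨(n : ℤ), by rw [zpow_natCast]⟩
      rw [pow_succ', pow_succ', Perm.mul_apply, Perm.mul_apply, hS _ h2, ih]
  obtain ⟨n, _, hn⟩ := hy.exists_pow_eq'
  exact ⟨(n : ℤ), by rw [zpow_natCast, h1, hn]⟩

/-- an arc of a cycle is a path of the inverse permutation -/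
private theorem co_arc {σ σ' : Perm D} {N : D → Prop} {w1 w2 : D} (hs : σ.SameCycle w2 w1)
    (h12 : σ' w1 = σ w2)
    (hag : ∀ x, σ.SameCycle w2 x → x ≠ w1 → x ≠ w2 → σ' x = σ x)
    (hN : ∀ x, σ'.SameCycle w1 x → N x) : Pth σ⁻¹ N w1 w2 := by
  classical
  have hex : ∃ m : ℕ, 1 ≤ m ∧ (σ ^ m) w2 = w1 := by
    obtain ⟨n, hn0, _, hn⟩ := hs.exists_pow_eq''
    exact ⟨n, hn0, hn⟩
  obtain ⟨m, ⟨hm1, hm2⟩, hmin⟩ : ∃ m, (1 ≤ m ∧ (σ ^ m) w2 = w1) ∧
      ∀ j < m, ¬ (1 ≤ j ∧ (σ ^ j) w2 = w1) :=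
    ⟨Nat.find hex, Nat.find_spec hex, fun j hj => Nat.find_min hex hj⟩
  have key : ∀ j, 1 ≤ j → j ≤ m → σ'.SameCycle w1 ((σ ^ j) w2) := by
    intro j
    induction j with
    | zero => intro h; omega
    | succ j ih =>
      intro _ hj
      rcases Nat.eq_zero_or_pos j with h0 | h0
      · subst h0
        rw [zero_add, pow_one, ← h12]
        exact ⟨1, by rw [zpow_one]⟩
      · have h1 := ih h0 (by omega)
        have h2 : (σ ^ j) w2 ≠ w1 := fun h => hmin j (by omega) ⟨h0, h⟩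
        have h3 : (σ ^ j) w2 ≠ w2 := by
          intro h
          apply hmin (m - j) (by omega)
          refine ⟨by omega, ?_⟩
          have h4 : (σ ^ (m - j + j)) w2 = w1 := by
            rw [Nat.sub_add_cancel (by omega)]
            exact hm2
          rw [pow_add, Perm.mul_apply, h] at h4
          exact h4
        have h5 := hag _ ⟨(j : ℤ), by rw [zpow_natCast]⟩ h2 h3
        rw [pow_succ', Perm.mul_apply, ← h5]
        exact h1.trans ⟨1, by rw [zpow_one]⟩
  have hpow : ∀ j ≤ m, (σ⁻¹ ^ j) w1 = (σ ^ (m - j)) w2 := by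
    intro j hj
    rw [inv_pow, Perm.inv_eq_iff_eq, ← Perm.mul_apply, ← pow_add]
    rw [show j + (m - j) = m by omega]
    exact hm2.symm
  refine ⟨m, by rw [hpow m le_rfl, Nat.sub_self, pow_zero, Perm.one_apply], fun j hj => ?_⟩
  rw [hpow j hj.le]
  exact hN _ (key (m - j) (by omega) (by omega))

omit [Fintype D] [DecidableEq D] in
private theorem co_fst {f α : Perm D} {ℓ : D → ℤ} {w1 w2 : D}
    (hp : Pth (α * f⁻¹) (fun z => ¬ Desc f ℓ z) w1 w2) (δ : D) :
    Fst f α ℓ w1 δ ↔ Fst f α ℓ w2 δ := by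
  obtain ⟨m, hm, hmN⟩ := hp
  have key : ∀ i, ((α * f⁻¹) ^ (i + m)) w1 = ((α * f⁻¹) ^ i) w2 := by
    intro i
    rw [pow_add, Perm.mul_apply, hm]
  constructor
  · rintro ⟨hd, t, ht, htN⟩
    have hmt : m ≤ t := by
      by_contra hc
      exact hmN t (by omega) (ht ▸ hd)
    obtain ⟨s, rfl⟩ : ∃ s, t = s + m := ⟨t - m, by omega⟩
    rw [key] at ht
    refine ⟨hd, s, ht, fun j hj => ?_⟩
    rw [← key]
    exact htN _ (by omega)
  · rintro ⟨hd, t, ht, htN⟩
    refine ⟨hd, t + m, by rw [key]; exact ht, fun j hj => ?_⟩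
    rcases lt_or_ge j m with h | h
    · exact hmN j h
    · obtain ⟨i, rfl⟩ : ∃ i, j = i + m := ⟨j - m, by omega⟩
      rw [key]
      exact htN i (by omega)

private theorem co_claim {f α : Perm D} {ℓ : D → ℤ} {k : ℕ} {a b : ℕ → D}
    (hl : Lb f α ℓ) (hB : Big f α ℓ k a b) (x0 : D) (hr : Rt f α ℓ x0 x0) (d : D) :
    (∃ d', (f * sw α a b k).SameCycle d d' ∧ Desc f ℓ d') ∨
      (f * sw α a b k).SameCycle d (α (a (k - 1))) ∨
      (f * sw α a b k).SameCycle d (α (b (k - 1))) ∨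
      (f * sw α a b k).SameCycle d x0 := by
  have hi := hl.inv
  have hi' : ∀ d, sw α a b k (sw α a b k d) = d := sw_inv hi a b k
  obtain ⟨hv, hv'⟩ := sw_val hl hB
  have hk := hB.kp
  have hS : ∀ x : D, (∀ i < k, x ≠ a i ∧ x ≠ b i ∧ x ≠ α (a i) ∧ x ≠ α (b i)) →
      (f * sw α a b k) x = (f * α) x := by
    intro x hx
    rw [Perm.mul_apply, Perm.mul_apply, hv' x hx]
  by_cases hns : ∀ y, (f * sw α a b k).SameCycle d y →
      ∀ i < k, y ≠ a i ∧ y ≠ b i ∧ y ≠ α (a i) ∧ y ≠ α (b i)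
  · rcases hr d with h | h | ⟨d', h, hd'⟩
    · exact Or.inr (Or.inr (Or.inr (co_cyc hS hns h)))
    · exact Or.inr (Or.inr (Or.inr (co_cyc hS hns h)))
    · exact Or.inl ⟨d', co_cyc hS hns h, hd'⟩
  · push Not at hns
    obtain ⟨y, hy, i, hik, h2⟩ := hns
    by_cases e1 : y = a i
    · exact Or.inl ⟨a i, e1 ▸ hy, hB.da i hik⟩
    by_cases e2 : y = b i
    · exact Or.inl ⟨b i, e2 ▸ hy, hB.db i hik⟩
    by_cases e3 : y = α (a i)
    · by_cases hik' : i + 1 < k
      · have h3 := fst_same hi' (sw_geo hl hB i hik').2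
        rw [(hv i hik).2.1] at h3
        exact Or.inl ⟨b (i + 1), (e3 ▸ hy).trans h3, hB.db _ hik'⟩
      · have e : i = k - 1 := by omega
        subst e
        exact Or.inr (Or.inl (e3 ▸ hy))
    · have e4 := h2 e1 e2 e3
      by_cases hik' : i + 1 < k
      · have h3 := fst_same hi' (sw_geo hl hB i hik').1
        rw [(hv i hik).1] at h3
        exact Or.inl ⟨a (i + 1), (e4 ▸ hy).trans h3, hB.da _ hik'⟩
      · have e : i = k - 1 := by omega
        subst e
        exact Or.inr (Or.inr (Or.inl (e4 ▸ hy)))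

theorem coal0 {f α : Perm D} {ℓ : D → ℤ} {k : ℕ} {a b : ℕ → D} (hα : PT f α [])
    (hl : Lb f α ℓ) (h0 : ∀ d, 0 ≤ ℓ d) (hB : Big f α ℓ k a b) (x0 : D) (hx : ℓ x0 = 0)
    (hr : Rt f α ℓ x0 x0) {P : Finset D} (hP : Cp f (sw α a b k) P)
    (hw : 0 < ℓ (α (a (k - 1)))) (δ : D) :
    Fst f α ℓ (α (a (k - 1))) δ ↔ Fst f α ℓ (α (b (k - 1))) δ := by
  classical
  have _ := hw
  have _ := hx
  have _ := h0
  have _ := hα
  have hi := hl.inv
  obtain ⟨hv, hv'⟩ := sw_val hl hB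
  have hk := hB.kp
  obtain ⟨lv1, lv2, lw1, lw2⟩ := big_lev hl hB (k - 1) (by omega)
  have hkc : ((k - 1 : ℕ) : ℤ) = (k : ℤ) - 1 := by omega
  rw [hkc] at lw1 lw2 lv1 lv2
  have hne := (big_dist hl hB (k - 1) (k - 1) (by omega) (by omega)).2.2.2.2.2.1
  obtain ⟨z1, z2, z3, z4⟩ := hv (k - 1) (by omega)
  -- darts of the last level
  have hag : ∀ x, ℓ x = ℓ (a 0) - k → x ≠ α (a (k - 1)) → x ≠ α (b (k - 1)) →
      (f * sw α a b k) x = (f * α) x := by
    intro x hxl hx1 hx2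
    rw [Perm.mul_apply, Perm.mul_apply, hv' x]
    intro i hik
    obtain ⟨m1, m2, m3, m4⟩ := big_lev hl hB i hik
    refine ⟨fun h => ?_, fun h => ?_, fun h => ?_, fun h => ?_⟩
    · rw [h] at hxl
      omega
    · rw [h] at hxl
      omega
    · have e : i = k - 1 := by
        rw [h] at hxl
        omega
      subst e
      exact hx1 h
    · have e : i = k - 1 := by
        rw [h] at hxl
        omega
      subst e
      exact hx2 h
  have hlev : ∀ {x y}, (f * α).SameCycle x y → ℓ x = ℓ y := fun h => lb_same hl h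
  have hs1 : (f * sw α a b k) (α (a (k - 1))) = (f * α) (α (b (k - 1))) := by
    rw [Perm.mul_apply, Perm.mul_apply, z3, hi]
  have hs2 : (f * sw α a b k) (α (b (k - 1))) = (f * α) (α (a (k - 1))) := by
    rw [Perm.mul_apply, Perm.mul_apply, z4, hi]
  have hri := rho_inv (f := f) hi
  by_cases hf1 : ∃ δ1, (f * sw α a b k).SameCycle (α (a (k - 1))) δ1 ∧ Desc f ℓ δ1
  · by_cases hf2 : ∃ δ2, (f * sw α a b k).SameCycle (α (b (k - 1))) δ2 ∧ Desc f ℓ δ2
    · exfalso
      obtain ⟨δ1, hδ1, hδ1'⟩ := hf1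
      obtain ⟨δ2, hδ2, hδ2'⟩ := hf2
      obtain ⟨Q, hQ, hxQ⟩ : ∃ Q : Finset D, Cp f (sw α a b k) Q ∧ x0 ∉ Q := by
        by_cases h : x0 ∈ P
        · exact ⟨Pᶜ, cp_compl hP, by simpa using h⟩
        · exact ⟨P, hP, h⟩
      obtain ⟨d, hd, hmin⟩ := Finset.exists_min_image Q ℓ hQ.ne
      have hcyc : ∀ x y : D, (f * sw α a b k).SameCycle x y → x ∈ Q → y ∈ Q := by
        intro x y hxy hxQ
        obtain ⟨n, hn0, hn⟩ := hxy.exists_pow_eq'
        rw [← hn]
        clear hn hn0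
        induction n with
        | zero => exact hxQ
        | succ n ih =>
          rw [pow_succ', Perm.mul_apply, Perm.mul_apply]
          exact hQ.ff _ (hQ.aa _ ih)
      have hl' := sw_lb hl hB
      have hfin : ∃ d', (f * sw α a b k).SameCycle d d' ∧ Desc f ℓ d' := by
        rcases co_claim hl hB x0 hr d with h | h | h | h
        · exact h
        · exact ⟨δ1, h.trans hδ1, hδ1'⟩
        · exact ⟨δ2, h.trans hδ2, hδ2'⟩
        · exact absurd (hcyc _ _ h hd) hxQ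
      obtain ⟨d', h1, h2⟩ := hfin
      have h3 := hmin (f d') (hQ.ff _ (hcyc _ _ h1 hd))
      have h4 : ℓ (f d') = ℓ d' - 1 := h2
      have h5 := lb_same hl' h1
      omega
    · refine (co_fst ?_ δ).symm
      rw [hri]
      refine co_arc (σ' := f * sw α a b k) hB.en hs2 (fun x h1 h2 h3 => ?_)
        (fun x h1 h2 => hf2 ⟨x, h1, h2⟩)
      exact hag x (by rw [← hlev h1, lw1]; ring) h3 h2
  · refine co_fst ?_ δ
    rw [hri]
    refine co_arc (σ' := f * sw α a b k) hB.en.symm hs1 (fun x h1 h2 h3 => ?_)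
      (fun x h1 h2 => hf1 ⟨x, h1, h2⟩)
    exact hag x (by rw [← hlev h1, lw2]; ring) h2 h3

private theorem co_ph {f α : Perm D} {ℓ : D → ℤ} {z1 z2 δ : D} (h1 : Fst f α ℓ z1 δ)
    (h2 : Fst f α ℓ z2 δ) (hl : ℓ z1 = ℓ z2) (c : D → ZMod 2) :
    Ph f α ℓ c z1 = Ph f α ℓ c z2 := by
  have h6 : ∀ i, gs f α ℓ z1 i = gs f α ℓ z2 i := by
    intro i
    induction i with
    | zero => exact (fs_eq h1).trans (fs_eq h2).symm
    | succ i ih =>
      show fs f α ℓ (α (gs f α ℓ z1 i)) = fs f α ℓ (α (gs f α ℓ z2 i))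
      rw [ih]
  unfold Ph
  rw [hl]
  exact Finset.sum_congr rfl fun i _ => by rw [h6 i]

theorem coal {f : Perm D} (hf : TF f) {v r : ℕ} {q : Perm D × D} {y : D} {k : ℕ} {a b : ℕ → D}
    (h : Cut f v r q y k a b) {P : Finset (D ⊕ Fin 6)} (hP : Cp (fp f) (sy q.1 y k a b) P)
    (c : D → ZMod 2) :
    Ph f q.1 (dlab f q.1 q.2) c y + Ph f q.1 (dlab f q.1 q.2) c (q.1 y) =
      ∑ i ∈ Finset.range k, (c (a i) + c (b i)) := by
  obtain ⟨hα, -⟩ := cut_pt h
  obtain ⟨hl, hb⟩ := cut_lab hf h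
  obtain ⟨hα', hl', hb'⟩ := cut_pt0 hf h
  obtain ⟨hB, hkr⟩ := cut_big hf h
  obtain ⟨-, hnn⟩ := cut_lb hf h
  have hx := (cut_leaf hf h).2.2.2.2.2.2
  obtain ⟨v1, v2, v3, v4, v5, v6, v7, v8, v9⟩ := ap_val hα.inv hb.fpf y
  have hlev := h.lev
  have hay : dlab f q.1 q.2 (q.1 y) = dlab f q.1 q.2 y := by rw [← hb.ver, h.big.lev]
  have hrt : Rt (fp f) (ap q.1 y) (sl f q y) (Sum.inl q.2) (Sum.inl q.2) := by
    intro d
    rcases eq_or_ne (sl f q y d) 0 with h0 | h0
    · exact Or.inl (hl'.zro d _ (hb'.fpf _) (hb'.fpf _) h0 hx)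
    · obtain ⟨d', h1, _, h3⟩ := hl'.dsc d (hb'.fpf _) (lt_of_le_of_ne (hnn d) (Ne.symm h0))
      exact Or.inr (Or.inr ⟨d', h1, h3⟩)
  have hco : 0 < sl f q y (ap q.1 y (ca a k)) → ∀ δ,
      Fst (fp f) (ap q.1 y) (sl f q y) (ap q.1 y (ca a k)) δ ↔
        Fst (fp f) (ap q.1 y) (sl f q y) (ap q.1 y (cb b k)) δ := by
    intro hw δ
    have h1 := coal0 hα' hb' hnn hB (Sum.inl q.2) hx hrt (P := P) hP
    rw [Nat.add_sub_cancel] at h1
    exact h1 hw δ
  have two : ∀ t : ZMod 2, t + t = 0 := by decide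
  cases k with
  | zero =>
    rw [Finset.sum_range_zero]
    rcases Nat.eq_zero_or_pos r with h0 | h0
    · rw [ph_zero _ _ _ _ _ (by rw [hlev, h0]; simp), ph_zero _ _ _ _ _ (by rw [hay, hlev, h0]; simp),
        add_zero]
    · have hp : 0 < dlab f q.1 q.2 y := by rw [hlev]; exact_mod_cast h0
      have f1 := gs_zero hf hα hl y hp
      have f2 := gs_zero hf hα hl (q.1 y) (by rw [hay]; exact hp)
      have g1 := ap_fst1 hf hα hl h.big.lev f1
      have g2 := ap_fst4 hf hα hl h.big.lev f2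
      have hco' : 0 < sl f q y (Sum.inr 1) → ∀ δ,
          Fst (fp f) (ap q.1 y) (sl f q y) (Sum.inr 1) δ ↔
          Fst (fp f) (ap q.1 y) (sl f q y) (Sum.inr 4) δ := by
        have h1 := hco
        change 0 < sl f q y (ap q.1 y (Sum.inr 5)) → ∀ δ,
          Fst (fp f) (ap q.1 y) (sl f q y) (ap q.1 y (Sum.inr 5)) δ ↔
          Fst (fp f) (ap q.1 y) (sl f q y) (ap q.1 y (Sum.inr 2)) δ at h1
        rw [v6, v7] at h1
        exact h1
      have g3 := (hco' hp _).1 g1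
      have e := Sum.inl_injective (fst_unique g3 g2)
      rw [co_ph f1 (e ▸ f2) hay.symm c, two]
  | succ k =>
    have hk1 : ((k : ℕ) : ℤ) + 1 ≤ dlab f q.1 q.2 y := by
      rw [hlev]
      exact_mod_cast hkr
    have t1 := ph_tail hf hα hl c y k hk1
    have t2 := ph_tail hf hα hl c (q.1 y) k (by rw [hay]; exact hk1)
    have ga : ∀ i < k + 1, gs f q.1 (dlab f q.1 q.2) y i = a i := fun i hi =>
      (big1_gs h.big i hi).1.symm
    have gb : ∀ i < k + 1, gs f q.1 (dlab f q.1 q.2) (q.1 y) i = b i := fun i hi =>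
      (big1_gs h.big i hi).2.symm
    rw [ga k (by omega)] at t1
    rw [gb k (by omega)] at t2
    rw [Finset.sum_congr rfl fun i hi => by rw [ga i (Finset.mem_range.1 hi)]] at t1
    rw [Finset.sum_congr rfl fun i hi => by rw [gb i (Finset.mem_range.1 hi)]] at t2
    have hz : Ph f q.1 (dlab f q.1 q.2) c (q.1 (a k)) =
        Ph f q.1 (dlab f q.1 q.2) c (q.1 (b k)) := by
      obtain ⟨l1, l2, l3, l4⟩ := big1_lev hb h.big k (by omega)
      rcases (show k + 1 = r ∨ k + 1 < r by omega) with h0 | h0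
      · have e3 : dlab f q.1 q.2 (q.1 (a k)) = 0 := by rw [l3, hlev, ← h0]; push_cast; ring
        have e4 : dlab f q.1 q.2 (q.1 (b k)) = 0 := by rw [l4, hlev, ← h0]; push_cast; ring
        rw [ph_zero _ _ _ _ _ e3.le, ph_zero _ _ _ _ _ e4.le]
      · have e3 : 0 < dlab f q.1 q.2 (q.1 (a k)) := by rw [l3, hlev]; omega
        have e4 : 0 < dlab f q.1 q.2 (q.1 (b k)) := by rw [l4, hlev]; omega
        have f1 := gs_zero hf hα hl _ e3
        have f2 := gs_zero hf hα hl _ e4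
        have g1 := ap_fst hf hα hl h.big.lev f1
        have g2 := ap_fst hf hα hl h.big.lev f2
        have hny : ∀ d, Desc f (dlab f q.1 q.2) d → d ≠ y := by
          intro d hd he
          subst he
          have h1 : dlab f q.1 q.2 (f d) = dlab f q.1 q.2 d - 1 := hd
          rw [h.big.lev] at h1
          omega
        have hnay : ∀ d, Desc f (dlab f q.1 q.2) d → d ≠ q.1 y := by
          intro d hd he
          subst he
          have h1 : dlab f q.1 q.2 (f (q.1 y)) = dlab f q.1 q.2 (q.1 y) - 1 := hd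
          rw [hb.ver, hα.inv, hay] at h1
          omega
        have hda := h.big.da k (by omega)
        have hdb := h.big.db k (by omega)
        have hco' : 0 < sl f q y (Sum.inl (q.1 (a k))) → ∀ δ,
            Fst (fp f) (ap q.1 y) (sl f q y) (Sum.inl (q.1 (a k))) δ ↔
            Fst (fp f) (ap q.1 y) (sl f q y) (Sum.inl (q.1 (b k))) δ := by
          have h1 := hco
          change 0 < sl f q y (ap q.1 y (Sum.inl (a k))) → ∀ δ,
            Fst (fp f) (ap q.1 y) (sl f q y) (ap q.1 y (Sum.inl (a k))) δ ↔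
            Fst (fp f) (ap q.1 y) (sl f q y) (ap q.1 y (Sum.inl (b k))) δ at h1
          rw [v9 _ (hny _ hda) (hnay _ hda), v9 _ (hny _ hdb) (hnay _ hdb)] at h1
          exact h1
        have g3 := (hco' e3 _).1 g1
        have e := Sum.inl_injective (fst_unique g3 g2)
        exact co_ph f1 (e ▸ f2) (by rw [l3, l4]) c
    rw [t1, t2, hz, Finset.sum_add_distrib]
    have h3 : ∀ s t u : ZMod 2, (s + u) + (t + u) = s + t := by decide
    exact h3 _ _ _

end QG1
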