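import Pool.Agent.H1.QG.Defs
import Pool.Agent.H40.QL.Bcon
import Pool.Agent.H40.QL.Phi

/-!
[H1 QG NXT]  P186 (MP_bcc40c_pr, Q2, part G)  The boundary of a union `O` of components of the complement of the ball.

Boundary darts: `d ∈ O`, `α d ∉ O`.

PROOF.  bd_lev: `α d` is in the ball (`Out.aa`), so its face has a dart of level `< r` (`dst x`): one of `α d, f (α d), f (f (α d))`.  `d ∉ ball` and `f d ∉ ball` (Out.ff, Out.nb) give `dst x d ≥ r`, `dst x (f d) ≥ r`, `dst x (f (f d)) ≥ r`.  `dst x (α d) = dst x (f d)`, `dst x (f (α d)) = dst x d` (same vertices; dst_congr), so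
`dst x (f (f (α d))) ≤ r - 1`, and both `dst x (f (α d)) ≤ dst x (f (f (α d))) + 1` and `dst x (α d) ≤ dst x (f (f (α d))) + 1` (dst_f and lb_low: `f (f (f (α d))) = α d`): so `dst x d = r = dst x (f d)`.
sum_bd: let `B` = boundary darts, `σ = f * α`, `σ (α d) = f d`.  For `d ∈ B` let `t` be the least number with `α (σ^t (f d)) ∉ O`: it exists because `σ^(T-1) (f d) = α d`... precisely: `f d = σ (α d)`, `σ` has finite order, so `σ^s (f d) = α d` for some `s`; if all `α (σ^j (f d)) ∈ O` for `j ≤ s` then `σ^(j+1) (f d) = f (α (σ^j (f d))) ∈ O` for `j ≤ s`, so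
`α d ∈ O` (it is `σ^s (f d)`; for `s = 0`: `α d = f d ∈ O`), contradiction.  `next d = σ^t (f d)`; all `σ^j (f d)`, `j ≤ t`, are in `O` (induction: `f d ∈ O`; `σ^(j+1) (f d) = f (α (σ^j (f d)))` with `α (σ^j (f d)) ∈ O` for `j < t`), and `next d ∈ B`.
`next` is injective on `B`: if `σ^t (f d) = σ^t' (f d')` with `t ≤ t'` then `f d = σ^(t'-t) (f d')`; if `t' - t = m + 1` then `α d = σ⁻¹ (f d) = σ^m (f d') ∈ O`, contradiction; so `f d = f d'`.  So `next` is a bijection of `B` (`Finset.sum_bij`, `Finite.injective_iff_surjective`, or `Finset.map_eq_of_subset`/`Finset.eq_of_subset_of_card_le` for the image).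
`Ph (next d) = Ph (α d)`: no dart `σ^j (f d)`, `j ≤ t`, is descending (it is in `O`, so `dst x (f (σ^j (f d))) ≥ r`, and its own level is the level of `f d`, i.e. `r`); `α (f⁻¹ (σ^(j+1) (f d))) = σ^j (f d)` (`σ⁻¹ = α f⁻¹`), so ph_rot `t` times gives `Ph (σ^t (f d)) = Ph (f d)`, and once more `Ph (f d) = Ph (α (f⁻¹ (f d))) = Ph (α d)`.
Hence `Σ_B Ph (α d) = Σ_B Ph (next d) = Σ_B Ph d` and the sum is `x + x = 0`.
-/

set_option autoImplicit false

namespace QG1

open Equiv HG39 QD39 QL40

variable {D : Type} [Fintype D] [DecidableEq D]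

omit [Fintype D] [DecidableEq D] in
private theorem nxt_sc {f α : Perm D} (y : D) : (f * α).SameCycle y (f (α y)) :=
  ⟨1, by rw [zpow_one]; rfl⟩

theorem bd_lev {f α : Perm D} (hf : TF f) (hα : PT f α []) {x : D} {r : ℕ} {O : Finset D}
    (hO : Out f α x r O) {d : D} (hd : d ∈ O) (hd2 : α d ∉ O) :
    dst f α x d = r ∧ dst f α x (f d) = r ∧ α d ∈ ball f α x r := by
  have hb : α d ∈ ball f α x r := by
    by_contra h
    exact hd2 (hO.aa d hd h)
  have h1 := hO.nb d hd
  have h2 : ¬ (dst f α x d < r ∨ dst f α x (f d) < r ∨ dst f α x (f (f d)) < r) := by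
    intro h
    exact h1 (by rw [ball, Finset.mem_filter]; exact ⟨Finset.mem_univ _, h⟩)
  have h3 : dst f α x (α d) = dst f α x (f d) := by
    have h := nxt_sc (f := f) (α := α) (α d)
    rw [hα.inv] at h
    exact dst_congr f α x _ _ h
  have h4 : dst f α x (f (α d)) = dst f α x d :=
    (dst_congr f α x _ _ (nxt_sc (f := f) (α := α) d)).symm
  have h5 := hb
  rw [ball, Finset.mem_filter] at h5
  have h6 := h5.2
  have h7 : dlab f α x (f (α d)) ≤ dlab f α x (f (f (α d))) + 1 :=
    lb_low (lb_of_lab hα (dlab_lab hf hα x)) (f (α d))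
  have h8 : (dst f α x (f (α d)) : ℤ) ≤ (dst f α x (f (f (α d))) : ℤ) + 1 := h7
  have h9 := dst_f hf hα x (f (f (α d)))
  rw [hf.three] at h9
  refine ⟨?_, ?_, hb⟩ <;> omega

theorem sum_bd {f α : Perm D} (hf : TF f) (hα : PT f α []) {x : D} {r : ℕ} {O : Finset D}
    (hO : Out f α x r O) (c : D → ZMod 2) :
    ∑ d ∈ O.filter (fun d => α d ∉ O),
      (Ph f α (dlab f α x) c d + Ph f α (dlab f α x) c (α d)) = 0 := by
  classical
  have hl := dlab_lab hf hα x
  have hinv : ∀ d, f⁻¹ (f d) = d := fun d => Equiv.symm_apply_apply f d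
  -- the next boundary dart
  have hex : ∀ d ∈ O, α d ∉ O → ∃ t : ℕ, α (((f * α) ^ t) (f d)) ∉ O := by
    intro d hd hd2
    by_contra hc
    push Not at hc
    have hn := orderOf_pos (f * α)
    have h1 : (((f * α) ^ (orderOf (f * α) - 1)) (f d)) = α d := by
      have h2 : f d = (f * α) (α d) := by rw [Perm.mul_apply, hα.inv]
      rw [h2, ← Perm.mul_apply, ← pow_succ, Nat.sub_add_cancel hn, pow_orderOf_eq_one]
      rfl
    rcases Nat.eq_zero_or_pos (orderOf (f * α) - 1) with h0 | h0
    · rw [h0, pow_zero, Perm.one_apply] at h1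
      exact hd2 (h1 ▸ hO.ff d hd)
    · obtain ⟨m, hm⟩ : ∃ m, orderOf (f * α) - 1 = m + 1 := ⟨orderOf (f * α) - 1 - 1, by omega⟩
      rw [hm, pow_succ', Perm.mul_apply, Perm.mul_apply] at h1
      exact hd2 (h1 ▸ hO.ff _ (hc m))
  let nx : D → D := fun d =>
    if h : ∃ t : ℕ, α (((f * α) ^ t) (f d)) ∉ O then ((f * α) ^ (Nat.find h)) (f d) else d
  have key : ∀ d ∈ O.filter (fun d => α d ∉ O), ∃ t : ℕ, nx d = ((f * α) ^ t) (f d) ∧
      α (((f * α) ^ t) (f d)) ∉ O ∧ ∀ j ≤ t, ((f * α) ^ j) (f d) ∈ O := by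
    intro d hd
    rw [Finset.mem_filter] at hd
    have h := hex d hd.1 hd.2
    refine ⟨Nat.find h, ?_, Nat.find_spec h, ?_⟩
    · show (if h : ∃ t : ℕ, α (((f * α) ^ t) (f d)) ∉ O then ((f * α) ^ (Nat.find h)) (f d) else d)
        = _
      rw [dif_pos h]
    · intro j
      induction j with
      | zero => intro _; exact hO.ff d hd.1
      | succ j ih =>
        intro hj
        have h1 := Nat.find_min h (show j < Nat.find h by omega)
        rw [not_not] at h1
        rw [pow_succ', Perm.mul_apply, Perm.mul_apply]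
        exact hO.ff _ h1
  have hmem : ∀ d ∈ O.filter (fun d => α d ∉ O), nx d ∈ O.filter (fun d => α d ∉ O) := by
    intro d hd
    obtain ⟨t, h1, h2, h3⟩ := key d hd
    rw [Finset.mem_filter, h1]
    exact ⟨h3 t le_rfl, h2⟩
  have hinj : ∀ d ∈ O.filter (fun d => α d ∉ O), ∀ d' ∈ O.filter (fun d => α d ∉ O),
      nx d = nx d' → d = d' := by
    have aux : ∀ d ∈ O.filter (fun d => α d ∉ O), ∀ d' ∈ O.filter (fun d => α d ∉ O),
        ∀ t t' : ℕ, t ≤ t' → ((f * α) ^ t) (f d) = ((f * α) ^ t') (f d') →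
        (∀ j ≤ t', ((f * α) ^ j) (f d') ∈ O) → d = d' := by
      intro d hd d' _ t t' htt he hj
      rw [Finset.mem_filter] at hd
      obtain ⟨m, rfl⟩ : ∃ m, t' = t + m := ⟨t' - t, by omega⟩
      rw [pow_add, Perm.mul_apply] at he
      have h1 := ((f * α) ^ t).injective he
      cases m with
      | zero =>
        rw [pow_zero, Perm.one_apply] at h1
        exact f.injective h1
      | succ m =>
        exfalso
        have h2 : f d = (f * α) (α d) := by rw [Perm.mul_apply, hα.inv]
        rw [h2, pow_succ', Perm.mul_apply] at h1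
        have h3 := (f * α).injective h1
        exact hd.2 (h3 ▸ hj m (by omega))
    intro d hd d' hd' he
    obtain ⟨t, h1, _, h3⟩ := key d hd
    obtain ⟨t', h1', _, h3'⟩ := key d' hd'
    rw [h1, h1'] at he
    rcases le_total t t' with h | h
    · exact aux d hd d' hd' t t' h he h3'
    · exact (aux d' hd' d hd t' t h he.symm h3).symm
  have himg : (O.filter (fun d => α d ∉ O)).image nx = O.filter (fun d => α d ∉ O) := by
    apply Finset.eq_of_subset_of_card_le
    · intro z hz
      obtain ⟨d, hd, rfl⟩ := Finset.mem_image.1 hz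
      exact hmem d hd
    · rw [Finset.card_image_of_injOn]
      intro d hd d' hd' he
      exact hinj d hd d' hd' he
  have hph : ∀ d ∈ O.filter (fun d => α d ∉ O),
      Ph f α (dlab f α x) c (nx d) = Ph f α (dlab f α x) c (α d) := by
    intro d hd
    obtain ⟨t, h1, _, h3⟩ := key d hd
    rw [Finset.mem_filter] at hd
    obtain ⟨hl1, hl2, _⟩ := bd_lev hf hα hO hd.1 hd.2
    rw [h1]
    have hnd : ∀ j ≤ t, ¬ Desc f (dlab f α x) (((f * α) ^ j) (f d)) := by
      intro j hj hD
      have h4 : dst f α x (((f * α) ^ j) (f d)) = r := by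
        rw [← hl2]
        exact (dst_congr f α x _ _ ⟨(j : ℤ), by rw [zpow_natCast]⟩).symm
      have h5 := hO.nb _ (h3 j hj)
      have h6 : ¬ dst f α x (f (((f * α) ^ j) (f d))) < r := by
        intro h
        exact h5 (by rw [ball, Finset.mem_filter]; exact ⟨Finset.mem_univ _, Or.inr (Or.inl h)⟩)
      have h7 : (dst f α x (f (((f * α) ^ j) (f d))) : ℤ) =
        (dst f α x (((f * α) ^ j) (f d)) : ℤ) - 1 := hD
      omega
    have hj : ∀ j ≤ t, Ph f α (dlab f α x) c (((f * α) ^ j) (f d)) =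
        Ph f α (dlab f α x) c (α d) := by
      intro j
      induction j with
      | zero =>
        intro h
        rw [ph_rot hf hα hl c _ (hnd 0 h), pow_zero, Perm.one_apply, hinv]
      | succ j ih =>
        intro h
        rw [ph_rot hf hα hl c _ (hnd (j + 1) h), pow_succ', Perm.mul_apply, Perm.mul_apply, hinv,
          hα.inv]
        exact ih (by omega)
    exact hj t le_rfl
  have hs : ∑ d ∈ O.filter (fun d => α d ∉ O), Ph f α (dlab f α x) c (α d) =
      ∑ d ∈ O.filter (fun d => α d ∉ O), Ph f α (dlab f α x) c d := by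
    rw [← Finset.sum_congr rfl hph]
    conv_rhs => rw [← himg]
    rw [Finset.sum_image]
    intro d hd d' hd' he
    exact hinj d hd d' hd' he
  rw [Finset.sum_add_distrib, hs]
  exact CharTwo.add_self_eq_zero _

end QG1
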