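import Pool.Agent.H1.QG.OneB
import Pool.Agent.H1.QG.Coal
import Pool.Agent.H1.QG.Nxt

/-!
[H1 QG COMB]  P186 (MP_bcc40c_pr, Q2, part G)  If all level edges at the boundary of the ball have a small component in the cut map, then `x` is in one of them or the ball is almost everything.

PROOF.  comb_one: fix `O`, `B` = boundary darts (`y ∈ O`, `α y ∉ O`); by bd_lev `y ∉ ball`, `α y ∈ ball`, `dst x y = r`.  For `y ∈ B` let `S y` be the small closed set (`hS`), and `g d = ind O d + Σ_{y ∈ B} ind (S y) (inl d) : ZMod 2`.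
(1) `g (α d) = g d`: `g d + g (α d) = (ind O d + ind O (α d)) + Σ_y (ind (S y) (inl d) + ind (S y) (inl (α d)))`, and with `c = ed α d`: one_b, coal: the `y`-term is `c y + Ph c y + Ph c (α y)`; sum_bd: the sum is `Σ_{y ∈ B} c y`.  `Σ_{y ∈ B} ed α d y`: `y ∈ B` with `y = d` or `y = α d`: if `d, α d` are both in `O` or both not in `O`
there is no such `y`; if exactly one of them is in `O`, say `e`, then `y = e` is the only one (`d ≠ α d`).  So it equals `ind O d + ind O (α d)`.  Total 0.
(2) `g (f d) = g d`: `O` and the `S y` are closed under `f`, `fp f (inl d) = inl (f d)`, and `f` has order three (so closed in both directions).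
(3) `g` is constant (`PT.con` for `{d | g d = g x}`).  `x ∉ O` (`ball_x`, Out.nb).
If `x ∉ S y` for all `y ∈ B` then `g x = 0`, so `g = 0`: for `d ∈ O`: `Σ_y ind (S y) (inl d) = 1`, so `inl d ∈ S y` for some `y ∈ B`.
comb: suppose the first alternative fails.  For `d0 ∉ ball` let `O` be the set of all darts which can be reached from `d0` inside the complement of the ball (the intersection of all sets `O' ∋ d0` with `Out`; it is `Out`; or: the smallest; or simply take `O` = the complement of the ball, which is `Out` : `ball_f`!).  Indeed `O = (ball)ᶜ` satisfies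
`Out` (closed under `f` by ball_f and order three; `aa` trivial), so one set suffices: every `d ∉ ball` is in some `S y`, `y ∈ B`, `dst x y = r`.  So `#(ball)ᶜ ≤ Σ_{y ∈ B} #{d | inl d ∈ S y} ≤ 6 M #B ≤ 6 M lt` (`lt` = number of darts with `dst = r`).
-/

set_option autoImplicit false

namespace QG1

open Equiv HG39 QD39 QL40

variable {D : Type} [Fintype D] [DecidableEq D]

private theorem zz (a : ZMod 2) : a + a = 0 := by
  revert a
  decide

private theorem ed_sum {α : Perm D} (hi : ∀ d, α (α d) = d) (O : Finset D)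
    (d : D) : ∑ y ∈ O.filter (fun y => α y ∉ O), ed α d y = ind O d + ind O (α d) := by
  by_cases h1 : d ∈ O
  · by_cases h2 : α d ∈ O
    · have e1 : ind O d + ind O (α d) = 0 := by
        unfold ind
        rw [if_pos h1, if_pos h2]
        decide
      rw [e1]
      refine Finset.sum_eq_zero fun y hy => ?_
      rw [Finset.mem_filter] at hy
      unfold ed
      rw [if_neg]
      rintro (h3 | h3)
      · rw [h3] at hy
        exact hy.2 h2
      · rw [h3, hi] at hy
        exact hy.2 h1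
    · have e1 : ind O d + ind O (α d) = 1 := by
        unfold ind
        rw [if_pos h1, if_neg h2, add_zero]
      rw [e1, Finset.sum_eq_single d]
      · unfold ed
        rw [if_pos (Or.inl rfl)]
      · intro y hy hyd
        rw [Finset.mem_filter] at hy
        unfold ed
        rw [if_neg]
        rintro (h3 | h3)
        · exact hyd h3
        · rw [h3] at hy
          exact h2 hy.1
      · intro h3
        exact absurd (Finset.mem_filter.2 ⟨h1, h2⟩) h3
  · by_cases h2 : α d ∈ O
    · have e1 : ind O d + ind O (α d) = 1 := by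
        unfold ind
        rw [if_neg h1, if_pos h2, zero_add]
      rw [e1, Finset.sum_eq_single (α d)]
      · unfold ed
        rw [if_pos (Or.inr rfl)]
      · intro y hy hyd
        rw [Finset.mem_filter] at hy
        unfold ed
        rw [if_neg]
        rintro (h3 | h3)
        · rw [h3] at hy
          exact h1 hy.1
        · exact hyd h3
      · intro h3
        refine absurd (Finset.mem_filter.2 ⟨h2, ?_⟩) h3
        rw [hi]
        exact h1
    · have e1 : ind O d + ind O (α d) = 0 := by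
        unfold ind
        rw [if_neg h1, if_neg h2, add_zero]
      rw [e1]
      refine Finset.sum_eq_zero fun y hy => ?_
      rw [Finset.mem_filter] at hy
      unfold ed
      rw [if_neg]
      rintro (h3 | h3)
      · rw [h3] at hy
        exact h1 hy.1
      · rw [h3] at hy
        exact h2 hy.1

private theorem clo_iff {E : Type} [Fintype E] [DecidableEq E] {g : Perm E} (hg : TF g)
    {P : Finset E} (h : ∀ d ∈ P, g d ∈ P) (d : E) : g d ∈ P ↔ d ∈ P := by
  refine ⟨fun h1 => ?_, h d⟩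
  rw [← hg.three d]
  exact h _ (h _ h1)

theorem comb_one {f : Perm D} (hf : TF f) {v r : ℕ} {q : Perm D × D} (hr : 1 ≤ r)
    {O : Finset D} (hO : Out f q.1 q.2 r O) (hα : PT f q.1 []) (S : D → Finset (D ⊕ Fin 6))
    (hS : ∀ y ∈ O, q.1 y ∉ O → ∃ (k : ℕ) (a b : ℕ → D), Cut f v r q y k a b ∧
      Cp (fp f) (sy q.1 y k a b) (S y))
    (hx : ∀ y ∈ O, q.1 y ∉ O → Sum.inl q.2 ∉ S y) (d : D) (hd : d ∈ O) :
    ∃ y ∈ O, q.1 y ∉ O ∧ Sum.inl d ∈ S y := by
  classical
  have hi := hα.inv
  have hne : ∀ d, q.1 d ≠ d := by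
    intro d hd
    have h5 := (hα.leg d).1 hd
    simp [tri] at h5
  set B := O.filter (fun y => q.1 y ∉ O) with hB
  have memB : ∀ y, y ∈ B ↔ y ∈ O ∧ q.1 y ∉ O := fun y => by rw [hB, Finset.mem_filter]
  obtain ⟨g, hg⟩ : ∃ g : D → ZMod 2, ∀ d, g d = ind O d + ∑ y ∈ B, ind (S y) (Sum.inl d) :=
    ⟨_, fun _ => rfl⟩
  -- the edge
  have h1 : ∀ d, g (q.1 d) = g d := by
    intro d
    have e1 : g d + g (q.1 d) = 0 := by
      have e2 : ∀ y ∈ B, ind (S y) (Sum.inl d) + ind (S y) (Sum.inl (q.1 d)) =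
          ed q.1 d y + (Ph f q.1 (dlab f q.1 q.2) (ed q.1 d) y +
            Ph f q.1 (dlab f q.1 q.2) (ed q.1 d) (q.1 y)) := by
        intro y hy
        obtain ⟨hy1, hy2⟩ := (memB y).1 hy
        obtain ⟨k, a, b, hC, hP⟩ := hS y hy1 hy2
        rw [one_b hf hC hP d, coal hf hC hP (ed q.1 d)]
      have e3 : g d + g (q.1 d) = (ind O d + ind O (q.1 d)) +
          ∑ y ∈ B, (ind (S y) (Sum.inl d) + ind (S y) (Sum.inl (q.1 d))) := by
        rw [hg, hg, Finset.sum_add_distrib]
        ring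
      rw [e3, Finset.sum_congr rfl e2, Finset.sum_add_distrib, sum_bd hf hα hO (ed q.1 d),
        ed_sum hi O d, add_zero]
      exact zz _
    have e4 : g (q.1 d) = g d + (g d + g (q.1 d)) := by
      rw [← add_assoc, zz, zero_add]
    rw [e4, e1, add_zero]
  have h2 : ∀ d, g (f d) = g d := by
    intro d
    rw [hg, hg]
    congr 1
    · unfold ind
      simp only [clo_iff hf hO.ff d]
    · refine Finset.sum_congr rfl fun y hy => ?_
      obtain ⟨hy1, hy2⟩ := (memB y).1 hy
      obtain ⟨k, a, b, hC, hP⟩ := hS y hy1 hy2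
      have e1 : (Sum.inl (f d) : D ⊕ Fin 6) = fp f (Sum.inl d) := rfl
      unfold ind
      rw [e1]
      simp only [clo_iff (fp_tf hf) hP.ff (Sum.inl d)]
  have h3 : g d = g q.2 := by
    refine hα.con (fun d => g d = g q.2) ⟨q.2, hne _, rfl⟩ ?_ ?_ d (hne d)
    · intro e he
      rw [h2]
      exact he
    · intro e he
      rw [h1]
      exact he
  have hxO : q.2 ∉ O := fun h4 => hO.nb _ h4 (ball_x f q.1 q.2 r hr)
  have h4 : g q.2 = 0 := by
    rw [hg]
    have e1 : ind O q.2 = 0 := by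
      unfold ind
      rw [if_neg hxO]
    rw [e1, zero_add]
    refine Finset.sum_eq_zero fun y hy => ?_
    obtain ⟨hy1, hy2⟩ := (memB y).1 hy
    unfold ind
    rw [if_neg (hx y hy1 hy2)]
  by_contra hcon
  push Not at hcon
  have h5 : g d = 1 := by
    rw [hg]
    have e1 : ind O d = 1 := by
      unfold ind
      rw [if_pos hd]
    rw [e1, Finset.sum_eq_zero, add_zero]
    intro y hy
    obtain ⟨hy1, hy2⟩ := (memB y).1 hy
    unfold ind
    rw [if_neg (hcon y hy1 hy2)]
  rw [h3, h4] at h5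
  exact absurd h5 (by decide)

theorem comb {f : Perm D} (hf : TF f) {v r M : ℕ} {q : Perm D × D} (hr : 1 ≤ r)
    (hts : q.1 ∈ TS f v)
    (h : ∀ y, y ∉ ball f q.1 q.2 r → q.1 y ∈ ball f q.1 q.2 r →
      ∃ (k : ℕ) (a b : ℕ → D) (P : Finset (D ⊕ Fin 6)), Cut f v r q y k a b ∧
        Cp (fp f) (sy q.1 y k a b) P ∧ P.card ≤ 6 * M) :
    (∃ (y : D) (k : ℕ) (a b : ℕ → D) (P : Finset (D ⊕ Fin 6)), Cut f v r q y k a b ∧
      Cp (fp f) (sy q.1 y k a b) P ∧ P.card ≤ 6 * M ∧ Sum.inl q.2 ∈ P) ∨
    Fintype.card D ≤ (ball f q.1 q.2 r).card + 6 * M * lt f q.1 q.2 r := by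
  classical
  have hα := hts.1
  set Bl := ball f q.1 q.2 r with hBl
  have h' : ∀ y, ∃ P : Finset (D ⊕ Fin 6), y ∉ Bl → q.1 y ∈ Bl →
      ∃ (k : ℕ) (a b : ℕ → D), Cut f v r q y k a b ∧
        Cp (fp f) (sy q.1 y k a b) P ∧ P.card ≤ 6 * M := by
    intro y
    by_cases hy : y ∉ Bl ∧ q.1 y ∈ Bl
    · obtain ⟨k, a, b, P, h1, h2, h3⟩ := h y hy.1 hy.2
      exact ⟨P, fun _ _ => ⟨k, a, b, h1, h2, h3⟩⟩
    · exact ⟨∅, fun h1 h2 => absurd ⟨h1, h2⟩ hy⟩
  choose S hS using h'
  by_cases hcase : ∃ y, y ∉ Bl ∧ q.1 y ∈ Bl ∧ Sum.inl q.2 ∈ S y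
  · left
    obtain ⟨y, h1, h2, h3⟩ := hcase
    obtain ⟨k, a, b, h4, h5, h6⟩ := hS y h1 h2
    exact ⟨y, k, a, b, S y, h4, h5, h6, h3⟩
  · right
    push Not at hcase
    have hO : Out f q.1 q.2 r Blᶜ := by
      refine ⟨?_, ?_, ?_⟩
      · intro d hd
        rw [Finset.mem_compl] at hd ⊢
        intro h1
        apply hd
        rw [← hf.three d]
        exact ball_f hf q.2 r _ (ball_f hf q.2 r _ h1)
      · intro d hd
        rw [Finset.mem_compl] at hd
        exact hd
      · intro d _ h1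
        rw [Finset.mem_compl]
        exact h1
    have hcov : Blᶜ ⊆ (Blᶜ.filter (fun y => q.1 y ∉ Blᶜ)).biUnion
        (fun y => Finset.univ.filter (fun d : D => Sum.inl d ∈ S y)) := by
      intro d hd
      obtain ⟨y, h1, h2, h3⟩ := comb_one hf hr hO hα S (v := v)
        (fun y hy1 hy2 => by
          rw [Finset.mem_compl] at hy1
          rw [Finset.mem_compl, not_not] at hy2
          obtain ⟨k, a, b, h4, h5, _⟩ := hS y hy1 hy2
          exact ⟨k, a, b, h4, h5⟩)
        (fun y hy1 hy2 => by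
          rw [Finset.mem_compl] at hy1
          rw [Finset.mem_compl, not_not] at hy2
          exact hcase y hy1 hy2) d hd
      exact Finset.mem_biUnion.2 ⟨y, Finset.mem_filter.2 ⟨h1, h2⟩,
        Finset.mem_filter.2 ⟨Finset.mem_univ _, h3⟩⟩
    have hc1 : ∀ y ∈ Blᶜ.filter (fun y => q.1 y ∉ Blᶜ),
        (Finset.univ.filter (fun d : D => Sum.inl d ∈ S y)).card ≤ 6 * M := by
      intro y hy
      rw [Finset.mem_filter, Finset.mem_compl, Finset.mem_compl, not_not] at hy
      obtain ⟨k, a, b, _, _, h6⟩ := hS y hy.1 hy.2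
      refine le_trans ?_ h6
      refine Finset.card_le_card_of_injOn (fun d => (Sum.inl d : D ⊕ Fin 6)) ?_
        (fun _ _ _ _ h7 => Sum.inl_injective h7)
      intro d hd
      exact (Finset.mem_filter.1 (Finset.mem_coe.1 hd)).2
    have hc2 : (Blᶜ.filter (fun y => q.1 y ∉ Blᶜ)).card ≤ lt f q.1 q.2 r := by
      unfold QD39.lt
      refine Finset.card_le_card fun y hy => ?_
      obtain ⟨hy1, hy2⟩ := Finset.mem_filter.1 hy
      exact Finset.mem_filter.2 ⟨Finset.mem_univ _, (bd_lev hf hα hO hy1 hy2).1⟩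
    have hc3 : Blᶜ.card ≤ 6 * M * lt f q.1 q.2 r := by
      calc Blᶜ.card ≤ _ := Finset.card_le_card hcov
        _ ≤ _ := Finset.card_biUnion_le
        _ ≤ ∑ _y ∈ Blᶜ.filter (fun y => q.1 y ∉ Blᶜ), 6 * M := Finset.sum_le_sum hc1
        _ = (Blᶜ.filter (fun y => q.1 y ∉ Blᶜ)).card * (6 * M) := by
            rw [Finset.sum_const, smul_eq_mul]
        _ ≤ lt f q.1 q.2 r * (6 * M) := Nat.mul_le_mul_right _ hc2
        _ = 6 * M * lt f q.1 q.2 r := Nat.mul_comm _ _
    have hc4 := Finset.card_add_card_compl Bl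
    omega

end QG1
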