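import Pool.Agent.H1.QG.Loop
import Pool.Agent.H1.QG.Two
import Pool.Agent.H40.QL.DigB
import Pool.Agent.H40.QL.Swc

/-!
[H1 QG CUTF]  P186 (MP_bcc40c_pr, Q2, part G)  Facts on the cut map of a level edge (`A = sy q.1 y k a b`, `F = fp f`, labels `sl f q y`).

PROOF.  `q.1 ∈ TS f v` contains `PT f q.1 []` and `cyc (f * q.1) = v`; `dlab_lab`, `lb_of_lab` (Bas).  Write `α⁺ = ap q.1 y`.
cut_big: big1_big (DigB).  cut_lb0: ap_lab, ap_PT, lb_of_lab.  cut_pt0: ap_PT.  cut_lb: sw_lb.  cut_nn: the values of `lp` are distances, or minimum of distances `+ 1`.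
cut_inv, cut_fpf: sw_inv, sw_fpf with ap_invo and the fact that `ap` has no fixed points (ap_PT).
cut_cyc: sw_cyc and ap_cyc.
cut_val: sw_val for `i = 0` (`ca a 0 = inr 5`, `cb b 0 = inr 2`, `α⁺ (inr 5) = inr 1`, `α⁺ (inr 2) = inr 4`): `A (inr 5) = α⁺ (inr 2) = inr 4`, `A (inr 2) = α⁺ (inr 5) = inr 1`, `A (inr 1) = inr 2`, `A (inr 4) = inr 5`.  `inr 0, inr 3, inl y, inl (α y)` are not special (the special darts are `ca a i`, `cb b i`, `α⁺` of them: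
`inr 5, 2, 1, 4`, and for `i ≥ 1` `inl (a (i-1))`, ... which are descending or ascending (`ap_val`: `α⁺ (inl d) = inl (α d)` for `d ≠ y, α y`), while `y`, `α y` are level): so `A = α⁺` there (ap_val).  For the last statement: a dart `inl d` with `d ≠ y, α y` and `d ≠ a i, b i, α (a i), α (b i)` for all `i < k` is not special.
cut_vala: `A (inl (a i)) = inl (α (b i))`, etc. for `i < k` (sw_val at `i + 1`, ap_val; `b i ≠ y, α y`).
cut_leaf: `Leaf F A (inr 0)`: `A (F (inr 0)) = A (inr 1) = inr 2 = F (F (inr 0))`; `Leaf F A (inr 3)`: `A (inr 4) = inr 5`.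
cut_lev: `ℓ y = r`, `ℓ (α y) = ℓ (f y) = ℓ y` (Big1.lev, Lb.ver).
-/

set_option autoImplicit false

namespace QG1

open Equiv HG39 QD39 QL40

variable {D : Type} [Fintype D] [DecidableEq D]

omit [Fintype D] [DecidableEq D] in
private theorem cutf_leg {f α : Perm D} (h : PT f α []) (d : D) : α d ≠ d := by
  intro h1
  have h2 := (h.leg d).1 h1
  simp [tri] at h2

theorem cut_pt {f : Perm D} {v r : ℕ} {q : Perm D × D} {y : D} {k : ℕ} {a b : ℕ → D}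
    (h : Cut f v r q y k a b) : PT f q.1 [] ∧ cyc (f * q.1) = v := by
  exact h.ts

theorem cut_lab {f : Perm D} (hf : TF f) {v r : ℕ} {q : Perm D × D} {y : D} {k : ℕ} {a b : ℕ → D}
    (h : Cut f v r q y k a b) : Lab f q.1 (dlab f q.1 q.2) ∧ Lb f q.1 (dlab f q.1 q.2) := by
  exact ⟨dlab_lab hf (cut_pt h).1 q.2, lb_of_lab (cut_pt h).1 (dlab_lab hf (cut_pt h).1 q.2)⟩

theorem cut_pt0 {f : Perm D} (hf : TF f) {v r : ℕ} {q : Perm D × D} {y : D} {k : ℕ} {a b : ℕ → D}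
    (h : Cut f v r q y k a b) : PT (fp f) (ap q.1 y) [] ∧ Lab (fp f) (ap q.1 y) (sl f q y) ∧
      Lb (fp f) (ap q.1 y) (sl f q y) := by
  have h1 := ap_PT hf (cut_pt h).1 y
  have h2 := ap_lab hf (cut_pt h).1 (cut_lab hf h).1 y
  exact ⟨h1, h2, lb_of_lab h1 h2⟩

theorem cut_big {f : Perm D} (hf : TF f) {v r : ℕ} {q : Perm D × D} {y : D} {k : ℕ} {a b : ℕ → D}
    (h : Cut f v r q y k a b) :
    Big (fp f) (ap q.1 y) (sl f q y) (k + 1) (ca a) (cb b) ∧ k ≤ r := by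
  refine ⟨big1_big hf (cut_pt h).1 (cut_lab hf h).1 h.big, ?_⟩
  have h1 := big1_le (cut_lab hf h).2
    (fun d => (cut_lab hf h).1.nn d (cutf_leg (cut_pt h).1 d)) h.big
  rw [h.lev] at h1
  exact_mod_cast h1

theorem cut_lb {f : Perm D} (hf : TF f) {v r : ℕ} {q : Perm D × D} {y : D} {k : ℕ} {a b : ℕ → D}
    (h : Cut f v r q y k a b) : Lb (fp f) (sy q.1 y k a b) (sl f q y) ∧ ∀ d, 0 ≤ sl f q y d := by
  refine ⟨sw_lb (cut_pt0 hf h).2.2 (cut_big hf h).1, fun d => ?_⟩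
  exact (cut_pt0 hf h).2.1.nn d (cutf_leg (cut_pt0 hf h).1 d)

theorem cut_inv {f : Perm D} (hf : TF f) {v r : ℕ} {q : Perm D × D} {y : D} {k : ℕ} {a b : ℕ → D}
    (h : Cut f v r q y k a b) (d : D ⊕ Fin 6) :
    sy q.1 y k a b (sy q.1 y k a b d) = d ∧ sy q.1 y k a b d ≠ d := by
  exact ⟨sw_inv (cut_pt0 hf h).1.inv _ _ _ d, sw_fpf (cutf_leg (cut_pt0 hf h).1) _ _ _ d⟩

theorem cut_cyc {f : Perm D} (hf : TF f) {v r : ℕ} {q : Perm D × D} {y : D} {k : ℕ} {a b : ℕ → D}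
    (h : Cut f v r q y k a b) : cyc (fp f * sy q.1 y k a b) = v + 3 := by
  have h1 := sw_cyc (cut_pt0 hf h).2.2 (cut_big hf h).1
  have h2 := ap_cyc hf (cut_pt h).1.inv (cutf_leg (cut_pt h).1) y
  have h3 := (cut_pt h).2
  unfold sy
  omega

private theorem cutf_lvl {f : Perm D} (hf : TF f) {v r : ℕ} {q : Perm D × D} {y : D} {k : ℕ}
    {a b : ℕ → D} (h : Cut f v r q y k a b) (i : ℕ) (hi : i < k) :
    a i ≠ y ∧ b i ≠ y ∧ a i ≠ q.1 y ∧ b i ≠ q.1 y := by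
  have hl := (cut_lab hf h).2
  have hy : dlab f q.1 q.2 (f y) = dlab f q.1 q.2 y := h.big.lev
  have hy2 : dlab f q.1 q.2 (f (q.1 y)) = dlab f q.1 q.2 (q.1 y) := by
    have h1 := hl.ver (q.1 y)
    rw [hl.inv] at h1
    have h2 := hl.ver y
    omega
  have ha : dlab f q.1 q.2 (f (a i)) = dlab f q.1 q.2 (a i) - 1 := h.big.da i hi
  have hb : dlab f q.1 q.2 (f (b i)) = dlab f q.1 q.2 (b i) - 1 := h.big.db i hi
  refine ⟨?_, ?_, ?_, ?_⟩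
  · intro e
    rw [e] at ha
    omega
  · intro e
    rw [e] at hb
    omega
  · intro e
    rw [e] at ha
    omega
  · intro e
    rw [e] at hb
    omega

private theorem cut_ns {f : Perm D} (hf : TF f) {v r : ℕ} {q : Perm D × D} {y : D} {k : ℕ}
    {a b : ℕ → D} (h : Cut f v r q y k a b) (z : D ⊕ Fin 6)
    (h1 : z ≠ Sum.inr 5 ∧ z ≠ Sum.inr 2 ∧ z ≠ Sum.inr 1 ∧ z ≠ Sum.inr 4)
    (h2 : ∀ i < k, z ≠ Sum.inl (a i) ∧ z ≠ Sum.inl (b i) ∧ z ≠ Sum.inl (q.1 (a i)) ∧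
      z ≠ Sum.inl (q.1 (b i))) :
    sy q.1 y k a b z = ap q.1 y z := by
  obtain ⟨v1, v2, v3, v4, v5, v6, v7, v8, v9⟩ :=
    ap_val (cut_pt h).1.inv (cutf_leg (cut_pt h).1) y
  obtain ⟨-, hv'⟩ := sw_val (cut_pt0 hf h).2.2 (cut_big hf h).1
  refine hv' z fun i hi => ?_
  cases i with
  | zero =>
    have e1 : ca a 0 = Sum.inr 5 := rfl
    have e2 : cb b 0 = Sum.inr 2 := rfl
    rw [e1, e2, v6, v7]
    exact h1
  | succ i =>
    have hi' : i < k := Nat.lt_of_succ_lt_succ hi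
    have e1 : ca a (i + 1) = Sum.inl (a i) := rfl
    have e2 : cb b (i + 1) = Sum.inl (b i) := rfl
    obtain ⟨g1, g2, g3, g4⟩ := cutf_lvl hf h i hi'
    rw [e1, e2, v9 _ g1 g3, v9 _ g2 g4]
    exact h2 i hi'

theorem cut_val {f : Perm D} (hf : TF f) {v r : ℕ} {q : Perm D × D} {y : D} {k : ℕ} {a b : ℕ → D}
    (h : Cut f v r q y k a b) :
    sy q.1 y k a b (Sum.inr 0) = Sum.inl y ∧ sy q.1 y k a b (Sum.inl y) = Sum.inr 0 ∧
    sy q.1 y k a b (Sum.inr 3) = Sum.inl (q.1 y) ∧ sy q.1 y k a b (Sum.inl (q.1 y)) = Sum.inr 3 ∧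
    sy q.1 y k a b (Sum.inr 1) = Sum.inr 2 ∧ sy q.1 y k a b (Sum.inr 2) = Sum.inr 1 ∧
    sy q.1 y k a b (Sum.inr 4) = Sum.inr 5 ∧ sy q.1 y k a b (Sum.inr 5) = Sum.inr 4 ∧
    ∀ d, d ≠ y → d ≠ q.1 y → (∀ i < k, d ≠ a i ∧ d ≠ b i ∧ d ≠ q.1 (a i) ∧ d ≠ q.1 (b i)) →
      sy q.1 y k a b (Sum.inl d) = Sum.inl (q.1 d) := by
  obtain ⟨v1, v2, v3, v4, v5, v6, v7, v8, v9⟩ :=
    ap_val (cut_pt h).1.inv (cutf_leg (cut_pt h).1) y
  obtain ⟨hv, -⟩ := sw_val (cut_pt0 hf h).2.2 (cut_big hf h).1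
  obtain ⟨s1, s2, s3, s4⟩ := hv 0 (Nat.succ_pos k)
  have e1 : ca a 0 = Sum.inr 5 := rfl
  have e2 : cb b 0 = Sum.inr 2 := rfl
  rw [e1, e2] at s1 s2 s3 s4
  rw [v7] at s1 s4
  rw [v6] at s2 s3
  have hyl := cutf_lvl hf h
  refine ⟨?_, ?_, ?_, ?_, s3, s2, s4, s1, ?_⟩
  · rw [cut_ns hf h (Sum.inr 0) ⟨by simp, by simp, by simp, by simp⟩ fun i hi => ⟨by simp, by simp, by simp, by simp⟩, v2]
  · rw [cut_ns hf h (Sum.inl y) ⟨by simp, by simp, by simp, by simp⟩ fun i hi => ?_, v1]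
    obtain ⟨h1, h2, h3, h4⟩ := hyl i hi
    refine ⟨fun e => h1 (Sum.inl_injective e).symm, fun e => h2 (Sum.inl_injective e).symm,
      fun e => h3 ?_, fun e => h4 ?_⟩
    · rw [Sum.inl_injective e, (cut_pt h).1.inv]
    · rw [Sum.inl_injective e, (cut_pt h).1.inv]
  · rw [cut_ns hf h (Sum.inr 3) ⟨by simp, by simp, by simp, by simp⟩ fun i hi => ⟨by simp, by simp, by simp, by simp⟩, v4]
  · rw [cut_ns hf h (Sum.inl (q.1 y)) ⟨by simp, by simp, by simp, by simp⟩ fun i hi => ?_, v3]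
    obtain ⟨h1, h2, h3, h4⟩ := hyl i hi
    refine ⟨fun e => h3 (Sum.inl_injective e).symm, fun e => h4 (Sum.inl_injective e).symm,
      fun e => h1 ?_, fun e => h2 ?_⟩
    · exact (q.1.injective (Sum.inl_injective e)).symm
    · exact (q.1.injective (Sum.inl_injective e)).symm
  · intro d hdy hday hd
    rw [cut_ns hf h (Sum.inl d) ⟨by simp, by simp, by simp, by simp⟩ fun i hi => ?_, v9 d hdy hday]
    obtain ⟨h1, h2, h3, h4⟩ := hd i hi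
    exact ⟨fun e => h1 (Sum.inl_injective e), fun e => h2 (Sum.inl_injective e),
      fun e => h3 (Sum.inl_injective e), fun e => h4 (Sum.inl_injective e)⟩

theorem cut_vala {f : Perm D} (hf : TF f) {v r : ℕ} {q : Perm D × D} {y : D} {k : ℕ} {a b : ℕ → D}
    (h : Cut f v r q y k a b) (i : ℕ) (hi : i < k) :
    sy q.1 y k a b (Sum.inl (a i)) = Sum.inl (q.1 (b i)) ∧
    sy q.1 y k a b (Sum.inl (b i)) = Sum.inl (q.1 (a i)) ∧
    sy q.1 y k a b (Sum.inl (q.1 (a i))) = Sum.inl (b i) ∧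
    sy q.1 y k a b (Sum.inl (q.1 (b i))) = Sum.inl (a i) := by
  obtain ⟨v1, v2, v3, v4, v5, v6, v7, v8, v9⟩ :=
    ap_val (cut_pt h).1.inv (cutf_leg (cut_pt h).1) y
  obtain ⟨hv, -⟩ := sw_val (cut_pt0 hf h).2.2 (cut_big hf h).1
  obtain ⟨s1, s2, s3, s4⟩ := hv (i + 1) (Nat.succ_lt_succ hi)
  have e1 : ca a (i + 1) = Sum.inl (a i) := rfl
  have e2 : cb b (i + 1) = Sum.inl (b i) := rfl
  obtain ⟨h1, h2, h3, h4⟩ := cutf_lvl hf h i hi
  have e3 : ap q.1 y (Sum.inl (a i)) = Sum.inl (q.1 (a i)) := v9 _ h1 h3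
  have e4 : ap q.1 y (Sum.inl (b i)) = Sum.inl (q.1 (b i)) := v9 _ h2 h4
  rw [e1, e2] at s1 s2 s3 s4
  rw [e4] at s1 s4
  rw [e3] at s2 s3
  exact ⟨s1, s2, s3, s4⟩

theorem cut_leaf {f : Perm D} (hf : TF f) {v r : ℕ} {q : Perm D × D} {y : D} {k : ℕ} {a b : ℕ → D}
    (h : Cut f v r q y k a b) :
    Leaf (fp f) (sy q.1 y k a b) (Sum.inr 0) ∧ Leaf (fp f) (sy q.1 y k a b) (Sum.inr 3) ∧
      sl f q y (Sum.inr 0) = r ∧ sl f q y (Sum.inr 3) = r ∧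
      sl f q y (Sum.inr 2) = r + 1 ∧ sl f q y (Sum.inr 5) = r + 1 ∧ sl f q y (Sum.inl q.2) = 0 := by
  obtain ⟨c1, c2, c3, c4, c5, c6, c7, c8, -⟩ := cut_val hf h
  have hlev := h.lev
  have hay : dlab f q.1 q.2 (q.1 y) = dlab f q.1 q.2 y := by
    rw [← (cut_lab hf h).2.ver y, h.big.lev]
  have hr : dlab f q.1 q.2 (q.1 y) = r := hay.trans hlev
  refine ⟨?_, ?_, ?_, ?_, ?_, ?_, ?_⟩
  · show sy q.1 y k a b (Sum.inr 1) = Sum.inr 2
    exact c5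
  · show sy q.1 y k a b (Sum.inr 4) = Sum.inr 5
    exact c7
  · show dlab f q.1 q.2 (q.1 y) = r
    exact hr
  · show dlab f q.1 q.2 y = r
    exact hlev
  · show min (dlab f q.1 q.2 y) (dlab f q.1 q.2 (q.1 y)) + 1 = r + 1
    rw [hlev, hr, min_self]
  · show min (dlab f q.1 q.2 y) (dlab f q.1 q.2 (q.1 y)) + 1 = r + 1
    rw [hlev, hr, min_self]
  · show ((dst f q.1 q.2 q.2 : ℕ) : ℤ) = 0
    rw [dst_self f q.1 q.2 q.2 (Equiv.Perm.SameCycle.refl _ _)]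
    rfl

end QG1
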