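import Pool.Agent.H40.QL.Defs
import Pool.Agent.H39.QD.Stat
import Pool.Agent.H39.UA.Defs

/-!
# P186 (MP_bcc40c_pr, Q2), part (G): sharp growth (helper1; plan of helper39: H39/QG/PLAN.md)

Target: `QD39.StG`.  Notation of HG/Defs, QD/Defs, QL/Defs (helper40: `ap`, `fp`, `lp` = insertion of a digon, `ca`, `cb` =
the two paths of the bigon after the insertion, `sw` = cut and zip, `Rt` = roots).

`sy α y k a b` : the cut map of the level edge `y` (digon inserted at `y`, cut along the two leftmost geodesics `a`, `b`
                 from `y`, `α y` until they meet after `k` steps, both sides zipped);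
`Cut f v r q y k a b` : `q = (α, x)`, `y` is a level edge of level `r` with the geodesics `a`, `b`;
`Cp f α P`     : `P` is a proper closed set of darts;
`rst π P`      : the restriction of the permutation `π` to the closed set `P`;
`Bg f v r p i u` : pairs `q = (α, x)` with at most `p` darts of level `r` such that for some level edge of level `r` the cut map
                 is disconnected and the part of `x` has `6 i` darts and `u` vertices;
`XP`, `YP`     : the two parts.
-/

set_option autoImplicit false

namespace QG1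

open Equiv HG39 QD39 QL40

variable {D : Type} [Fintype D] [DecidableEq D]

/-- the cut map of the level edge `y` -/
def sy (α : Perm D) (y : D) (k : ℕ) (a b : ℕ → D) : Perm (D ⊕ Fin 6) :=
  sw (ap α y) (ca a) (cb b) (k + 1)

/-- the labels of the cut map -/
noncomputable def sl (f : Perm D) (q : Perm D × D) (y : D) : D ⊕ Fin 6 → ℤ :=
  lp q.1 (dlab f q.1 q.2) y

/-- `q = (α, x)`; `y` is a level edge of level `r`, `a` and `b` are the leftmost geodesics from `y` and
`α y` until they meet, after `k` steps -/
structure Cut (f : Perm D) (v r : ℕ) (q : Perm D × D) (y : D) (k : ℕ) (a b : ℕ → D) : Prop where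
  ts : q.1 ∈ TS f v
  rp : rep f q.1 q.2 = q.2
  big : Big1 f q.1 (dlab f q.1 q.2) y k a b
  lev : dlab f q.1 q.2 y = r

/-- proper closed sets of darts -/
structure Cp (f α : Perm D) (P : Finset D) : Prop where
  ff : ∀ d ∈ P, f d ∈ P
  aa : ∀ d ∈ P, α d ∈ P
  ne : P.Nonempty
  pr : P ≠ Finset.univ

open Classical in
/-- restriction of a permutation to a closed set -/
noncomputable def rst (π : Perm D) (P : Finset D) : Perm {d // d ∈ P} :=
  if h : ∀ d, π d ∈ P ↔ d ∈ P then π.subtypePerm h else 1

/-- pairs `(α, x)` with at most `p` darts of level `r` and a disconnected cut map; the part `P` of `x` has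
`u` vertices -/
def BgP (f : Perm D) (v r p u : ℕ) (P : Finset (D ⊕ Fin 6)) : Set (Perm D × D) :=
  {q | lt f q.1 q.2 r ≤ p ∧ ∃ (y : D) (k : ℕ) (a b : ℕ → D), Cut f v r q y k a b ∧
    Cp (fp f) (sy q.1 y k a b) P ∧ Sum.inl q.2 ∈ P ∧
    cyc (rst (fp f) P * rst (sy q.1 y k a b) P) = u}

/-- the same, the part of `x` has `6 i` darts -/
def Bg (f : Perm D) (v r p i u : ℕ) : Set (Perm D × D) :=
  {q | ∃ P : Finset (D ⊕ Fin 6), P.card = 6 * i ∧ q ∈ BgP f v r p u P}

/-- the part of `x`: a triangulation with a leaf at `z` and a vertex at distance `r` from the base -/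
def XP (f : Perm D) (u r : ℕ) (z : D) : Set (Perm D × D) :=
  {p | p.1 ∈ TS f u ∧ Leaf f p.1 z ∧ rep f p.1 p.2 = p.2 ∧ p.2 ≠ f (f z) ∧ dst f p.1 p.2 z = r}

/-- the other part: a triangulation with a vertex at level `j`, the dart `z` at level `r`, and at most `p` darts of
level `r` -/
def YP (f : Perm D) (u r p : ℕ) (z : D) : Set (Perm D × D × ℕ) :=
  {t | t.1 ∈ TS f u ∧ rep f t.1 t.2.1 = t.2.1 ∧ t.2.2 ≤ r ∧ dst f t.1 t.2.1 z + t.2.2 = r ∧
    (Finset.univ.filter fun d => dst f t.1 t.2.1 d + t.2.2 = r).card ≤ p}

/-- unions of components of the complement of the ball -/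
structure Out (f α : Perm D) (x : D) (r : ℕ) (O : Finset D) : Prop where
  ff : ∀ d ∈ O, f d ∈ O
  nb : ∀ d ∈ O, d ∉ ball f α x r
  aa : ∀ d ∈ O, α d ∉ ball f α x r → α d ∈ O

/-- indicator of the edge of `d` -/
def ed (α : Perm D) (d z : D) : ZMod 2 := if z = d ∨ z = α d then 1 else 0

/-- indicator of a set -/
def ind {E : Type} [DecidableEq E] (P : Finset E) (d : E) : ZMod 2 := if d ∈ P then 1 else 0

end QG1
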