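import Pool.Agent.H1.QG.Clf
import Pool.Agent.H1.QG.Bb
import Pool.Agent.H1.QG.B34
import Pool.Agent.H1.QG.B5
import Pool.Agent.H39.HG.AsyP

/-!
[H1 QG FIN]  P186 (MP_bcc40c_pr, Q2, part G)  Assembly: `StG`.

PROOF.  Given `h, v, ε` (`ε < 1/4`).  `DD` is continuous at `h` (finA_DD of UN/FinA is private: copy; `mh` is continuous, `0 < mh h < 1` by mh_prop) and `DD h > 0`: choose `h' ∈ (h, 1/4)` with `DD h ≥ (1 - ε/2) DD h'`.  `r = ⌊(1/2-ε) DD h log n⌋₊`, so `1 ≤ r ≤ n` for large `n`, `p = ⌊n^(1/2-2ε)⌋₊`, `M = ⌊(log n)^2⌋₊`.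
The set `{q | TS, rep, lt ≤ n^(1/2-2ε)}` is contained in the union of: (i) the set of b1; (ii) the set of b2; (iii) `⋃ Bg f (v n) r p i u`, `M + 1 ≤ i ≤ n - M`, `u < v n + 4`; (iv) `⋃ Bg`, `1 ≤ i ≤ M`, `u < v n + 4`, `u ≠ i + 2`; (v) `⋃ Bg f (v n) r p i (i+2)`, `1 ≤ i ≤ M`: classify, where `hb` holds outside (i) for large `n`:
`#ball + 6 M p < 3 n + 6 (log n)^2 n^(1/2) ≤ 6 n`.  The numbers: (i), (ii) `≤ n^(1-η_i) #TS`; (iii) `≤ #TS` (b3); (iv) `≤ (r+1) (log n)^11 #TS` (b4); (v) (b5): `≤ C (r+1)(p+4) n mh h'^r #TS`, `mh h'^r = exp(-r/DD h')`, `r ≥ (1/2-ε) DD h log n - 1`, so `mh h'^r ≤ (1/mh h') n^(-(1/2-ε) DD h/DD h') ≤ C' n^(-(1/2-ε)(1-ε/2)) ≤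
C' n^(-1/2 + ε + ε/4)`; `(p+4) ≤ 5 n^(1/2-2ε)`, `r + 1 ≤ C log n`: total `≤ C'' log n n^(1 - 3ε/4) #TS`.  The union bound (`Set.ncard_union_le`, finite type; sums over `i, u` as in QG/Cnt `bg_sum`) and `5 n^(1-η') ≤ n^(1-η)` for `η < η'`, large `n` (`(log n)^13 ≤ n^δ`: Real.isLittleO / `isLittleO_log_rpow_atTop`, or polylog_le of the library).
-/

set_option autoImplicit false

namespace QG1

open Equiv HG39 QD39 QL40 Filter Topology

private theorem fin_union {ι β : Type} [Finite β] [DecidableEq ι] (s : Finset ι)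
    (F : ι → Set β) : ((⋃ i ∈ s, F i).ncard : ℝ) ≤ ∑ i ∈ s, ((F i).ncard : ℝ) := by
  induction s using Finset.induction_on with
  | empty => simp
  | insert k s hk ih =>
    rw [Finset.set_biUnion_insert, Finset.sum_insert hk]
    have h1 : (((F k) ∪ ⋃ i ∈ s, F i).ncard : ℝ) ≤ ((F k).ncard : ℝ) + (⋃ i ∈ s, F i).ncard := by
      exact_mod_cast Set.ncard_union_le _ _
    linarith

private theorem fin_union2 {ι κ β : Type} [Finite β] [DecidableEq ι] [DecidableEq κ]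
    (s : Finset ι) (t : ι → Finset κ) (F : ι → κ → Set β) :
    ((⋃ i ∈ s, ⋃ j ∈ t i, F i j).ncard : ℝ) ≤ ∑ i ∈ s, ∑ j ∈ t i, ((F i j).ncard : ℝ) :=
  (fin_union s _).trans (Finset.sum_le_sum fun i _ => fin_union (t i) (F i))

private theorem fin_DD {h : ℝ} (h0 : 0 < h) (h1 : h < 1 / 4) : ContinuousAt HG39.DD h := by
  obtain ⟨m0, m1, _⟩ := HG39.mh_prop h h0 h1
  have hc : ContinuousAt HG39.mh h := by
    unfold HG39.mh
    apply ContinuousAt.div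
    · fun_prop
    · fun_prop
    · positivity
  unfold HG39.DD
  apply ContinuousAt.div continuousAt_const
  · exact (hc.log m0.ne').neg
  · have := Real.log_neg m0 m1
    linarith

private theorem fin_DDpos {h : ℝ} (h0 : 0 < h) (h1 : h < 1 / 4) : 0 < HG39.DD h := by
  obtain ⟨m0, m1, _⟩ := HG39.mh_prop h h0 h1
  unfold HG39.DD
  apply one_div_pos.2
  have := Real.log_neg m0 m1
  linarith

private theorem fin_pl (A : ℝ) (hA : 0 ≤ A) (k : ℕ) (δ : ℝ) (hδ : 0 < δ) :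
    ∃ n0 : ℕ, ∀ n ≥ n0, A * Real.log n ^ k ≤ (n : ℝ) ^ δ := by
  obtain ⟨n0, h⟩ := polylog_le A k δ hδ
  refine ⟨n0 + 1, fun n hn => le_trans ?_ (h n (by omega))⟩
  have h1 : (1 : ℝ) ≤ n := by exact_mod_cast (by omega : 1 ≤ n)
  have h2 := Real.log_nonneg h1
  exact mul_le_mul_of_nonneg_left (pow_le_pow_left₀ h2 (by linarith) k) hA

/-- `mh ^ r` at the radius -/
private theorem fin_mh {h h' ε : ℝ} (h0 : 0 < h) (h1 : h < 1 / 4) (h0' : 0 < h')
    (h1' : h' < 1 / 4) (hε : 0 < ε) (hε1 : ε < 1 / 4)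
    (hDD : (1 - ε / 2) * DD h' ≤ DD h) {n : ℕ} (hn : 1 ≤ n) {r : ℕ}
    (hr : r = ⌊(1 / 2 - ε) * DD h * Real.log n⌋₊) :
    mh h' ^ r ≤ Real.exp (1 / DD h') * (n : ℝ) ^ (-(1 / 2) + 5 / 4 * ε) := by
  obtain ⟨m0, m1, _⟩ := HG39.mh_prop h' h0' h1'
  have hD := fin_DDpos h0 h1
  have hD' := fin_DDpos h0' h1'
  have hlog : Real.log (mh h') = -(1 / DD h') := by
    unfold DD
    have := Real.log_neg m0 m1
    field_simp
  have hnp : (0 : ℝ) < n := by exact_mod_cast hn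
  have hL : 0 ≤ Real.log n := Real.log_nonneg (by exact_mod_cast hn)
  have hr1 : (1 / 2 - ε) * DD h * Real.log n - 1 ≤ r := by
    have := Nat.lt_floor_add_one ((1 / 2 - ε) * DD h * Real.log n)
    rw [← hr] at this
    linarith
  have e1 : mh h' ^ r = Real.exp (-(r / DD h')) := by
    rw [← Real.exp_log m0, hlog, ← Real.exp_nat_mul]
    congr 1
    ring
  rw [e1, Real.rpow_def_of_pos hnp, ← Real.exp_add]
  apply Real.exp_le_exp.2
  have e2 : ((1 / 2 - ε) * DD h * Real.log n - 1) / DD h' ≤ r / DD h' :=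
    div_le_div_of_nonneg_right hr1 hD'.le
  have e3 : (1 / 2 - ε) * (1 - ε / 2) * Real.log n ≤ (1 / 2 - ε) * DD h * Real.log n / DD h' := by
    rw [le_div_iff₀ hD']
    have : (1 / 2 - ε) * Real.log n * ((1 - ε / 2) * DD h') ≤ (1 / 2 - ε) * Real.log n * DD h :=
      mul_le_mul_of_nonneg_left hDD (mul_nonneg (by linarith) hL)
    nlinarith
  rw [sub_div] at e2
  have e4 : (1 / 2 - 5 / 4 * ε) * Real.log n ≤ (1 / 2 - ε) * (1 - ε / 2) * Real.log n := by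
    apply mul_le_mul_of_nonneg_right _ hL
    nlinarith
  nlinarith

theorem stG : StG := by
  classical
  intro h h0 h1 v hv hp ε hε hε1
  have hD := fin_DDpos h0 h1
  -- choice of h'
  obtain ⟨h', hh', h1', hDD⟩ : ∃ h' : ℝ, h < h' ∧ h' < 1 / 4 ∧ (1 - ε / 2) * DD h' ≤ DD h := by
    have h2 : Tendsto (fun t => (1 - ε / 2) * DD t) (𝓝[>] h) (𝓝 ((1 - ε / 2) * DD h)) :=
      ((fin_DD h0 h1).tendsto.const_mul _).mono_left nhdsWithin_le_nhds
    have h3 : (1 - ε / 2) * DD h < DD h := by nlinarith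
    have h4 : ∀ᶠ t in 𝓝[>] h, (1 - ε / 2) * DD t < DD h := h2.eventually (gt_mem_nhds h3)
    have h5 : ∀ᶠ t in 𝓝[>] h, t ∈ Set.Ioo h (1 / 4) := Ioo_mem_nhdsGT h1
    obtain ⟨t, ht1, ht2⟩ := (h4.and h5).exists
    exact ⟨t, ht2.1, ht2.2, ht1.le⟩
  have h0' : 0 < h' := h0.trans hh'
  obtain ⟨η1, hη1, n1, B1⟩ := b1 h0 h1 hv hp hε (by linarith)
  obtain ⟨η2, hη2, n2, B2⟩ := b2 h0 h1 hv hp hε (by linarith)
  obtain ⟨n3, B3⟩ := b3 h0 h1 hv hp
  obtain ⟨n4, B4⟩ := b4 h0 h1 hv hp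
  obtain ⟨C, hC, n5, B5⟩ := b5 h0 hh' h1' hv hp
  have hD' := fin_DDpos h0' h1'
  -- constants
  set A : ℝ := (1 / 2 - ε) * DD h with hA
  have hApos : 0 < A := mul_pos (by linarith) hD
  set η' : ℝ := min (min η1 η2) (ε / 2) with hη'
  have hη'0 : 0 < η' := lt_min (lt_min hη1 hη2) (by linarith)
  have hη'1 : η' ≤ η1 := (min_le_left _ _).trans (min_le_left _ _)
  have hη'2 : η' ≤ η2 := (min_le_left _ _).trans (min_le_right _ _)
  have hη'3 : η' ≤ ε / 2 := min_le_right _ _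
  set E : ℝ := Real.exp (1 / DD h') with hE
  have hEpos : 0 < E := Real.exp_pos _
  obtain ⟨m1, P1⟩ := fin_pl A hApos.le 1 1 one_pos
  obtain ⟨m2, P2⟩ := fin_pl 2 (by norm_num) 2 (1 / 2) (by norm_num)
  obtain ⟨m3, P3⟩ := fin_pl (A + 1) (by positivity) 12 (1 / 2) (by norm_num)
  obtain ⟨m4, P4⟩ := fin_pl (C * (A + 1) * 5 * E) (by positivity) 1 (ε / 4) (by linarith)
  obtain ⟨m5, P5⟩ := fin_pl 5 (by norm_num) 0 (η' / 2) (by linarith)
  -- r ≥ 1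
  obtain ⟨m6, P6⟩ : ∃ m6 : ℕ, ∀ n : ℕ, m6 ≤ n → 1 ≤ A * Real.log n ∧ 1 ≤ Real.log n := by
    have h2 : Tendsto (fun n : ℕ => Real.log (n : ℝ)) atTop atTop :=
      Real.tendsto_log_atTop.comp tendsto_natCast_atTop_atTop
    have h3 : Tendsto (fun n : ℕ => A * Real.log (n : ℝ)) atTop atTop :=
      h2.const_mul_atTop hApos
    obtain ⟨m, hm⟩ := eventually_atTop.1
      ((h3.eventually (eventually_ge_atTop 1)).and (h2.eventually (eventually_ge_atTop 1)))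
    exact ⟨m, hm⟩
  refine ⟨η' / 2, by linarith, n1 + n2 + n3 + n4 + n5 + m1 + m2 + m3 + m4 + m5 + m6 + 2, ?_⟩
  intro n hn f hf r hr
  obtain ⟨Q1, Q2⟩ := P6 n (by omega)
  have hn1 : 1 ≤ n := by omega
  have hnr : (1 : ℝ) ≤ n := by exact_mod_cast hn1
  have hnp : (0 : ℝ) < n := by linarith
  set L : ℝ := Real.log n with hLdef
  have hL0 : 0 ≤ L := by linarith
  have hr1 : 1 ≤ r := by
    rw [hr]
    exact Nat.le_floor (by push_cast; exact Q1)
  have hrL : (r : ℝ) ≤ A * L := by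
    rw [hr]
    exact Nat.floor_le (by positivity)
  have hrn : r ≤ n := by
    have := P1 n (by omega)
    rw [pow_one, Real.rpow_one] at this
    exact_mod_cast hrL.trans this
  set T : ℝ := ((TS f (v n)).ncard : ℝ) with hT
  have hT0 : 0 ≤ T := Nat.cast_nonneg _
  set p : ℕ := ⌊(n : ℝ) ^ (1 / 2 - 2 * ε)⌋₊ with hp'
  have hpr : (p : ℝ) ≤ (n : ℝ) ^ (1 / 2 - 2 * ε) := Nat.floor_le (by positivity)
  set M : ℕ := ⌊L ^ 2⌋₊ with hM
  have hMr : (M : ℝ) ≤ L ^ 2 := Nat.floor_le (by positivity)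
  set S0 : Set (Perm (Fin (6 * n)) × Fin (6 * n)) := {q | q.1 ∈ TS f (v n) ∧
    rep f q.1 q.2 = q.2 ∧ (lt f q.1 q.2 r : ℝ) ≤ (n : ℝ) ^ (1 / 2 - 2 * ε)} with hS0
  set A1 : Set (Perm (Fin (6 * n)) × Fin (6 * n)) := {q | q.1 ∈ TS f (v n) ∧
    rep f q.1 q.2 = q.2 ∧ 3 * n ≤ (ball f q.1 q.2 r).card} with hA1
  set A2 : Set (Perm (Fin (6 * n)) × Fin (6 * n)) := {q | ∃ (y : Fin (6 * n)) (k : ℕ)
    (a b : ℕ → Fin (6 * n)), Cut f (v n) r q y k a b ∧ PT (fp f) (sy q.1 y k a b) []} with hA2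
  set A3 : Set (Perm (Fin (6 * n)) × Fin (6 * n)) :=
    ⋃ i ∈ Finset.Icc (M + 1) (n - M), ⋃ u ∈ Finset.range (v n + 4), Bg f (v n) r p i u with hA3
  set A4 : Set (Perm (Fin (6 * n)) × Fin (6 * n)) :=
    ⋃ i ∈ Finset.Icc 1 M, ⋃ u ∈ (Finset.range (v n + 4)).filter (fun u => u ≠ i + 2),
      Bg f (v n) r p i u with hA4
  set A5 : Set (Perm (Fin (6 * n)) × Fin (6 * n)) :=
    ⋃ i ∈ Finset.Icc 1 M, Bg f (v n) r p i (i + 2) with hA5
  have hsub : S0 ⊆ A1 ∪ A2 ∪ A3 ∪ A4 ∪ A5 := by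
    intro q hq
    obtain ⟨q1, q2, q3⟩ := hq
    by_cases c1 : 3 * n ≤ (ball f q.1 q.2 r).card
    · exact Or.inl (Or.inl (Or.inl (Or.inl ⟨q1, q2, c1⟩)))
    · have hlt : lt f q.1 q.2 r ≤ p := Nat.le_floor q3
      have hMp : 6 * M * p ≤ 3 * n := by
        have e1 : (M : ℝ) * p ≤ L ^ 2 * (n : ℝ) ^ (1 / 2 : ℝ) := by
          apply mul_le_mul hMr (hpr.trans _) (Nat.cast_nonneg _) (by positivity)
          exact Real.rpow_le_rpow_of_exponent_le hnr (by linarith)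
        have e2 : 2 * L ^ 2 ≤ (n : ℝ) ^ (1 / 2 : ℝ) := P2 n (by omega)
        have e3 : (n : ℝ) ^ (1 / 2 : ℝ) * (n : ℝ) ^ (1 / 2 : ℝ) = n := by
          rw [← Real.rpow_add hnp]
          norm_num
        have e4 : (0 : ℝ) ≤ (n : ℝ) ^ (1 / 2 : ℝ) := by positivity
        have e5 : (6 * M * p : ℝ) ≤ 3 * n := by
          have := mul_le_mul_of_nonneg_right e2 e4
          nlinarith
        exact_mod_cast e5
      rcases classify (n := n) (M := M) (p := p) hf (by simp) hr1 q1 q2 hlt (by omega) with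
        hc | ⟨i, u, i1, i2, i3, i4⟩ | ⟨i, u, i1, i2, i3, i4⟩
      · exact Or.inl (Or.inl (Or.inl (Or.inr hc)))
      · refine Or.inl (Or.inl (Or.inr ?_))
        simp only [hA3, Set.mem_iUnion]
        exact ⟨i, Finset.mem_Icc.2 ⟨i1, i2⟩, u, Finset.mem_range.2 i3, i4⟩
      · by_cases c2 : u = i + 2
        · refine Or.inr ?_
          simp only [hA5, Set.mem_iUnion]
          exact ⟨i, Finset.mem_Icc.2 ⟨i1, i2⟩, by rw [← c2]; exact i4⟩
        · refine Or.inl (Or.inr ?_)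
          simp only [hA4, Set.mem_iUnion]
          exact ⟨i, Finset.mem_Icc.2 ⟨i1, i2⟩, u,
            Finset.mem_filter.2 ⟨Finset.mem_range.2 i3, c2⟩, i4⟩
  have hcard : (S0.ncard : ℝ) ≤ A1.ncard + A2.ncard + A3.ncard + A4.ncard + A5.ncard := by
    have e1 := Set.ncard_le_ncard hsub (Set.toFinite _)
    have e2 := Set.ncard_union_le (A1 ∪ A2 ∪ A3 ∪ A4) A5
    have e3 := Set.ncard_union_le (A1 ∪ A2 ∪ A3) A4
    have e4 := Set.ncard_union_le (A1 ∪ A2) A3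
    have e5 := Set.ncard_union_le A1 A2
    exact_mod_cast (by omega : S0.ncard ≤ A1.ncard + A2.ncard + A3.ncard + A4.ncard + A5.ncard)
  have hε3 : η' < 1 / 2 := by linarith
  -- the five bounds
  have c1 : (A1.ncard : ℝ) ≤ (n : ℝ) ^ (1 - η') * T := by
    refine (B1 n (by omega) f hf r hrL).trans (mul_le_mul_of_nonneg_right ?_ hT0)
    exact Real.rpow_le_rpow_of_exponent_le hnr (by linarith)
  have c2 : (A2.ncard : ℝ) ≤ (n : ℝ) ^ (1 - η') * T := by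
    refine (B2 n (by omega) f hf r hrL).trans (mul_le_mul_of_nonneg_right ?_ hT0)
    exact Real.rpow_le_rpow_of_exponent_le hnr (by linarith)
  have c3 : (A3.ncard : ℝ) ≤ (n : ℝ) ^ (1 - η') * T := by
    refine (fin_union2 _ _ _).trans ((B3 n (by omega) f hf r p hrn).trans ?_)
    have : (1 : ℝ) ≤ (n : ℝ) ^ (1 - η') := Real.one_le_rpow hnr (by linarith)
    nlinarith
  have c4 : (A4.ncard : ℝ) ≤ (n : ℝ) ^ (1 - η') * T := by
    refine (fin_union2 _ _ _).trans ((B4 n (by omega) f hf r p).trans ?_)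
    apply mul_le_mul_of_nonneg_right _ hT0
    have e1 : ((r : ℝ) + 1) * L ^ 11 ≤ (A + 1) * L ^ 12 := by
      have : (r : ℝ) + 1 ≤ (A + 1) * L := by nlinarith
      calc ((r : ℝ) + 1) * L ^ 11 ≤ (A + 1) * L * L ^ 11 :=
            mul_le_mul_of_nonneg_right this (by positivity)
        _ = _ := by ring
    refine e1.trans ((P3 n (by omega)).trans ?_)
    exact Real.rpow_le_rpow_of_exponent_le hnr (by linarith)
  have c5 : (A5.ncard : ℝ) ≤ (n : ℝ) ^ (1 - η') * T := by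
    refine (fin_union _ _).trans ((B5 n (by omega) f hf r p).trans ?_)
    apply mul_le_mul_of_nonneg_right _ hT0
    have e1 : (r : ℝ) + 1 ≤ (A + 1) * L := by nlinarith
    have e2 : (p : ℝ) + 4 ≤ 5 * (n : ℝ) ^ (1 / 2 - 2 * ε) := by
      have : (1 : ℝ) ≤ (n : ℝ) ^ (1 / 2 - 2 * ε) := Real.one_le_rpow hnr (by linarith)
      linarith
    have e3 : mh h' ^ r ≤ E * (n : ℝ) ^ (-(1 / 2) + 5 / 4 * ε) :=
      fin_mh h0 h1 h0' h1' hε hε1 hDD hn1 hr
    have m0 : 0 ≤ mh h' ^ r := pow_nonneg (mh_prop h' h0' h1').1.le _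
    calc C * (r + 1) * (p + 4) * n * mh h' ^ r ≤
        C * ((A + 1) * L) * (5 * (n : ℝ) ^ (1 / 2 - 2 * ε)) * n *
          (E * (n : ℝ) ^ (-(1 / 2) + 5 / 4 * ε)) := by
          gcongr
      _ = C * (A + 1) * 5 * E * L * ((n : ℝ) ^ (1 / 2 - 2 * ε) * (n : ℝ) ^ (1 : ℝ) *
          (n : ℝ) ^ (-(1 / 2) + 5 / 4 * ε)) := by
          rw [Real.rpow_one]
          ring
      _ = C * (A + 1) * 5 * E * L ^ 1 * (n : ℝ) ^ (1 - 3 / 4 * ε) := by
          rw [← Real.rpow_add hnp, ← Real.rpow_add hnp, pow_one]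
          congr 2
          ring
      _ ≤ (n : ℝ) ^ (ε / 4) * (n : ℝ) ^ (1 - 3 / 4 * ε) := by
          apply mul_le_mul_of_nonneg_right (P4 n (by omega)) (by positivity)
      _ = (n : ℝ) ^ (1 - ε / 2) := by
          rw [← Real.rpow_add hnp]
          congr 1
          ring
      _ ≤ (n : ℝ) ^ (1 - η') := Real.rpow_le_rpow_of_exponent_le hnr (by linarith)
  have c6 : 5 * (n : ℝ) ^ (1 - η') ≤ (n : ℝ) ^ (1 - η' / 2) := by
    have e1 := P5 n (by omega)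
    rw [pow_zero, mul_one] at e1
    calc 5 * (n : ℝ) ^ (1 - η') ≤ (n : ℝ) ^ (η' / 2) * (n : ℝ) ^ (1 - η') :=
          mul_le_mul_of_nonneg_right e1 (by positivity)
      _ = _ := by
          rw [← Real.rpow_add hnp]
          congr 1
          ring
  calc (S0.ncard : ℝ) ≤ 5 * (n : ℝ) ^ (1 - η') * T := by linarith
    _ ≤ _ := mul_le_mul_of_nonneg_right c6 hT0

end QG1
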