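import Pool.Agent.H1.QG.Cmp
import Pool.Agent.H40.QL.Luni

/-!
[H1 QG INJP]  P186 (MP_bcc40c_pr, Q2, part G)  For a fixed set `P`: the number of pairs `(α, x)` is at most the product of the numbers of the two parts.

PROOF.  `F = fp f`.  For `q = (α, x) ∈ BgP f v r p u P` choose `y, k, a, b` (Cut, ...) and `w` (cut_rt); `A = sy q.1 y k a b`, `L = sl f q y`.  `inl x ∈ P`, so `w ∉ P` (cut_side).  Map
`q ↦ ((rst A P, rep (rst F P) (rst A P) ⟨inl x, _⟩), (rst A Pᶜ, rep (rst F Pᶜ) (rst A Pᶜ) ⟨w, _⟩, r - k))`.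
(1) first component in `XP (rst F P) u r ⟨inr e, he⟩`: TS: cut_cpt and the assumption on `cyc`; Leaf: cut_leaf for `inr 0` and `inr 3`, rst_val; `rep (rep z) = rep z` (Quotient.out_eq; rep depends only on the cycle); the level of the representative is 0 (it is in the cycle of `inl x` by rst_same; lb_same, cut_leaf), while `F (F (inr e))` is `inr 2` or `inr 5` of
level `r + 1`: different; `dst (rep ..) z = r`: dst_comm, dst_congr and cmp_lab (`P`, root `inl x` of label 0): `L (inr e) = 0 + dst`, `L (inr e) = r`.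
(2) second component in `YP (rst F Pᶜ) (v+3-u) r (p+4) ⟨inr e', he'⟩`: TS: cut_cpt for `Pᶜ` (cp_compl), `cyc (F A) = v + 3` (cut_cyc), rst_cyc, rst_mul: `cyc = v + 3 - u`; `r - k ≤ r`; `dst (rep w) z' + (r - k) = r`: cmp_lab for `Pᶜ` with the root `w` (`Rt` is symmetric in the two roots), `L w = r - k`, `k ≤ r` (cut_big); the number of darts `d ∈ Pᶜ` with
`dst w d + (r - k) = r`, i.e. `L d = r`, is at most `lt + 4 ≤ p + 4` (cut_cnt; injection `Subtype.val`).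
(3) injective: let `q, q'` have the same image (data `y', k', a', b', w'`).  rst_ext: `A = A'`; `k = k'` (both `≤ r`); `inl x ~ inl x'` and `w ~ w'` in `F * A` (equal representatives: Quotient.exact/out, rst_same).  `Rt F A L (inl x) w`, and `Rt F A L' (inl x) w` (replace `inl x'`, `w'` by equivalent darts); `L, L' ≥ 0`, `L (inl x) = 0 = L' (inl x)`,
`L w = r - k = L' w`: lab_unique (Luni; it needs `Rt` for both label functions with the same roots): `L = L'`.  `A = sw α⁺ (ca a) (cb b) (k+1) = sw α'⁺ (ca a') (cb b') (k+1)`: by sw_geo for both and fst_unique: `ca a (i+1)` is the dart `δ` with `Fst F A L (A (ca a i)) δ`, so `ca a i = ca a' i`, `cb b i = cb b' i` for `i ≤ k` by induction (`ca a 0 = inr 5 = ca a' 0`);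
swp_congr and sw_back: `α⁺ = α'⁺`; ap_inj: `α = α'`, `y = y'`.  Restricting `L = L'` to `D`: `dlab f α x = dlab f α x'`, so `dst f α x x' = dst f α x' x' = 0`, `x ~ x'` (Lab.zro of cut_lab), `x = rep x = rep x' = x'` (Cut.rp).
(4) finiteness: `YP` is contained in `univ ×ˢ univ ×ˢ Set.Iic r`; `Set.ncard_le_ncard_of_injOn` into the product `XP ×ˢ YP`, `Set.ncard_prod`.
-/

set_option autoImplicit false

namespace QG1

open Equiv HG39 QD39 QL40

variable {D : Type} [Fintype D] [DecidableEq D]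

omit [Fintype D] [DecidableEq D] in
private theorem injp_leg {f α : Perm D} (h : PT f α []) (d : D) : α d ≠ d := by
  intro h1
  have h2 := (h.leg d).1 h1
  simp [tri] at h2

theorem yp_fin (f : Perm D) (u r p : ℕ) (z : D) : (YP f u r p z).Finite := by
  refine ((Set.finite_univ (α := Perm D)).prod
    ((Set.finite_univ (α := D)).prod (Set.finite_Iic r))).subset ?_
  rintro ⟨α, x, j⟩ h
  exact ⟨Set.mem_univ _, Set.mem_univ _, h.2.2.1⟩

private theorem injp_ncard {A B : Type} (S : Set A) (T : Set B) (hT : T.Finite)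
    (R : A → B → Prop) (h1 : ∀ a ∈ S, ∃ b ∈ T, R a b)
    (h2 : ∀ a a' b, R a b → R a' b → a = a') : S.ncard ≤ T.ncard := by
  classical
  rcases S.eq_empty_or_nonempty with h | ⟨a0, ha0⟩
  · rw [h, Set.ncard_empty]
    exact Nat.zero_le _
  · obtain ⟨b0, -⟩ := h1 a0 ha0
    obtain ⟨F, hF⟩ : ∃ F : A → B, ∀ a ∈ S, F a ∈ T ∧ R a (F a) :=
      ⟨fun a => if h : a ∈ S then (h1 a h).choose else b0, fun a ha => by
        simp only [dif_pos ha]
        exact (h1 a ha).choose_spec⟩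
    exact Set.ncard_le_ncard_of_injOn F (fun a ha => (hF a ha).1)
      (fun a ha a' ha' h => h2 a a' (F a) (hF a ha).2 (by rw [h]; exact (hF a' ha').2)) hT

private theorem injp_rep {E : Type} [Fintype E] [DecidableEq E] {f α : Perm E} {a b : E}
    (h : rep f α a = rep f α b) : (f * α).SameCycle a b := by
  have h1 := rep_same f α a
  rw [h] at h1
  exact h1.symm.trans (rep_same f α b)

private theorem injp_same {E : Type} [Fintype E] [DecidableEq E] {f α : Perm E} {P : Finset E}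
    (hP : Cp f α P) (a b : {d // d ∈ P}) :
    (rst f P * rst α P).SameCycle a b ↔ (f * α).SameCycle (a : E) (b : E) := by
  rw [← rst_mul hP.ff hP.aa]
  exact rst_same (fun d hd => hP.ff (α d) (hP.aa d hd)) a b

private def InjR (f : Perm D) (v r : ℕ) (P : Finset (D ⊕ Fin 6)) (q : Perm D × D)
    (t : (Perm {d // d ∈ P} × {d // d ∈ P}) × (Perm {d // d ∈ Pᶜ} × {d // d ∈ Pᶜ} × ℕ)) : Prop :=
  ∃ (y : D) (k : ℕ) (a b : ℕ → D) (w : D ⊕ Fin 6) (hx : Sum.inl q.2 ∈ P) (hw : w ∈ Pᶜ),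
    Cut f v r q y k a b ∧ Cp (fp f) (sy q.1 y k a b) P ∧ sl f q y w = (r : ℤ) - k ∧
    Rt (fp f) (sy q.1 y k a b) (sl f q y) (Sum.inl q.2) w ∧
    t.1.1 = rst (sy q.1 y k a b) P ∧
    t.1.2 = rep (rst (fp f) P) (rst (sy q.1 y k a b) P) ⟨Sum.inl q.2, hx⟩ ∧
    t.2.1 = rst (sy q.1 y k a b) Pᶜ ∧
    t.2.2.1 = rep (rst (fp f) Pᶜ) (rst (sy q.1 y k a b) Pᶜ) ⟨w, hw⟩ ∧ t.2.2.2 = r - k

omit [Fintype D] [DecidableEq D] in
private theorem injp_rt {f α : Perm D} {ℓ : D → ℤ} {x w : D} (h : Rt f α ℓ x w) :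
    Rt f α ℓ w x := by
  intro d
  rcases h d with h1 | h1 | h1
  · exact Or.inr (Or.inl h1)
  · exact Or.inl h1
  · exact Or.inr (Or.inr h1)

private theorem injp_ex {f : Perm D} (hf : TF f) {v r p u : ℕ} {P : Finset (D ⊕ Fin 6)}
    {e e' : Fin 6} (hee : (e = 0 ∧ e' = 3) ∨ (e = 3 ∧ e' = 0)) (he : Sum.inr e ∈ P)
    (he' : Sum.inr e' ∈ Pᶜ) {q : Perm D × D} (hq : q ∈ BgP f v r p u P) :
    ∃ t ∈ (XP (rst (fp f) P) u r ⟨Sum.inr e, he⟩) ×ˢ
      (YP (rst (fp f) Pᶜ) (v + 3 - u) r (p + 4) ⟨Sum.inr e', he'⟩), InjR f v r P q t := by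
  obtain ⟨hlt, y, k, a, b, hC, hP, hx, hu⟩ := hq
  obtain ⟨w, hw, hr⟩ := cut_rt hf hC
  have hwP : w ∈ Pᶜ := Finset.mem_compl.2 ((cut_side hf hC hP hr).1 hx)
  have hPc := cp_compl hP
  have hl := (cut_lb hf hC).1
  obtain ⟨l1, l2, l3, l4, l5, l6, l7⟩ := cut_leaf hf hC
  have hkr := (cut_big hf hC).2
  obtain ⟨g1, g2, g3, g4⟩ : Leaf (fp f) (sy q.1 y k a b) (Sum.inr e) ∧
      sl f q y (Sum.inr e) = r ∧ sl f q y (Sum.inr e') = r ∧
      sl f q y (fp f (fp f (Sum.inr e))) = r + 1 := by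
    rcases hee with ⟨h1, h2⟩ | ⟨h1, h2⟩
    · rw [h1, h2]
      exact ⟨l1, l3, l4, l5⟩
    · rw [h1, h2]
      exact ⟨l2, l4, l3, l6⟩
  have hcp := cut_cpt hf hC hP
  have hcp' := cut_cpt hf hC hPc
  have hlabP := cmp_lab (fp_tf hf) hl hP hr hx (Finset.mem_compl.1 hwP) hcp
  have hlabC := cmp_lab (fp_tf hf) hl hPc (injp_rt hr) hwP
    (fun h => Finset.mem_compl.1 h hx) hcp'
  refine ⟨((rst (sy q.1 y k a b) P,
      rep (rst (fp f) P) (rst (sy q.1 y k a b) P) ⟨Sum.inl q.2, hx⟩),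
    (rst (sy q.1 y k a b) Pᶜ, rep (rst (fp f) Pᶜ) (rst (sy q.1 y k a b) Pᶜ) ⟨w, hwP⟩, r - k)),
    ⟨⟨⟨hcp, hu⟩, ?_, ?_, ?_, ?_⟩, ⟨⟨hcp', ?_⟩, ?_, ?_, ?_, ?_⟩⟩,
    ⟨y, k, a, b, w, hx, hwP, hC, hP, hw, hr, rfl, rfl, rfl, rfl, rfl⟩⟩
  · show rst (sy q.1 y k a b) P (rst (fp f) P ⟨Sum.inr e, he⟩) =
      rst (fp f) P (rst (fp f) P ⟨Sum.inr e, he⟩)
    refine Subtype.ext ?_
    rw [rst_val hP.aa, rst_val hP.ff, rst_val hP.ff, rst_val hP.ff]
    exact g1
  · exact rep_eq (rep_same _ _ _)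
  · intro h
    have h' : rep (rst (fp f) P) (rst (sy q.1 y k a b) P) ⟨Sum.inl q.2, hx⟩ =
      rst (fp f) P (rst (fp f) P ⟨Sum.inr e, he⟩) := h
    have h1 := rep_same (rst (fp f) P) (rst (sy q.1 y k a b) P) ⟨Sum.inl q.2, hx⟩
    rw [h'] at h1
    have h2 := lb_same hl ((injp_same hP _ _).1 h1)
    rw [rst_val hP.ff, rst_val hP.ff] at h2
    have h3 : sl f q y (fp f (fp f (Sum.inr e))) = sl f q y (Sum.inl q.2) := h2
    omega
  · show dst (rst (fp f) P) (rst (sy q.1 y k a b) P)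
      (rep (rst (fp f) P) (rst (sy q.1 y k a b) P) ⟨Sum.inl q.2, hx⟩) ⟨Sum.inr e, he⟩ = r
    rw [dst_comm, dst_congr _ _ _ _ _ (rep_same _ _ _), dst_comm]
    have h1 := hlabP ⟨Sum.inr e, he⟩
    have h2 : sl f q y (Sum.inr e) = sl f q y (Sum.inl q.2) +
      dst (rst (fp f) P) (rst (sy q.1 y k a b) P) ⟨Sum.inl q.2, hx⟩ ⟨Sum.inr e, he⟩ := h1
    omega
  · have h1 := rst_cyc (π := fp f * sy q.1 y k a b) (P := P)
      (fun d hd => hP.ff (sy q.1 y k a b d) (hP.aa d hd))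
    rw [rst_mul hP.ff hP.aa, rst_mul hPc.ff hPc.aa, cut_cyc hf hC, hu] at h1
    show cyc (rst (fp f) Pᶜ * rst (sy q.1 y k a b) Pᶜ) = v + 3 - u
    omega
  · exact rep_eq (rep_same _ _ _)
  · exact Nat.sub_le _ _
  · show dst (rst (fp f) Pᶜ) (rst (sy q.1 y k a b) Pᶜ)
      (rep (rst (fp f) Pᶜ) (rst (sy q.1 y k a b) Pᶜ) ⟨w, hwP⟩) ⟨Sum.inr e', he'⟩ + (r - k) = r
    rw [dst_comm, dst_congr _ _ _ _ _ (rep_same _ _ _), dst_comm]
    have h1 := hlabC ⟨Sum.inr e', he'⟩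
    have h2 : sl f q y (Sum.inr e') = sl f q y w +
      dst (rst (fp f) Pᶜ) (rst (sy q.1 y k a b) Pᶜ) ⟨w, hwP⟩ ⟨Sum.inr e', he'⟩ := h1
    omega
  · refine le_trans (Finset.card_le_card_of_injOn
      (t := Finset.univ.filter fun d => sl f q y d = r) Subtype.val ?_
      (fun _ _ _ _ h => Subtype.ext h)) ((cut_cnt hf hC).trans (Nat.add_le_add_right hlt 4))
    intro d hd
    have hd1 : dst (rst (fp f) Pᶜ) (rst (sy q.1 y k a b) Pᶜ)
      (rep (rst (fp f) Pᶜ) (rst (sy q.1 y k a b) Pᶜ) ⟨w, hwP⟩) d + (r - k) = r := by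
      have h1 := Finset.mem_coe.1 hd
      exact (Finset.mem_filter.1 h1).2
    rw [dst_comm, dst_congr _ _ _ _ _ (rep_same _ _ _), dst_comm] at hd1
    have h1 := hlabC d
    refine Finset.mem_coe.2 (Finset.mem_filter.2 ⟨Finset.mem_univ _, ?_⟩)
    omega

private theorem injp_inj {f : Perm D} (hf : TF f) {v r : ℕ} {P : Finset (D ⊕ Fin 6)}
    {q q' : Perm D × D}
    {t : (Perm {d // d ∈ P} × {d // d ∈ P}) × (Perm {d // d ∈ Pᶜ} × {d // d ∈ Pᶜ} × ℕ)}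
    (h : InjR f v r P q t) (h' : InjR f v r P q' t) : q = q' := by
  obtain ⟨y, k, a, b, w, hx, hw, hC, hP, hlw, hr, t1, t2, t3, t4, t5⟩ := h
  obtain ⟨y', k', a', b', w', hx', hw', hC', hP', hlw', hr', t1', t2', t3', t4', t5'⟩ := h'
  have hA : sy q.1 y k a b = sy q'.1 y' k' a' b' :=
    rst_ext hP.aa hP'.aa (t1.symm.trans t1') (t3.symm.trans t3')
  obtain ⟨hB, hkr⟩ := cut_big hf hC
  obtain ⟨hB', hkr'⟩ := cut_big hf hC'
  have hk : k' = k := by
    have := t5.symm.trans t5'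
    omega
  subst hk
  have hl := (cut_lb hf hC).1
  have hl0 := (cut_lb hf hC).2
  have hl' := (cut_lb hf hC').1
  have hl0' := (cut_lb hf hC').2
  rw [← hA] at t2' t4' hr' hl' hP'
  have hxx : (fp f * sy q.1 y k' a b).SameCycle (Sum.inl q.2) (Sum.inl q'.2) :=
    (injp_same hP _ _).1 (injp_rep (t2.symm.trans t2'))
  have hww : (fp f * sy q.1 y k' a b).SameCycle w w' :=
    (injp_same (cp_compl hP) _ _).1 (injp_rep (t4.symm.trans t4'))
  have hr2 : Rt (fp f) (sy q.1 y k' a b) (sl f q' y') (Sum.inl q.2) w := by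
    intro d
    rcases hr' d with h1 | h1 | h1
    · exact Or.inl (h1.trans hxx.symm)
    · exact Or.inr (Or.inl (h1.trans hww.symm))
    · exact Or.inr (Or.inr h1)
  have z1 := (cut_leaf hf hC).2.2.2.2.2.2
  have z2 := (cut_leaf hf hC').2.2.2.2.2.2
  have z3 := lb_same hl' hxx
  have z4 := lb_same hl' hww
  have hL : sl f q y = sl f q' y' :=
    lab_unique hl hl' hl0 hl0' (Sum.inl q.2) w (by rw [z1, z3, z2]) (by rw [hlw, z4, hlw']) hr hr2
  have hgeo : ∀ i, i + 1 < k' + 1 → _ := fun i hi => sw_geo (cut_pt0 hf hC).2.2 hB i hi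
  have hgeo' : ∀ i, i + 1 < k' + 1 → _ := fun i hi => sw_geo (cut_pt0 hf hC').2.2 hB' i hi
  have hab : ∀ i < k' + 1, ca a i = ca a' i ∧ cb b i = cb b' i := by
    intro i
    induction i with
    | zero => intro _; exact ⟨rfl, rfl⟩
    | succ i ih =>
      intro hi
      obtain ⟨e1, e2⟩ := ih (by omega)
      obtain ⟨f1, f2⟩ := hgeo i hi
      obtain ⟨f1', f2'⟩ := hgeo' i hi
      have f1a : Fst (fp f) (sy q.1 y k' a b) (sl f q y) (sy q.1 y k' a b (ca a i))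
        (ca a (i + 1)) := f1
      have f2a : Fst (fp f) (sy q.1 y k' a b) (sl f q y) (sy q.1 y k' a b (cb b i))
        (cb b (i + 1)) := f2
      have f1b : Fst (fp f) (sy q'.1 y' k' a' b') (sl f q' y') (sy q'.1 y' k' a' b' (ca a' i))
        (ca a' (i + 1)) := f1'
      have f2b : Fst (fp f) (sy q'.1 y' k' a' b') (sl f q' y') (sy q'.1 y' k' a' b' (cb b' i))
        (cb b' (i + 1)) := f2'
      rw [← hA, ← hL, ← e1] at f1b
      rw [← hA, ← hL, ← e2] at f2b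
      exact ⟨fst_unique f1a f1b, fst_unique f2a f2b⟩
  have hS := swp_congr hab
  have hap : ap q.1 y = ap q'.1 y' := by
    rw [sw_back (ap q.1 y) (ca a) (cb b) (k' + 1), sw_back (ap q'.1 y') (ca a') (cb b') (k' + 1),
      ← hS]
    have h1 : sw (ap q.1 y) (ca a) (cb b) (k' + 1) = sw (ap q'.1 y') (ca a') (cb b') (k' + 1) := hA
    rw [h1]
  obtain ⟨hα, -⟩ := ap_inj (cut_pt hC).1.inv (injp_leg (cut_pt hC).1) (cut_pt hC').1.inv
    (injp_leg (cut_pt hC').1) y y' hap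
  have hd : ∀ d, dlab f q.1 q.2 d = dlab f q'.1 q'.2 d := fun d => congrFun hL (Sum.inl d)
  have h0 : dlab f q'.1 q'.2 q'.2 = 0 := by
    show ((dst f q'.1 q'.2 q'.2 : ℕ) : ℤ) = 0
    rw [dst_self f q'.1 q'.2 q'.2 (Equiv.Perm.SameCycle.refl _ _)]
    rfl
  have h0' : dlab f q.1 q.2 q.2 = 0 := by
    show ((dst f q.1 q.2 q.2 : ℕ) : ℤ) = 0
    rw [dst_self f q.1 q.2 q.2 (Equiv.Perm.SameCycle.refl _ _)]
    rfl
  have hsc := (cut_lab hf hC).1.zro q.2 q'.2 (injp_leg (cut_pt hC).1 _)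
    (injp_leg (cut_pt hC).1 _) h0' ((hd q'.2).trans h0)
  have h2 : q.2 = q'.2 := by
    rw [← hC.rp, ← hC'.rp, ← hα]
    exact rep_eq hsc
  exact Prod.ext hα h2

theorem injP {f : Perm D} (hf : TF f) (v r p u : ℕ) (P : Finset (D ⊕ Fin 6)) (e e' : Fin 6)
    (hee : (e = 0 ∧ e' = 3) ∨ (e = 3 ∧ e' = 0)) (he : Sum.inr e ∈ P) (he' : Sum.inr e' ∈ Pᶜ) :
    (BgP f v r p u P).ncard ≤ (XP (rst (fp f) P) u r ⟨Sum.inr e, he⟩).ncard *
      (YP (rst (fp f) Pᶜ) (v + 3 - u) r (p + 4) ⟨Sum.inr e', he'⟩).ncard := by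
  rw [← Set.ncard_prod]
  refine injp_ncard _ _ ((Set.toFinite _).prod (yp_fin _ _ _ _ _)) (InjR f v r P) ?_ ?_
  · intro q hq
    exact injp_ex hf hee he he' hq
  · intro q q' t h1 h2
    exact injp_inj hf h1 h2

end QG1
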