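import Pool.Agent.H1.QG.CutG

/-!
[H1 QG ONEB]  P186 (MP_bcc40c_pr, Q2, part G)  The boundary mod 2 of a component of the cut map.

For `d : D`: `[inl d ∈ P] + [inl (α d) ∈ P] = ed d y + Σ_{i<k} (ed d (a i) + ed d (b i))` where `ed α d z = 1` iff `z = d` or `z = α d`.

PROOF.  Levels: `y`, `α y` have the level `r` and are level darts; `a i, b i` are descending of level `r - i` (big1_lev), `α (a i), α (b i)` are ascending; `a i ≠ b i`: they are on different sides of the cut (cut_two).  So in the sum on the right at most the following terms are 1.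
(1) `d = y` or `d = α y`: `ed d y = 1`, all others are 0 (`a i` is descending, `y, α y` are not).  Left: `inl y ∈ P ↔ inr 3 ∉ P`, `inl (α y) ∈ P ↔ inr 3 ∈ P` (cut_two): sum 1.
(2) `d = a j` or `d = α (a j)` (`j < k`): `ed d (a j) = 1`; `a i ≠ a j` for `i ≠ j` (levels), `a i ≠ α (a j)` (descending/ascending), `b i ≠ a j` (levels for `i ≠ j`, sides for `i = j`), `b i ≠ α (a j)`.  So the sum is 1.  Left: `a j ∈ P ↔ inr 3 ∈ P`, `α (a j) ∈ P ↔ inr 3 ∉ P`.  (3) the same for `b j`.
(4) other `d`: all terms are 0 (if `z = α d` with `z ∈ {y, a i, b i}` then `d = α z`).  `A (inl d) = inl (α d)` (cut_val, last part), so `inl d ∈ P ↔ inl (α d) ∈ P` (`P` closed under the involution `A`).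
`1 + 1 = 0` in `ZMod 2` (`decide`).  Use `Finset.sum_eq_single j` in (2), (3).
-/

set_option autoImplicit false

namespace QG1

open Equiv HG39 QD39 QL40

variable {D : Type} [Fintype D] [DecidableEq D]

private theorem ed_zero {α : Perm D} {d z : D} (h1 : z ≠ d) (h2 : z ≠ α d) : ed α d z = 0 := by
  unfold ed
  rw [if_neg]
  rintro (h | h)
  · exact h1 h
  · exact h2 h

private theorem ed_one {α : Perm D} {d z : D} (h : z = d ∨ z = α d) : ed α d z = 1 := by
  unfold ed
  rw [if_pos h]

private theorem ind_one {E : Type} [DecidableEq E] {P : Finset E} {d e : E}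
    (h : d ∈ P ↔ e ∉ P) : ind P d + ind P e = 1 := by
  unfold ind
  by_cases he : e ∈ P
  · have hd : d ∉ P := fun hd => (h.1 hd) he
    rw [if_neg hd, if_pos he, zero_add]
  · have hd : d ∈ P := h.2 he
    rw [if_neg he, if_pos hd, add_zero]

private theorem ind_two {E : Type} [DecidableEq E] {P : Finset E} {d e : E}
    (h : d ∈ P ↔ e ∈ P) : ind P d + ind P e = 0 := by
  unfold ind
  by_cases he : e ∈ P
  · rw [if_pos (h.2 he), if_pos he]
    decide
  · have hd : d ∉ P := fun hd => he (h.1 hd)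
    rw [if_neg he, if_neg hd, add_zero]

theorem one_b {f : Perm D} (hf : TF f) {v r : ℕ} {q : Perm D × D} {y : D} {k : ℕ} {a b : ℕ → D}
    (h : Cut f v r q y k a b) {P : Finset (D ⊕ Fin 6)} (hP : Cp (fp f) (sy q.1 y k a b) P) (d : D) :
    ind P (Sum.inl d) + ind P (Sum.inl (q.1 d)) =
      ed q.1 d y + ∑ i ∈ Finset.range k, (ed q.1 d (a i) + ed q.1 d (b i)) := by
  obtain ⟨_, hlb⟩ := cut_lab hf h
  have hB := h.big
  have hinv := hlb.inv
  -- descending darts
  have dd : ∀ d e, Desc f (dlab f q.1 q.2) d → Desc f (dlab f q.1 q.2) e → d ≠ q.1 e := by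
    intro d e hd he hde
    have h1 : dlab f q.1 q.2 (f d) = dlab f q.1 q.2 d - 1 := hd
    have h2 : dlab f q.1 q.2 (f e) = dlab f q.1 q.2 e - 1 := he
    have h3 := hlb.ver e
    have h4 := hlb.ver d
    rw [hde, hinv e] at h4
    rw [hde] at h1
    omega
  have lv1 : ∀ d, Desc f (dlab f q.1 q.2) d → d ≠ y := by
    intro d hd hde
    have h1 : dlab f q.1 q.2 (f d) = dlab f q.1 q.2 d - 1 := hd
    have h2 := hB.lev
    rw [hde] at h1
    omega
  have lv2 : ∀ d, Desc f (dlab f q.1 q.2) d → d ≠ q.1 y := by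
    intro d hd hde
    have h1 : dlab f q.1 q.2 (f d) = dlab f q.1 q.2 d - 1 := hd
    have h2 := hB.lev
    have h3 := hlb.ver y
    have h4 := hlb.ver d
    rw [hde, hinv y] at h4
    rw [hde] at h1
    omega
  have levs := fun i (hi : i < k) => big1_lev hlb hB i hi
  obtain ⟨_, hy1, hy2, hab⟩ := cut_two hf h hP
  have naa : ∀ i < k, ∀ j < k, i ≠ j → a i ≠ a j := by
    intro i hi j hj hij he
    have h1 := (levs i hi).1
    have h2 := (levs j hj).1
    rw [he] at h1
    omega
  have nbb : ∀ i < k, ∀ j < k, i ≠ j → b i ≠ b j := by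
    intro i hi j hj hij he
    have h1 := (levs i hi).2.1
    have h2 := (levs j hj).2.1
    rw [he] at h1
    omega
  have nab : ∀ i < k, ∀ j < k, a i ≠ b j := by
    intro i hi j hj he
    have h1 := (levs i hi).1
    have h2 := (levs j hj).2.1
    rw [he] at h1
    have hij : i = j := by omega
    subst hij
    have h3 := (hab i hi).1
    have h4 := (hab i hi).2.2.1
    rw [he] at h3
    by_cases ht : Sum.inr 3 ∈ P
    · exact (h4.1 (h3.2 ht)) ht
    · exact ht (h3.1 (h4.2 ht))
  by_cases c1 : d = y ∨ d = q.1 y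
  · have hs : ∑ i ∈ Finset.range k, (ed q.1 d (a i) + ed q.1 d (b i)) = 0 := by
      refine Finset.sum_eq_zero fun i hi => ?_
      have hi' := Finset.mem_range.1 hi
      have ha := hB.da i hi'
      have hb := hB.db i hi'
      rcases c1 with c | c
      · rw [c, ed_zero (lv1 _ ha) (lv2 _ ha), ed_zero (lv1 _ hb) (lv2 _ hb), add_zero]
      · have e : q.1 d = y := by rw [c]; exact hinv y
        rw [ed_zero (by rw [c]; exact lv2 _ ha) (by rw [e]; exact lv1 _ ha),
          ed_zero (by rw [c]; exact lv2 _ hb) (by rw [e]; exact lv1 _ hb), add_zero]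
    rw [hs, add_zero]
    rcases c1 with c | c
    · rw [c, ed_one (Or.inl rfl)]
      exact ind_one (hy1.trans (not_congr hy2.symm))
    · have e : q.1 d = y := by rw [c]; exact hinv y
      rw [ed_one (Or.inr e.symm), e, c, add_comm]
      exact ind_one (hy1.trans (not_congr hy2.symm))
  have c1a : d ≠ y := fun e => c1 (Or.inl e)
  have c1b : d ≠ q.1 y := fun e => c1 (Or.inr e)
  have c1c : y ≠ q.1 d := by
    intro e
    apply c1b
    rw [e, hinv]
  rw [ed_zero (Ne.symm c1a) c1c, zero_add]
  by_cases c2 : ∃ j < k, d = a j ∨ d = q.1 (a j)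
  · obtain ⟨j, hj, c⟩ := c2
    have haj := hB.da j hj
    have hq : (d = a j ∧ q.1 d = q.1 (a j)) ∨ (d = q.1 (a j) ∧ q.1 d = a j) := by
      rcases c with c | c
      · exact Or.inl ⟨c, by rw [c]⟩
      · exact Or.inr ⟨c, by rw [c]; exact hinv _⟩
    have hs : ∑ i ∈ Finset.range k, (ed q.1 d (a i) + ed q.1 d (b i)) = 1 := by
      rw [Finset.sum_eq_single j]
      · have e1 : ed q.1 d (a j) = 1 := by
          apply ed_one
          rcases hq with ⟨e1, e2⟩ | ⟨e1, e2⟩
          · exact Or.inl e1.symm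
          · exact Or.inr e2.symm
        have e2 : ed q.1 d (b j) = 0 := by
          rcases hq with ⟨e1, e2⟩ | ⟨e1, e2⟩
          · exact ed_zero (by rw [e1]; exact (nab j hj j hj).symm)
              (by rw [e2]; exact dd _ _ (hB.db j hj) haj)
          · exact ed_zero (by rw [e1]; exact dd _ _ (hB.db j hj) haj)
              (by rw [e2]; exact (nab j hj j hj).symm)
        rw [e1, e2, add_zero]
      · intro i hi hij
        have hi' := Finset.mem_range.1 hi
        have ha := hB.da i hi'
        have hb := hB.db i hi'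
        rcases hq with ⟨e1, e2⟩ | ⟨e1, e2⟩
        · rw [ed_zero (by rw [e1]; exact naa i hi' j hj hij) (by rw [e2]; exact dd _ _ ha haj),
            ed_zero (by rw [e1]; exact (nab j hj i hi').symm) (by rw [e2]; exact dd _ _ hb haj),
            add_zero]
        · rw [ed_zero (by rw [e1]; exact dd _ _ ha haj) (by rw [e2]; exact naa i hi' j hj hij),
            ed_zero (by rw [e1]; exact dd _ _ hb haj) (by rw [e2]; exact (nab j hj i hi').symm),
            add_zero]
      · intro hn
        exact absurd (Finset.mem_range.2 hj) hn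
    rw [hs]
    have hA := (hab j hj).1
    have hA' := (hab j hj).2.2.2
    rcases hq with ⟨e1, e2⟩ | ⟨e1, e2⟩
    · rw [e2, e1, add_comm]
      exact ind_one (hA'.trans (not_congr hA.symm))
    · rw [e2, e1]
      exact ind_one (hA'.trans (not_congr hA.symm))
  by_cases c3 : ∃ j < k, d = b j ∨ d = q.1 (b j)
  · obtain ⟨j, hj, c⟩ := c3
    have hbj := hB.db j hj
    have hq : (d = b j ∧ q.1 d = q.1 (b j)) ∨ (d = q.1 (b j) ∧ q.1 d = b j) := by
      rcases c with c | c
      · exact Or.inl ⟨c, by rw [c]⟩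
      · exact Or.inr ⟨c, by rw [c]; exact hinv _⟩
    have hs : ∑ i ∈ Finset.range k, (ed q.1 d (a i) + ed q.1 d (b i)) = 1 := by
      rw [Finset.sum_eq_single j]
      · have e1 : ed q.1 d (b j) = 1 := by
          apply ed_one
          rcases hq with ⟨e1, e2⟩ | ⟨e1, e2⟩
          · exact Or.inl e1.symm
          · exact Or.inr e2.symm
        have e2 : ed q.1 d (a j) = 0 := by
          rcases hq with ⟨e1, e2⟩ | ⟨e1, e2⟩
          · exact ed_zero (by rw [e1]; exact nab j hj j hj)
              (by rw [e2]; exact dd _ _ (hB.da j hj) hbj)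
          · exact ed_zero (by rw [e1]; exact dd _ _ (hB.da j hj) hbj)
              (by rw [e2]; exact nab j hj j hj)
        rw [e1, e2, zero_add]
      · intro i hi hij
        have hi' := Finset.mem_range.1 hi
        have ha := hB.da i hi'
        have hb := hB.db i hi'
        rcases hq with ⟨e1, e2⟩ | ⟨e1, e2⟩
        · rw [ed_zero (by rw [e1]; exact nab i hi' j hj) (by rw [e2]; exact dd _ _ ha hbj),
            ed_zero (by rw [e1]; exact nbb i hi' j hj hij) (by rw [e2]; exact dd _ _ hb hbj),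
            add_zero]
        · rw [ed_zero (by rw [e1]; exact dd _ _ ha hbj) (by rw [e2]; exact nab i hi' j hj),
            ed_zero (by rw [e1]; exact dd _ _ hb hbj) (by rw [e2]; exact nbb i hi' j hj hij),
            add_zero]
      · intro hn
        exact absurd (Finset.mem_range.2 hj) hn
    rw [hs]
    have hA := (hab j hj).2.1
    have hA' := (hab j hj).2.2.1
    rcases hq with ⟨e1, e2⟩ | ⟨e1, e2⟩
    · rw [e2, e1]
      exact ind_one (hA'.trans (not_congr hA.symm))
    · rw [e2, e1, add_comm]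
      exact ind_one (hA'.trans (not_congr hA.symm))
  have c4 : ∀ i < k, d ≠ a i ∧ d ≠ b i ∧ d ≠ q.1 (a i) ∧ d ≠ q.1 (b i) := by
    intro i hi
    exact ⟨fun e => c2 ⟨i, hi, Or.inl e⟩, fun e => c3 ⟨i, hi, Or.inl e⟩,
      fun e => c2 ⟨i, hi, Or.inr e⟩, fun e => c3 ⟨i, hi, Or.inr e⟩⟩
  have hs : ∑ i ∈ Finset.range k, (ed q.1 d (a i) + ed q.1 d (b i)) = 0 := by
    refine Finset.sum_eq_zero fun i hi => ?_
    have hi' := Finset.mem_range.1 hi
    obtain ⟨n1, n2, n3, n4⟩ := c4 i hi'
    have m1 : a i ≠ q.1 d := by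
      intro e
      apply n3
      rw [e, hinv]
    have m2 : b i ≠ q.1 d := by
      intro e
      apply n4
      rw [e, hinv]
    rw [ed_zero (Ne.symm n1) m1, ed_zero (Ne.symm n2) m2, add_zero]
  rw [hs]
  have hA := (cut_val hf h).2.2.2.2.2.2.2.2 d c1a c1b c4
  refine ind_two ⟨fun hd => ?_, fun hd => ?_⟩
  · have h1 := hP.aa _ hd
    rw [hA] at h1
    exact h1
  · have h1 := hP.aa _ hd
    rw [← hA, (cut_inv hf h _).1] at h1
    exact h1

end QG1
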