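import Pool.Agent.H1.QG.Defs

/-!
[H1 QG RST]  P186 (MP_bcc40c_pr, Q2, part G)  Restriction of permutations to closed sets.

PROOF.  cl_iff: `π` maps the finite set `P` injectively into itself, so onto itself (`Finset.eq_of_subset_of_card_le` for `P.image π ⊆ P`, `Finset.card_image_of_injective`); if `π d ∈ P` then `π d = π e` with `e ∈ P`, so `d = e`.
rst_val: `dif_pos` with cl_iff, `Equiv.Perm.subtypePerm_apply`.  cl_compl: cl_iff.  rst_mul: `Subtype.ext`, rst_val three times.  rst_tf: rst_val.
rst_same: `(rst π P)^n d = π^n d` for natural `n` (induction, rst_val); `SameCycle` on a finite type is given by a natural power (`Equiv.Perm.SameCycle.exists_pow_eq'`).  Or `Equiv.Perm.sameCycle_subtypePerm`.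
rst_cyc: the quotient of `D` by `SameCycle π` is the disjoint union of the classes in `P` and outside: bijection `Quotient π ≃ Quotient (rst π P) ⊕ Quotient (rst π Pᶜ)` by rst_same (cycles do not leave `P`).  `Nat.card_sum`.  (Compare `quot_split` in H39/QE/ExcF.)
rst_ext: for `d ∈ P`: `α d = rst α P ⟨d, _⟩`; for `d ∉ P` use the complement.
-/

set_option autoImplicit false

namespace QG1

open Equiv HG39 QD39 QL40

variable {D : Type} [Fintype D] [DecidableEq D]

private theorem rst_split (r : D → D → Prop) (P : Finset D) (h : ∀ a b, r a b → (a ∈ P ↔ b ∈ P)) :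
    Nat.card (Quot r) = Nat.card (Quot fun a b : {d // d ∈ P} => r a b) +
      Nat.card (Quot fun a b : {d // d ∈ Pᶜ} => r a b) := by
  classical
  have e : Quot r ≃ (Quot fun a b : {d // d ∈ P} => r a b) ⊕
      (Quot fun a b : {d // d ∈ Pᶜ} => r a b) := by
    refine ⟨Quot.lift (fun d => if h : d ∈ P then Sum.inl (Quot.mk _ ⟨d, h⟩) else
      Sum.inr (Quot.mk _ ⟨d, Finset.mem_compl.2 h⟩)) ?_,
      Sum.elim (Quot.lift (fun d => Quot.mk r d.1) ?_) (Quot.lift (fun d => Quot.mk r d.1) ?_),
      ?_, ?_⟩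
    · intro a b hab
      have h1 := h a b hab
      by_cases ha : a ∈ P
      · have hb : b ∈ P := h1.1 ha
        simp only [ha, hb, dif_pos]
        exact congrArg Sum.inl (Quot.sound hab)
      · have hb : b ∉ P := fun hb => ha (h1.2 hb)
        simp only [ha, hb, dif_neg, not_false_eq_true]
        exact congrArg Sum.inr (Quot.sound hab)
    · intro a b hab
      exact Quot.sound hab
    · intro a b hab
      exact Quot.sound hab
    · intro q
      induction q using Quot.ind with
      | mk d =>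
        by_cases hd : d ∈ P
        · simp [hd]
        · simp [hd]
    · intro q
      rcases q with q | q
      · induction q using Quot.ind with
        | mk d =>
          obtain ⟨d, hd⟩ := d
          simp [hd]
      · induction q using Quot.ind with
        | mk d =>
          obtain ⟨d, hd⟩ := d
          have hd' := Finset.mem_compl.1 hd
          simp [hd']
  rw [Nat.card_congr e, Nat.card_sum]

theorem cl_iff {π : Perm D} {P : Finset D} (h : ∀ d ∈ P, π d ∈ P) (d : D) : π d ∈ P ↔ d ∈ P := by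
  refine ⟨fun hd => ?_, h d⟩
  have h1 : P.image π ⊆ P := by
    intro e he
    obtain ⟨e', he', rfl⟩ := Finset.mem_image.1 he
    exact h e' he'
  have h2 : P.image π = P := Finset.eq_of_subset_of_card_le h1
    (by rw [Finset.card_image_of_injective _ π.injective])
  rw [← h2] at hd
  obtain ⟨e, he, hed⟩ := Finset.mem_image.1 hd
  rw [← π.injective hed]
  exact he

theorem cl_compl {π : Perm D} {P : Finset D} (h : ∀ d ∈ P, π d ∈ P) : ∀ d ∈ Pᶜ, π d ∈ Pᶜ := by
  intro d hd
  rw [Finset.mem_compl] at hd ⊢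
  rwa [cl_iff h]

theorem rst_val {π : Perm D} {P : Finset D} (h : ∀ d ∈ P, π d ∈ P) (d : {d // d ∈ P}) :
    ((rst π P d : {d // d ∈ P}) : D) = π d := by
  unfold rst
  rw [dif_pos (fun d => cl_iff h d)]
  rfl

theorem rst_mul {f α : Perm D} {P : Finset D} (hf : ∀ d ∈ P, f d ∈ P) (ha : ∀ d ∈ P, α d ∈ P) :
    rst (f * α) P = rst f P * rst α P := by
  refine Equiv.ext fun d => Subtype.ext ?_
  have hfa : ∀ d ∈ P, (f * α) d ∈ P := fun d hd => hf (α d) (ha d hd)
  rw [rst_val hfa, Perm.mul_apply, Perm.mul_apply, rst_val hf, rst_val ha]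

theorem rst_tf {f : Perm D} (hf : TF f) {P : Finset D} (hP : ∀ d ∈ P, f d ∈ P) : TF (rst f P) := by
  refine ⟨fun d => Subtype.ext ?_, fun d h => ?_⟩
  · rw [rst_val hP, rst_val hP, rst_val hP, hf.three]
  · have h1 := congrArg Subtype.val h
    rw [rst_val hP] at h1
    exact hf.nf _ h1

theorem rst_same {π : Perm D} {P : Finset D} (h : ∀ d ∈ P, π d ∈ P) (a b : {d // d ∈ P}) :
    (rst π P).SameCycle a b ↔ π.SameCycle (a : D) (b : D) := by
  have key : ∀ (n : ℕ) (a : {d // d ∈ P}), (((rst π P) ^ n) a : D) = (π ^ n) (a : D) := by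
    intro n
    induction n with
    | zero => intro a; rfl
    | succ n ih =>
      intro a
      rw [pow_succ', pow_succ', Perm.mul_apply, Perm.mul_apply, rst_val h, ih]
  constructor
  · intro hs
    obtain ⟨n, _, hn⟩ := hs.exists_pow_eq'
    refine ⟨(n : ℤ), ?_⟩
    rw [zpow_natCast, ← key n a, hn]
  · intro hs
    obtain ⟨n, _, hn⟩ := hs.exists_pow_eq'
    refine ⟨(n : ℤ), Subtype.ext ?_⟩
    rw [zpow_natCast, key n a, hn]

theorem rst_cyc {π : Perm D} {P : Finset D} (h : ∀ d ∈ P, π d ∈ P) :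
    cyc π = cyc (rst π P) + cyc (rst π Pᶜ) := by
  have hs : ∀ a b, π.SameCycle a b → (a ∈ P ↔ b ∈ P) := by
    intro a b hab
    obtain ⟨n, _, hn⟩ := hab.exists_pow_eq'
    rw [← hn]
    clear hn
    induction n with
    | zero => exact Iff.rfl
    | succ n ih =>
      rw [pow_succ', Perm.mul_apply, cl_iff h]
      exact ih (by omega)
  have h1 := rst_split (fun a b => π.SameCycle a b) P hs
  have e1 : (fun a b : {d // d ∈ P} => π.SameCycle (a : D) (b : D)) =
      fun a b => (rst π P).SameCycle a b := by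
    funext a b
    exact propext (rst_same h a b).symm
  have e2 : (fun a b : {d // d ∈ Pᶜ} => π.SameCycle (a : D) (b : D)) =
      fun a b => (rst π Pᶜ).SameCycle a b := by
    funext a b
    exact propext (rst_same (cl_compl h) a b).symm
  rw [e1, e2] at h1
  exact h1

theorem rst_ext {α α' : Perm D} {P : Finset D} (h : ∀ d ∈ P, α d ∈ P) (h' : ∀ d ∈ P, α' d ∈ P)
    (h1 : rst α P = rst α' P) (h2 : rst α Pᶜ = rst α' Pᶜ) : α = α' := by
  refine Equiv.ext fun d => ?_
  by_cases hd : d ∈ P
  · have h3 : ((rst α P ⟨d, hd⟩ : {d // d ∈ P}) : D) = (rst α' P ⟨d, hd⟩ : {d // d ∈ P}) := by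
      rw [h1]
    rw [rst_val h, rst_val h'] at h3
    exact h3
  · have h3 : ((rst α Pᶜ ⟨d, Finset.mem_compl.2 hd⟩ : {d // d ∈ Pᶜ}) : D) =
        (rst α' Pᶜ ⟨d, Finset.mem_compl.2 hd⟩ : {d // d ∈ Pᶜ}) := by
      rw [h2]
    rw [rst_val (cl_compl h), rst_val (cl_compl h')] at h3
    exact h3

end QG1
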